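import Mathlib

/-! Time averages of a stationary curve in a Hilbert space. -/

set_option autoImplicit false
set_option linter.unusedSectionVars false

open scoped BigOperators Topology InnerProductSpace
open MeasureTheory Filter Set

namespace Pool.Agent.Q218.AT

/-- the double integral of an even function of the difference -/
theorem dbl (F : ℝ → ℝ) (hF : Continuous F) (he : ∀ u, F (-u) = F u) :
    ∫ t in (0 : ℝ)..1, ∫ s in (0 : ℝ)..1, F (s - t) = ∫ u in (0 : ℝ)..1, 2 * (1 - u) * F u := by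
  obtain ⟨P, hP⟩ : ∃ P : ℝ → ℝ, P = fun x => ∫ u in (0 : ℝ)..x, F u := ⟨_, rfl⟩
  have hPd : ∀ x, HasDerivAt P (F x) x := fun x => by
    rw [hP]
    exact intervalIntegral.integral_hasDerivAt_right (hF.intervalIntegrable _ _)
      hF.aestronglyMeasurable.stronglyMeasurableAtFilter hF.continuousAt
  have hPc : Continuous P := continuous_iff_continuousAt.2 fun x => (hPd x).continuousAt
  have h1 : ∀ t, ∫ s in (0 : ℝ)..1, F (s - t) = P (1 - t) + P t := by
    intro t
    rw [intervalIntegral.integral_comp_sub_right (fun x => F x) t]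
    have h2 : ∫ x in (0 - t)..(1 - t), F x = (∫ x in (0 - t)..0, F x) + ∫ x in (0 : ℝ)..(1 - t), F x :=
      (intervalIntegral.integral_add_adjacent_intervals (hF.intervalIntegrable _ _)
        (hF.intervalIntegrable _ _)).symm
    have h3 : ∫ x in (0 - t)..0, F x = P t := by
      have h4 := intervalIntegral.integral_comp_neg (a := 0) (b := t) (fun x => F x)
      simp only [he, neg_zero] at h4
      rw [zero_sub, hP]
      exact h4.symm
    rw [h2, h3, hP]
    ring
  simp only [h1]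
  have hPc1 : Continuous fun t => P (1 - t) := hPc.comp (by fun_prop)
  rw [intervalIntegral.integral_add (hPc1.intervalIntegrable _ _)
    (hPc.intervalIntegrable _ _)]
  have h5 : ∫ t in (0 : ℝ)..1, P (1 - t) = ∫ t in (0 : ℝ)..1, P t := by
    have := intervalIntegral.integral_comp_sub_left (a := 0) (b := 1) (fun x => P x) 1
    rw [this]
    norm_num
  have h6 : ∫ u in (0 : ℝ)..1, (1 - u) * F u = ∫ t in (0 : ℝ)..1, P t := by
    have h7 := intervalIntegral.integral_mul_deriv_eq_deriv_mul (a := 0) (b := 1)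
      (u := fun u => 1 - u) (u' := fun _ => -1) (v := P) (v' := F)
      (fun x _ => ((hasDerivAt_id x).const_sub 1)) (fun x _ => hPd x)
      (continuous_const.intervalIntegrable _ _) (hF.intervalIntegrable _ _)
    rw [h7]
    have h8 : P 0 = 0 := by rw [hP]; simp
    simp only [h8, sub_self, zero_mul, mul_zero, neg_one_mul, intervalIntegral.integral_neg]
    ring
  rw [h5, ← h6, ← two_mul, ← intervalIntegral.integral_const_mul]
  congr 1
  funext u
  ring

variable {E : Type*} [NormedAddCommGroup E] [InnerProductSpace ℂ E] [CompleteSpace E]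

/-- the time average -/
noncomputable def Bm (A : ℝ → E) (T : ℝ) : E := ∫ s in (0 : ℝ)..1, A (s * T)

theorem inner_int (A : ℝ → E) (hA : Continuous A) (a b : ℝ) (hab : a ≤ b) (c : E) :
    ⟪c, ∫ s in a..b, A s⟫_ℂ = ∫ s in a..b, ⟪c, A s⟫_ℂ := by
  rw [intervalIntegral.integral_of_le hab, intervalIntegral.integral_of_le hab]
  refine (integral_inner ?_ c).symm
  exact (hA.integrableOn_Icc).mono_set Ioc_subset_Icc_self

theorem Bm_sq (A : ℝ → E) (hA : Continuous A) (S : ℝ → ℂ) (hS : ∀ s t, ⟪A s, A t⟫_ℂ = S (t - s))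
    (T : ℝ) : ‖Bm A T‖ ^ 2 = ∫ u in (0 : ℝ)..1, 2 * (1 - u) * (S (u * T)).re := by
  have hSc : Continuous S := by
    have h1 : S = fun t => ⟪A 0, A t⟫_ℂ := by
      funext t
      rw [hS, sub_zero]
    rw [h1]
    exact continuous_const.inner hA
  have hSn : ∀ u, S (-u) = (starRingEnd ℂ) (S u) := by
    intro u
    have h1 := hS 0 u
    have h2 := hS u 0
    rw [sub_zero] at h1
    rw [zero_sub] at h2
    rw [← h1, ← h2, inner_conj_symm]
  have hAT : Continuous fun s => A (s * T) := hA.comp (by fun_prop)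
  rw [← dbl (fun u => (S (u * T)).re) (Complex.continuous_re.comp (hSc.comp (by fun_prop)))
    (fun u => by rw [neg_mul, hSn, Complex.conj_re])]
  have h1 : ‖Bm A T‖ ^ 2 = (⟪Bm A T, Bm A T⟫_ℂ).re := by
    rw [inner_self_eq_norm_sq_to_K]
    norm_cast
  have h2 : ⟪Bm A T, Bm A T⟫_ℂ = ∫ t in (0 : ℝ)..1, ⟪Bm A T, A (t * T)⟫_ℂ := by
    conv_lhs => rw [Bm]
    exact inner_int _ hAT 0 1 zero_le_one _
  have hc1 : Continuous fun t : ℝ => ⟪Bm A T, A (t * T)⟫_ℂ := continuous_const.inner hAT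
  rw [h1, h2]
  have h3 : (∫ t in (0 : ℝ)..1, ⟪Bm A T, A (t * T)⟫_ℂ).re =
      ∫ t in (0 : ℝ)..1, (⟪Bm A T, A (t * T)⟫_ℂ).re := by
    rw [intervalIntegral.integral_of_le zero_le_one, intervalIntegral.integral_of_le zero_le_one]
    exact (integral_re ((hc1.integrableOn_Icc).mono_set Ioc_subset_Icc_self)).symm
  rw [h3]
  congr 1
  funext t
  have h4 : (⟪Bm A T, A (t * T)⟫_ℂ).re = (⟪A (t * T), Bm A T⟫_ℂ).re := by
    rw [← inner_conj_symm, Complex.conj_re]
  have h5 : ⟪A (t * T), Bm A T⟫_ℂ = ∫ s in (0 : ℝ)..1, ⟪A (t * T), A (s * T)⟫_ℂ := by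
    rw [Bm]
    exact inner_int _ hAT 0 1 zero_le_one _
  have hc2 : Continuous fun s : ℝ => ⟪A (t * T), A (s * T)⟫_ℂ := continuous_const.inner hAT
  rw [h4, h5]
  have h6 : (∫ s in (0 : ℝ)..1, ⟪A (t * T), A (s * T)⟫_ℂ).re =
      ∫ s in (0 : ℝ)..1, (⟪A (t * T), A (s * T)⟫_ℂ).re := by
    rw [intervalIntegral.integral_of_le zero_le_one, intervalIntegral.integral_of_le zero_le_one]
    exact (integral_re ((hc2.integrableOn_Icc).mono_set Ioc_subset_Icc_self)).symm
  rw [h6]
  congr 1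
  funext s
  rw [hS]
  congr 2
  ring

/-- **longer time averages are smaller** -/
theorem Bm_mono (A : ℝ → E) (hA : Continuous A) (S : ℝ → ℂ)
    (hS : ∀ s t, ⟪A s, A t⟫_ℂ = S (t - s)) (T : ℝ) (n : ℕ) (hn : 1 ≤ n) :
    ‖Bm A (n * T)‖ ≤ ‖Bm A T‖ := by
  have hn0 : (0 : ℝ) < n := by exact_mod_cast hn
  have hAT : Continuous fun s => A (s * T) := hA.comp (by fun_prop)
  have h1 : Bm A (n * T) = (n : ℝ)⁻¹ • ∫ u in (0 : ℝ)..n, A (u * T) := by
    unfold Bm
    have h2 := intervalIntegral.integral_comp_mul_right (a := 0) (b := 1)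
      (fun u => A (u * T)) hn0.ne'
    rw [zero_mul, one_mul] at h2
    rw [← h2]
    congr 1
    funext s
    congr 1
    ring
  have h3 : ∫ u in (0 : ℝ)..n, A (u * T) =
      ∑ k ∈ Finset.range n, ∫ u in (k : ℝ)..((k + 1 : ℕ) : ℝ), A (u * T) := by
    rw [intervalIntegral.sum_integral_adjacent_intervals (a := fun k : ℕ => (k : ℝ))
      fun k _ => hAT.intervalIntegrable _ _]
    simp
  have h4 : ∀ k : ℕ, ‖∫ u in (k : ℝ)..((k + 1 : ℕ) : ℝ), A (u * T)‖ = ‖Bm A T‖ := by
    intro k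
    obtain ⟨A', hA'⟩ : ∃ A' : ℝ → E, A' = fun s => A (s + k * T) := ⟨_, rfl⟩
    have h5 : ∫ u in (k : ℝ)..((k + 1 : ℕ) : ℝ), A (u * T) = Bm A' T := by
      unfold Bm
      have h6 := intervalIntegral.integral_comp_add_right (a := 0) (b := 1)
        (fun u => A (u * T)) (k : ℝ)
      rw [zero_add] at h6
      push_cast
      rw [add_comm (k : ℝ) 1, ← h6, hA']
      congr 1
      funext s
      congr 1
      ring
    have h7 : ‖Bm A' T‖ ^ 2 = ‖Bm A T‖ ^ 2 := by
      rw [Bm_sq A hA S hS T, Bm_sq A' (by rw [hA']; exact hA.comp (by fun_prop)) S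
        (fun s t => by
          rw [hA']
          simp only
          rw [hS]
          congr 1
          ring) T]
    rw [h5]
    exact (pow_left_inj₀ (norm_nonneg _) (norm_nonneg _) two_ne_zero).1 h7
  rw [h1, h3, norm_smul, norm_inv, Real.norm_of_nonneg hn0.le]
  rw [inv_mul_le_iff₀ hn0]
  refine (norm_sum_le _ _).trans (le_of_eq ?_)
  rw [Finset.sum_congr rfl fun k _ => h4 k, Finset.sum_const, Finset.card_range, nsmul_eq_mul]

/-- **invariant vectors** -/
theorem Bm_bessel {ι : Type*} (A : ℝ → E) (hA : Continuous A) (e : ι → E) (he : Orthonormal ℂ e)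
    (C : ι → ℂ) (hC : ∀ j s, ⟪e j, A s⟫_ℂ = C j) (T : ℝ) (F : Finset ι) :
    ∑ j ∈ F, ‖C j‖ ^ 2 ≤ ‖Bm A T‖ ^ 2 := by
  have hAT : Continuous fun s => A (s * T) := hA.comp (by fun_prop)
  have h1 : ∀ j, ⟪e j, Bm A T⟫_ℂ = C j := by
    intro j
    unfold Bm
    rw [inner_int _ hAT 0 1 zero_le_one]
    simp only [hC]
    simp
  have h2 := he.sum_inner_products_le (Bm A T) (s := F)
  simp only [h1] at h2
  exact h2

end Pool.Agent.Q218.AT
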