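import Pool.Agent.Q218.AT.Stat
import Pool.Agent.Q218.AT.Abs

/-! The evolution of observables in the Hilbert space of Hilbert–Schmidt kernels. -/

set_option autoImplicit false
set_option linter.unusedSectionVars false

open scoped BigOperators Topology InnerProductSpace
open MeasureTheory Filter Set

namespace Pool.Agent.Q218.AT

open Pool.Agent.W788.LD.Spec (S)
open Pool.Agent.H4R2.LO (Zd)
open Pool.Agent.TH794.QD (Sol HS hmk hmk_apply hs_sum)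
open Pool.Agent.Q218.UD
open Pool.Agent.Q218.AD (hs_inner cf)

variable {d : ℕ}

/-- kernels -/
abbrev HT (d : ℕ) : Type := lp (fun _ : Zd d × Zd d => ℂ) 2

theorem vv_mem (f : HS d) : Memℓp (fun p : Zd d × Zd d => f p.1 * (starRingEnd ℂ) (f p.2)) 2 := by
  rw [memℓp_gen_iff (by norm_num)]
  have h1 := (hs_sum f).summable
  have h2 := h1.mul_of_nonneg h1 (fun x => sq_nonneg _) (fun x => sq_nonneg _)
  refine h2.congr fun p => ?_
  simp only [norm_mul, Complex.norm_conj, ENNReal.toReal_ofNat, Real.rpow_ofNat]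
  ring

/-- the projection on a vector -/
noncomputable def vv (f : HS d) : HT d := ⟨_, vv_mem f⟩

theorem vv_apply (f : HS d) (p : Zd d × Zd d) : vv f p = f p.1 * (starRingEnd ℂ) (f p.2) := rfl

theorem sm_mul (f g : HS d) : Summable fun x => ‖(starRingEnd ℂ) (f x) * g x‖ := by
  have h1 := (hs_sum f).summable.add (hs_sum g).summable
  refine Summable.of_nonneg_of_le (fun x => norm_nonneg _) (fun x => ?_) h1
  rw [norm_mul, Complex.norm_conj]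
  nlinarith [sq_nonneg (‖f x‖ - ‖g x‖), sq_nonneg ‖f x‖, sq_nonneg ‖g x‖]

theorem nsq {E : Type*} [NormedAddCommGroup E] [InnerProductSpace ℂ E] (v : E)
    (h : ⟪v, v⟫_ℂ = 1) : ‖v‖ ^ 2 = 1 := by
  have h1 := inner_self_eq_norm_sq (𝕜 := ℂ) v
  rw [h] at h1
  simpa using h1.symm

theorem vv_inner (f g : HS d) : ⟪vv f, vv g⟫_ℂ = ((‖⟪f, g⟫_ℂ‖ ^ 2 : ℝ) : ℂ) := by
  have h := lp.hasSum_inner (𝕜 := ℂ) (vv f) (vv g)
  obtain ⟨F, hF⟩ : ∃ F : Zd d → ℂ, F = fun x => (starRingEnd ℂ) (f x) * g x := ⟨_, rfl⟩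
  obtain ⟨G, hG⟩ : ∃ G : Zd d → ℂ, G = fun x => (starRingEnd ℂ) (F x) := ⟨_, rfl⟩
  have h1 : HasSum F ⟪f, g⟫_ℂ := by
    rw [hF]
    exact hs_inner f g
  have h2 : HasSum G ((starRingEnd ℂ) ⟪f, g⟫_ℂ) := by
    rw [hG]
    exact h1.star
  have s1 : Summable fun x => ‖F x‖ := by
    rw [hF]
    exact sm_mul f g
  have s2 : Summable fun x => ‖G x‖ := by
    rw [hG]
    simp only [Complex.norm_conj]
    exact s1
  have h3 : Summable fun p : Zd d × Zd d => F p.1 * G p.2 :=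
    summable_mul_of_summable_norm (f := F) (g := G) s1 s2
  have h4 := h1.mul h2 h3
  have h5 : ⟪f, g⟫_ℂ * (starRingEnd ℂ) ⟪f, g⟫_ℂ = ((‖⟪f, g⟫_ℂ‖ ^ 2 : ℝ) : ℂ) := by
    rw [Complex.mul_conj, Complex.normSq_eq_norm_sq]
  rw [h5] at h4
  have h6 : (fun p : Zd d × Zd d => F p.1 * G p.2) = fun p => ⟪vv f p, vv g p⟫_ℂ := by
    funext p
    rw [RCLike.inner_apply, vv_apply, vv_apply, hG, hF]
    simp only [map_mul, Complex.conj_conj]
    ring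
  rw [h6] at h4
  exact h.unique h4

variable {V : Zd d → ℝ} {ψ : Zd d → ℝ → Zd d → ℂ}

/-- the state -/
noncomputable def uu (hψ : ∀ a, Sol d V a (ψ a)) (a : Zd d) (t : ℝ) : HS d :=
  hmk (ψ a t) ((hψ a).norm t).summable

theorem uu_inner (hd : 1 ≤ d) (hψ : ∀ a, Sol d V a (ψ a)) (x y : Zd d) (s t : ℝ) :
    ⟪uu hψ x s, uu hψ y t⟫_ℂ = ψ y (t - s) x := by
  rw [← stat hd (hψ x) (hψ y) s t]
  exact (hs_inner (uu hψ x s) (uu hψ y t)).tsum_eq.symm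

/-- the observable at the time `t` -/
noncomputable def Ob (hψ : ∀ a, Sol d V a (ψ a)) (Λ : Finset (Zd d)) (c : Zd d → ℂ) (t : ℝ) :
    HT d := ∑ x ∈ Λ, c x • vv (uu hψ x t)

/-- the correlation function -/
noncomputable def Sc (ψ : Zd d → ℝ → Zd d → ℂ) (Λ : Finset (Zd d)) (c : Zd d → ℂ) (t : ℝ) : ℂ :=
  ∑ x ∈ Λ, ∑ y ∈ Λ, (starRingEnd ℂ) (c x) * c y * ((‖ψ y t x‖ ^ 2 : ℝ) : ℂ)

theorem Ob_inner (hd : 1 ≤ d) (hψ : ∀ a, Sol d V a (ψ a)) (Λ : Finset (Zd d)) (c : Zd d → ℂ)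
    (s t : ℝ) : ⟪Ob hψ Λ c s, Ob hψ Λ c t⟫_ℂ = Sc ψ Λ c (t - s) := by
  unfold Ob Sc
  rw [sum_inner]
  refine Finset.sum_congr rfl fun x _ => ?_
  rw [inner_sum]
  refine Finset.sum_congr rfl fun y _ => ?_
  rw [inner_smul_left, inner_smul_right, vv_inner, uu_inner hd hψ, mul_assoc]

theorem vv_cont (hd : 1 ≤ d) (hψ : ∀ a, Sol d V a (ψ a)) (x : Zd d) :
    Continuous fun t => vv (uu hψ x t) := by
  rw [continuous_iff_continuousAt]
  intro t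
  rw [ContinuousAt, tendsto_iff_norm_sub_tendsto_zero]
  have h1 : ∀ s, ‖vv (uu hψ x s) - vv (uu hψ x t)‖ =
      Real.sqrt (2 - 2 * ‖ψ x (t - s) x‖ ^ 2) := by
    intro s
    have h2 : ‖vv (uu hψ x s) - vv (uu hψ x t)‖ ^ 2 = 2 - 2 * ‖ψ x (t - s) x‖ ^ 2 := by
      have h3 : ∀ r, ‖vv (uu hψ x r)‖ ^ 2 = 1 := by
        intro r
        have h4 : ⟪vv (uu hψ x r), vv (uu hψ x r)⟫_ℂ = 1 := by
          rw [vv_inner, uu_inner hd hψ, sub_self, (hψ x).init, if_pos rfl]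
          simp
        exact nsq _ h4
      rw [@norm_sub_sq ℂ, h3, h3, vv_inner, uu_inner hd hψ]
      simp only [RCLike.re_to_complex, Complex.ofReal_re]
      ring
    rw [← h2, Real.sqrt_sq (norm_nonneg _)]
  simp only [h1]
  have h5 : Continuous fun s => Real.sqrt (2 - 2 * ‖ψ x (t - s) x‖ ^ 2) := by
    have h6 := (hψ x).cont x
    have h7 : Continuous fun s => ψ x (t - s) x := h6.comp (by fun_prop)
    fun_prop
  have h6 := h5.tendsto t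
  have h7 : Real.sqrt (2 - 2 * ‖ψ x (t - t) x‖ ^ 2) = 0 := by
    rw [sub_self, (hψ x).init, if_pos rfl]
    simp
  rw [h7] at h6
  exact h6

theorem Ob_cont (hd : 1 ≤ d) (hψ : ∀ a, Sol d V a (ψ a)) (Λ : Finset (Zd d)) (c : Zd d → ℂ) :
    Continuous (Ob hψ Λ c) := by
  unfold Ob
  refine continuous_finsetSum _ fun x _ => ?_
  exact (vv_cont hd hψ x).const_smul (c x)

/-- the norm of the time average -/
theorem Ob_sq (hd : 1 ≤ d) (hψ : ∀ a, Sol d V a (ψ a)) (Λ : Finset (Zd d)) (c : Zd d → ℂ)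
    (T : ℝ) : ‖Bm (Ob hψ Λ c) T‖ ^ 2 = ∫ u in (0 : ℝ)..1, 2 * (1 - u) * (Sc ψ Λ c (u * T)).re :=
  Bm_sq _ (Ob_cont hd hψ Λ c) _ (Ob_inner hd hψ Λ c) T

/-- longer times -/
theorem Ob_mono (hd : 1 ≤ d) (hψ : ∀ a, Sol d V a (ψ a)) (Λ : Finset (Zd d)) (c : Zd d → ℂ)
    (T : ℝ) (n : ℕ) (hn : 1 ≤ n) : ∫ u in (0 : ℝ)..1, 2 * (1 - u) * (Sc ψ Λ c (u * (n * T))).re ≤
      ∫ u in (0 : ℝ)..1, 2 * (1 - u) * (Sc ψ Λ c (u * T)).re := by
  rw [← Ob_sq hd hψ, ← Ob_sq hd hψ]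
  exact pow_le_pow_left₀ (norm_nonneg _)
    (Bm_mono _ (Ob_cont hd hψ Λ c) _ (Ob_inner hd hψ Λ c) T n hn) 2

/-- orthonormal families of projections -/
theorem vv_ortho {ι : Type*} (f : ι → HS d) (hf : Orthonormal ℂ f) :
    Orthonormal ℂ fun j => vv (f j) := by
  constructor
  · intro j
    have h4 : ⟪vv (f j), vv (f j)⟫_ℂ = 1 := by
      rw [vv_inner, inner_self_eq_norm_sq_to_K, hf.1 j]
      simp
    have h5 : ‖vv (f j)‖ ^ 2 = 1 := nsq _ h4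
    exact (pow_eq_one_iff_of_nonneg (norm_nonneg _) two_ne_zero).1 h5
  · intro i j hij
    simp only
    rw [vv_inner, hf.2 hij]
    simp

/-- **eigenfunctions** -/
theorem Ob_eig (hd : 1 ≤ d) (hψ : ∀ a, Sol d V a (ψ a)) (Λ : Finset (Zd d)) (c : Zd d → ℂ)
    {ι : Type*} (f : ι → HS d) (hf : Orthonormal ℂ f) (E : ι → ℝ)
    (he : ∀ j x, -S (fun y => f j y) x + (V x : ℂ) * f j x = (E j : ℂ) * f j x) (T : ℝ)
    (F : Finset ι) : ∑ j ∈ F, ‖∑ x ∈ Λ, c x * ((‖f j x‖ ^ 2 : ℝ) : ℂ)‖ ^ 2 ≤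
      ∫ u in (0 : ℝ)..1, 2 * (1 - u) * (Sc ψ Λ c (u * T)).re := by
  rw [← Ob_sq hd hψ]
  refine Bm_bessel _ (Ob_cont hd hψ Λ c) (fun j => vv (f j)) (vv_ortho f hf)
    (fun j => ∑ x ∈ Λ, c x * ((‖f j x‖ ^ 2 : ℝ) : ℂ)) (fun j s => ?_) T F
  unfold Ob
  rw [inner_sum]
  refine Finset.sum_congr rfl fun x _ => ?_
  rw [inner_smul_right, vv_inner]
  congr 3
  have h1 := cf_eqU (hψ x) (fun y => f j y) (hs_sum (f j)).summable (E j) (he j) s
  have h2 : cf (fun y => f j y) (ψ x) s = ⟪f j, uu hψ x s⟫_ℂ :=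
    (hs_inner (f j) (uu hψ x s)).tsum_eq
  rw [← h2, h1, norm_mul, Complex.norm_conj]
  have h3 : -Complex.I * (E j : ℂ) * (s : ℂ) = ((-(E j * s) : ℝ) : ℂ) * Complex.I := by
    push_cast
    ring
  rw [h3, Complex.norm_exp_ofReal_mul_I, one_mul]

end Pool.Agent.Q218.AT
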