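import Pool.Agent.Q218.AT.Vol4

/-! All later times and the eigenfunctions: the final form. -/

set_option autoImplicit false
set_option linter.unusedSectionVars false

open scoped BigOperators Topology InnerProductSpace
open MeasureTheory Filter Set

namespace Pool.Agent.Q218.AT

open Pool.Agent.W788.LD.Spec (S summ_mul summ_shift shiftsum)
open Pool.Agent.H4R2.LO (Zd dd bx)
open Pool.Agent.H4R2.LO.Em (dd_norm mem_bx card_bx dd_comm)
open Pool.Agent.TH794.QD (Sol HS hmk hmk_apply hs_sum)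
open Pool.Agent.Q218.UD
open Pool.Agent.Q218.AD (Phi phi_meas phi_le W_tsum Cw small_rpow hs_inner)

variable {d : ℕ} {V : Zd d → ℝ} {ψ : Zd d → ℝ → Zd d → ℂ}

/-- the boxes around the starting points -/
theorem nr_box (hψ : ∀ a, Sol d V a (ψ a)) (b : Zd d) (L r : ℕ) (hr : r ≤ L) (R T : ℝ)
    (hR : (r : ℝ) ≤ R) (hT : 0 ≤ T) :
    ∑ a ∈ bx b L, (∫ t in (0 : ℝ)..T, ∑ x ∈ bx a r, ‖ψ a t x‖ ^ 2) ≤
      (∫ t in (0 : ℝ)..T, nr ψ (bx b L) R t) +
        T * (d * (2 * r / (2 * L + 1)) * (bx b L).card) := by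
  have hc : ∀ a x, Continuous fun t => ‖ψ a t x‖ ^ 2 := fun a x => by
    have := (hψ a).cont x
    fun_prop
  have hcif : ∀ a x, Continuous fun t => if ‖x - a‖ ≤ R then ‖ψ a t x‖ ^ 2 else 0 := by
    intro a x
    split_ifs
    · exact hc a x
    · exact continuous_const
  have hone : ∀ a (A : Finset (Zd d)) t, ∑ x ∈ A, ‖ψ a t x‖ ^ 2 ≤ 1 := by
    intro a A t
    refine (((hψ a).norm t).summable.sum_le_tsum A fun x _ => sq_nonneg _).trans (le_of_eq ?_)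
    exact ((hψ a).norm t).tsum_eq
  have hcr : ((L - r : ℕ) : ℝ) = L - r := by push_cast [Nat.cast_sub hr]; rfl
  have h1 : ∫ t in (0 : ℝ)..T, nr ψ (bx b L) R t = ∑ a ∈ bx b L, ∫ t in (0 : ℝ)..T,
      ∑ x ∈ bx b L, (if ‖x - a‖ ≤ R then ‖ψ a t x‖ ^ 2 else 0) := by
    rw [← intervalIntegral.integral_finsetSum fun a _ =>
      (continuous_finsetSum _ fun x _ => hcif a x).intervalIntegrable _ _]
    congr 1
    funext t
    unfold nr
    rw [Finset.sum_comm]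
  have hsub := bx_sub b L r
  have h2 : ∑ a ∈ bx b (L - r), (∫ t in (0 : ℝ)..T, ∑ x ∈ bx a r, ‖ψ a t x‖ ^ 2) ≤
      ∫ t in (0 : ℝ)..T, nr ψ (bx b L) R t := by
    rw [h1]
    refine le_trans (Finset.sum_le_sum fun a ha => ?_)
      (Finset.sum_le_sum_of_subset_of_nonneg hsub fun a _ _ =>
        intervalIntegral.integral_nonneg hT fun t _ => Finset.sum_nonneg fun x _ => ?_)
    · refine intervalIntegral.integral_mono_on hT
        ((continuous_finsetSum _ fun x _ => hc a x).intervalIntegrable _ _)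
        ((continuous_finsetSum _ fun x _ => hcif a x).intervalIntegrable _ _) fun t _ => ?_
      have h3 : bx a r ⊆ bx b L := by
        intro x hx
        rw [mem_bx'] at ha hx ⊢
        rw [hcr] at ha
        have := norm_sub_le_norm_sub_add_norm_sub x a b
        linarith
      have h4 : ∑ x ∈ bx a r, ‖ψ a t x‖ ^ 2 =
          ∑ x ∈ bx a r, (if ‖x - a‖ ≤ R then ‖ψ a t x‖ ^ 2 else 0) := by
        refine Finset.sum_congr rfl fun x hx => ?_
        rw [mem_bx'] at hx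
        rw [if_pos (hx.trans hR)]
      rw [h4]
      refine Finset.sum_le_sum_of_subset_of_nonneg h3 fun x _ _ => ?_
      split_ifs
      · positivity
      · exact le_rfl
    · split_ifs
      · positivity
      · exact le_rfl
  have h3 : ∑ a ∈ bx b L \ bx b (L - r), (∫ t in (0 : ℝ)..T, ∑ x ∈ bx a r, ‖ψ a t x‖ ^ 2) ≤
      T * (d * (2 * r / (2 * L + 1)) * (bx b L).card) := by
    have h4 : ∀ a ∈ bx b L \ bx b (L - r),
        (∫ t in (0 : ℝ)..T, ∑ x ∈ bx a r, ‖ψ a t x‖ ^ 2) ≤ T := by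
      intro a _
      have h5 := intervalIntegral.integral_mono_on hT
        ((continuous_finsetSum (bx a r) fun x _ => hc a x).intervalIntegrable 0 T)
        (continuous_const.intervalIntegrable (μ := volume) 0 T) (fun t _ => hone a (bx a r) t)
      refine h5.trans (le_of_eq ?_)
      simp
    refine (Finset.sum_le_sum h4).trans ?_
    rw [Finset.sum_const, nsmul_eq_mul, mul_comm]
    exact mul_le_mul_of_nonneg_left (bx_sdiff b L r hr) hT
  rw [← Finset.sum_sdiff hsub]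
  linarith

/-- localized functions -/
theorem cnt {J : Type} (b : Zd d) (L r : ℕ) (R δ B : ℝ) (hR : 2 * (r : ℝ) ≤ R) (hδ : 0 < δ)
    (f : J → Zd d → ℂ) (s : Finset J)
    (h : ∑ j ∈ s, ∑ x ∈ bx b L, ∑ y ∈ bx b L,
      (if ‖x - y‖ ≤ R then ‖f j x‖ ^ 2 * ‖f j y‖ ^ 2 else 0) ≤ δ ^ 2 * B)
    (hs : ∀ j ∈ s, ∃ z : Zd d, δ ≤ ∑ x ∈ bx b L ∩ bx z r, ‖f j x‖ ^ 2) : (s.card : ℝ) ≤ B := by
  have h1 : ∀ j ∈ s, δ ^ 2 ≤ ∑ x ∈ bx b L, ∑ y ∈ bx b L,
      (if ‖x - y‖ ≤ R then ‖f j x‖ ^ 2 * ‖f j y‖ ^ 2 else 0) := by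
    intro j hj
    obtain ⟨z, hz⟩ := hs j hj
    have h2 : δ ^ 2 ≤ (∑ x ∈ bx b L ∩ bx z r, ‖f j x‖ ^ 2) ^ 2 := pow_le_pow_left₀ hδ.le hz 2
    refine h2.trans ?_
    rw [sq, Finset.sum_mul_sum]
    have h3 : ∑ x ∈ bx b L ∩ bx z r, ∑ y ∈ bx b L ∩ bx z r, ‖f j x‖ ^ 2 * ‖f j y‖ ^ 2 =
        ∑ x ∈ bx b L ∩ bx z r, ∑ y ∈ bx b L ∩ bx z r,
          (if ‖x - y‖ ≤ R then ‖f j x‖ ^ 2 * ‖f j y‖ ^ 2 else 0) := by
      refine Finset.sum_congr rfl fun x hx => Finset.sum_congr rfl fun y hy => ?_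
      rw [Finset.mem_inter, mem_bx' z x] at hx
      rw [Finset.mem_inter, mem_bx' z y] at hy
      have h4 := norm_sub_le_norm_sub_add_norm_sub x z y
      rw [norm_sub_rev z y] at h4
      rw [if_pos (by linarith [hx.2, hy.2])]
    rw [h3]
    have hnn : ∀ x y : Zd d, 0 ≤ (if ‖x - y‖ ≤ R then ‖f j x‖ ^ 2 * ‖f j y‖ ^ 2 else 0) := by
      intro x y
      split_ifs
      · positivity
      · exact le_rfl
    refine le_trans (Finset.sum_le_sum fun x _ =>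
      Finset.sum_le_sum_of_subset_of_nonneg Finset.inter_subset_left fun y _ _ => hnn x y) ?_
    exact Finset.sum_le_sum_of_subset_of_nonneg Finset.inter_subset_left fun x _ _ =>
      Finset.sum_nonneg fun y _ => hnn x y
  have h2 := (Finset.sum_le_sum h1).trans h
  rw [Finset.sum_const, nsmul_eq_mul, mul_comm] at h2
  exact le_of_mul_le_mul_left h2 (by positivity)

/-- **all later times, and the eigenfunctions** -/
theorem all (hd : 1 ≤ d) (G0 G1 : ℝ → ℝ) (hF : FreeD d G0 G1) (ε δ Vm : ℝ)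
    (hε : 0 < ε) (hδ : 0 < δ) (hVm : 0 < Vm) :
    ∃ K ε' l0 : ℝ, 0 ≤ K ∧ 0 < ε' ∧ 0 < l0 ∧ ∀ lam : ℝ, 0 < lam → lam ≤ l0 →
    ∀ V : ℝ, 0 < V → V ≤ Vm ^ 2 → ∀ (W : Zd d → ℝ) (ψ : Zd d → ℝ → Zd d → ℂ),
    (∀ a, Sol d W a (ψ a)) → ∀ (b : Zd d) (L : ℕ), lam ^ (-3 : ℝ) ≤ L →
    Dfs G0 G1 K ε' lam V ψ (bx b L) →
    ∀ r : ℕ, (r : ℝ) ≤ lam ^ (-(2011 / 1000) : ℝ) →
    (∀ T : ℝ, lam ^ (-(2024 / 1000) : ℝ) ≤ T →
      ∑ a ∈ bx b L, (∫ t in (0 : ℝ)..T, ∑ x ∈ bx a r, ‖ψ a t x‖ ^ 2) ≤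
        ε * T * (bx b L).card) ∧
    (∀ (J : Type) (f : J → HS d), Orthonormal ℂ f → ∀ (E : J → ℝ),
      (∀ j x, ‖x - b‖ < L → -S (fun y => f j y) x + (W x : ℂ) * f j x = (E j : ℂ) * f j x) →
      ∀ s : Finset J, (∀ j ∈ s, ∃ z : Zd d, δ ≤ ∑ x ∈ bx b L ∩ bx z r, ‖f j x‖ ^ 2) →
        (s.card : ℝ) ≤ ε * (bx b L).card) := by
  obtain ⟨K1, e1, l1, hK1, he1, hl1, h1⟩ := fin hd G0 G1 hF (ε / 2) Vm (by positivity) hVm
  obtain ⟨K2, e2, l2, hK2, he2, hl2, h2⟩ := vol hd G0 G1 hF (δ ^ 2 * ε) Vm (by positivity) hVm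
  obtain ⟨l3, hl3, h3⟩ := small_rpow (989 / 1000) (ε / 2 / d) (by norm_num) (by positivity)
  refine ⟨max K1 K2, min e1 e2, min (min l1 l2) (min l3 1), le_max_of_le_left hK1,
    lt_min he1 he2, by positivity, ?_⟩
  intro lam hlam hlam0 V hV0 hVb W ψ hψ b L hL hdif r hr
  have b1 : lam ≤ l1 := hlam0.trans ((min_le_left _ _).trans (min_le_left _ _))
  have b2 : lam ≤ l2 := hlam0.trans ((min_le_left _ _).trans (min_le_right _ _))
  have b3 : lam ≤ l3 := hlam0.trans ((min_le_right _ _).trans (min_le_left _ _))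
  have b4 : lam ≤ 1 := hlam0.trans ((min_le_right _ _).trans (min_le_right _ _))
  have d1 : Dfs G0 G1 K1 e1 lam V ψ (bx b L) := fun y hy T hT1 hT2 q hq =>
    (hdif y hy T hT1 hT2 q (hq.trans (le_max_left _ _))).trans (min_le_left _ _)
  have d2 : Dfs G0 G1 K2 e2 lam V ψ (bx b L) := fun y hy T hT1 hT2 q hq =>
    (hdif y hy T hT1 hT2 q (hq.trans (le_max_right _ _))).trans (min_le_right _ _)
  obtain ⟨t1, -⟩ := h1 lam hlam b1 V hV0 hVb W ψ hψ b L hL d1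
  have t2 := h2 lam hlam b2 V hV0 hVb W ψ hψ b L hL d2
  have hLpos : (0 : ℝ) < L := lt_of_lt_of_le (by positivity) hL
  have hd1 : (0 : ℝ) < d := by exact_mod_cast hd
  have hrL : r ≤ L := by
    have h4 : lam ^ (-(2011 / 1000) : ℝ) ≤ lam ^ (-3 : ℝ) :=
      Real.rpow_le_rpow_of_exponent_ge hlam b4 (by norm_num)
    exact_mod_cast hr.trans (h4.trans hL)
  have hR0 : 0 < lam ^ (-(2011 / 1000) : ℝ) := by positivity
  refine ⟨fun T hT => ?_, fun J f hf E he s hs => ?_⟩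
  · have hT0 : 0 < T := lt_of_lt_of_le (by positivity) hT
    refine (nr_box hψ b L r hrL (2 * lam ^ (-(2011 / 1000) : ℝ)) T (by linarith) hT0.le).trans ?_
    have h4 := t1 T hT
    have h5 : d * (2 * (r : ℝ) / (2 * L + 1)) ≤ ε / 2 := by
      have h6 : 2 * (r : ℝ) / (2 * L + 1) ≤ r / L := by
        rw [div_le_div_iff₀ (by positivity) hLpos]
        have : (0 : ℝ) ≤ r := Nat.cast_nonneg r
        linarith
      have h7 : (r : ℝ) / L ≤ lam ^ (-(2011 / 1000) : ℝ) / lam ^ (-3 : ℝ) := by gcongr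
      have h8 : lam ^ (-(2011 / 1000) : ℝ) / lam ^ (-3 : ℝ) = lam ^ (989 / 1000 : ℝ) := by
        rw [← Real.rpow_sub hlam]
        norm_num
      have h9 := h3 lam hlam b3
      rw [h8] at h7
      have h10 : d * (2 * (r : ℝ) / (2 * L + 1)) ≤ d * (ε / 2 / d) :=
        mul_le_mul_of_nonneg_left (h6.trans (h7.trans h9)) hd1.le
      refine h10.trans (le_of_eq ?_)
      field_simp
    have h6 : T * (d * (2 * (r : ℝ) / (2 * L + 1)) * (bx b L).card) ≤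
        T * (ε / 2 * (bx b L).card) :=
      mul_le_mul_of_nonneg_left (mul_le_mul_of_nonneg_right h5 (Nat.cast_nonneg _)) hT0.le
    linarith
  · have h4 := t2 J f hf E he s
    exact cnt b L r (2 * lam ^ (-(2011 / 1000) : ℝ)) δ (ε * (bx b L).card) (by linarith) hδ
      (fun j x => f j x) s (h4.trans (le_of_eq (by ring))) hs

end Pool.Agent.Q218.AT
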