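import Pool.Agent.Q218.AT.Fej

/-! The correlations of plane waves in a box, in terms of the characteristic functions of the
position. -/

set_option autoImplicit false
set_option linter.unusedSectionVars false

open scoped BigOperators Topology InnerProductSpace
open MeasureTheory Filter Set

namespace Pool.Agent.Q218.AT

open Pool.Agent.W788.LD.Spec (S)
open Pool.Agent.H4R2.LO (Zd dd bx)
open Pool.Agent.H4R2.LO.Em (dd_norm mem_bx card_bx dd_comm)
open Pool.Agent.TH794.QD (Sol HS hmk hmk_apply hs_sum)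
open Pool.Agent.Q218.UD
open Pool.Agent.Q218.AD (Phi phi_meas phi_le W_tsum Cw)

variable {d : ℕ} {V : Zd d → ℝ}

theorem mem_bx' (b x : Zd d) (L : ℕ) : x ∈ bx b L ↔ ‖x - b‖ ≤ L := by
  rw [mem_bx, ← norm_sub_rev, ← dd_norm]
  exact_mod_cast Iff.rfl

/-- the mass far from the starting point -/
theorem out_small (hd : 1 ≤ d) {y : Zd d} {φ : ℝ → Zd d → ℂ} (h : Sol d V y φ) (T : ℝ)
    (hT : 0 < T) (m : ℕ) (hm : 12 * d * T ≤ m) (t : ℝ) (ht : |t| ≤ T) (A : Set (Zd d))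
    (hA : ∀ x ∈ A, (m : ℝ) ≤ ‖x - y‖) :
    ∑' x, A.indicator (fun x => ‖φ t x‖ ^ 2) x ≤ Cw d * 2 ^ (d + 1) * Real.exp (-(T / 2)) := by
  have hd0 : (1 : ℝ) ≤ d := by exact_mod_cast hd
  obtain ⟨w1, w2⟩ := W_tsum hd (1 / 2) (by norm_num) (by norm_num) y
  have hb : ∀ x, A.indicator (fun x => ‖φ t x‖ ^ 2) x ≤
      Real.exp (-(T / 2)) * Real.exp (-(1 / 2 * ‖x - y‖)) := by
    intro x
    by_cases hx : x ∈ A
    · rw [Set.indicator_of_mem hx]
      have h1 := dec_exp h t x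
      have h2 := h.le_one t x
      have h3 := hA x hx
      have he : Real.exp 1 ≤ 2.7182818286 := Real.exp_one_lt_d9.le
      calc ‖φ t x‖ ^ 2 ≤ ‖φ t x‖ := by
            rw [sq]
            exact mul_le_of_le_one_left (norm_nonneg _) h2
        _ ≤ Real.exp (2 * d * |t| * Real.exp 1) * Real.exp (-(1 * ‖x - y‖)) := h1
        _ = Real.exp (2 * d * |t| * Real.exp 1 - ‖x - y‖) := by
            rw [← Real.exp_add]
            congr 1
            ring
        _ ≤ Real.exp (-(T / 2) + -(1 / 2 * ‖x - y‖)) := by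
            apply Real.exp_le_exp.2
            have h4 : 2 * d * |t| * Real.exp 1 ≤ 2 * d * T * 2.7182818286 := by gcongr
            have h5 : 2 * d * T * 2.7182818286 ≤ 6 * d * T - T / 2 := by
              have : 0 ≤ (d - 1) * T := mul_nonneg (by linarith) hT.le
              nlinarith
            linarith
        _ = _ := by rw [Real.exp_add]
    · rw [Set.indicator_of_notMem hx]
      positivity
  have hs : Summable fun x => A.indicator (fun x => ‖φ t x‖ ^ 2) x :=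
    (h.norm t).summable.indicator A
  refine (hs.tsum_le_tsum hb (w1.mul_left _)).trans ?_
  rw [tsum_mul_left]
  refine (mul_le_mul_of_nonneg_left w2 (Real.exp_pos _).le).trans (le_of_eq ?_)
  rw [one_div, inv_pow, div_inv_eq_mul]
  ring

/-- the phases relative to the starting point -/
noncomputable def cy (θ0 : ℝ) (i0 : Fin d) (k l : ℕ) (y x : Zd d) : ℂ :=
  Complex.exp (Complex.I * ((((k : ℝ) - l) * (θ0 * ((x i0 : ℝ) - y i0)) : ℝ) : ℂ))

theorem cy_norm (θ0 : ℝ) (i0 : Fin d) (k l : ℕ) (y x : Zd d) : ‖cy θ0 i0 k l y x‖ = 1 := by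
  unfold cy
  rw [mul_comm, Complex.norm_exp_ofReal_mul_I]

theorem cy_eq (θ0 : ℝ) (i0 : Fin d) (k l : ℕ) (y x : Zd d) :
    (starRingEnd ℂ) (ckl θ0 i0 k l x) * ckl θ0 i0 k l y = (starRingEnd ℂ) (cy θ0 i0 k l y x) := by
  rw [ckl_mul]
  unfold cy
  rw [← Complex.exp_conj]
  congr 1
  simp only [map_mul, Complex.conj_I, Complex.conj_ofReal]
  push_cast
  ring

/-- one starting point -/
theorem one_pt {y : Zd d} {φ : ℝ → Zd d → ℂ} (h : Sol d V y φ) (θ0 : ℝ) (i0 : Fin d) (k l : ℕ)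
    (Λ : Finset (Zd d)) (t : ℝ) :
    (∑ x ∈ Λ, (starRingEnd ℂ) (ckl θ0 i0 k l x) * ckl θ0 i0 k l y *
      ((‖φ t x‖ ^ 2 : ℝ) : ℂ)).re ≤ (Phi φ (cy θ0 i0 k l y) t).re +
      ∑' x, ((Λ : Set (Zd d))ᶜ).indicator (fun x => ‖φ t x‖ ^ 2) x := by
  have h1 : (∑ x ∈ Λ, (starRingEnd ℂ) (ckl θ0 i0 k l x) * ckl θ0 i0 k l y *
      ((‖φ t x‖ ^ 2 : ℝ) : ℂ)).re = (∑ x ∈ Λ, cy θ0 i0 k l y x * ((‖φ t x‖ ^ 2 : ℝ) : ℂ)).re := by
    rw [Complex.re_sum, Complex.re_sum]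
    refine Finset.sum_congr rfl fun x _ => ?_
    rw [cy_eq, Complex.re_mul_ofReal, Complex.re_mul_ofReal, Complex.conj_re]
  have hs : Summable fun x => cy θ0 i0 k l y x * ((‖φ t x‖ ^ 2 : ℝ) : ℂ) := by
    refine Summable.of_norm_bounded (g := fun x => ‖φ t x‖ ^ 2) (h.norm t).summable fun x => ?_
    rw [norm_mul, Complex.norm_real, Real.norm_of_nonneg (sq_nonneg _), cy_norm, one_mul]
  have h2 : Phi φ (cy θ0 i0 k l y) t = ∑ x ∈ Λ, cy θ0 i0 k l y x * ((‖φ t x‖ ^ 2 : ℝ) : ℂ) +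
      ∑' x : ((Λ : Set (Zd d))ᶜ : Set (Zd d)), cy θ0 i0 k l y x * ((‖φ t x‖ ^ 2 : ℝ) : ℂ) :=
    (hs.sum_add_tsum_compl (s := Λ)).symm
  have h3 : ‖∑' x : ((Λ : Set (Zd d))ᶜ : Set (Zd d)), cy θ0 i0 k l y x *
      ((‖φ t x‖ ^ 2 : ℝ) : ℂ)‖ ≤ ∑' x, ((Λ : Set (Zd d))ᶜ).indicator (fun x => ‖φ t x‖ ^ 2) x := by
    rw [← tsum_subtype ((Λ : Set (Zd d))ᶜ) fun x => ‖φ t x‖ ^ 2]
    refine tsum_of_norm_bounded ((h.norm t).summable.subtype _).hasSum fun x => ?_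
    rw [norm_mul, Complex.norm_real, Real.norm_of_nonneg (sq_nonneg _), cy_norm, one_mul]
    rfl
  have h4 := (abs_le.1 (Complex.abs_re_le_norm (∑' x : ((Λ : Set (Zd d))ᶜ : Set (Zd d)),
    cy θ0 i0 k l y x * ((‖φ t x‖ ^ 2 : ℝ) : ℂ)))).1
  rw [h1, h2, Complex.add_re]
  linarith

/-- the boundary of a box -/
theorem bdry (b : Zd d) (L m : ℕ) (hm : m ≤ L) :
    (((bx b L).filter fun y => ¬ ‖y - b‖ ≤ ((L - m : ℕ) : ℝ)).card : ℝ) ≤
      d * (2 * m / (2 * L + 1)) * (bx b L).card := by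
  have h1 := Finset.card_filter_add_card_filter_not (s := bx b L)
    (fun y => ‖y - b‖ ≤ ((L - m : ℕ) : ℝ))
  have h2 : ((bx b L).filter fun y => ‖y - b‖ ≤ ((L - m : ℕ) : ℝ)) = bx b (L - m) := by
    ext y
    rw [Finset.mem_filter, mem_bx', mem_bx']
    constructor
    · exact fun h => h.2
    · intro h
      refine ⟨h.trans ?_, h⟩
      exact_mod_cast Nat.sub_le L m
  rw [h2, card_bx, card_bx] at h1
  rw [card_bx]
  have hmR : (m : ℝ) ≤ L := by exact_mod_cast hm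
  have hm0 : (0 : ℝ) ≤ m := Nat.cast_nonneg m
  obtain ⟨z, hz⟩ : ∃ z : ℝ, z = 2 * m / (2 * L + 1) := ⟨_, rfl⟩
  have hL0 : (0 : ℝ) < 2 * L + 1 := by linarith
  have hz1 : z ≤ 1 := by
    rw [hz, div_le_one hL0]
    linarith
  have h3 := one_add_mul_le_pow (a := -z) (by linarith) d
  have h4 : ((2 * (L - m : ℕ) + 1 : ℕ) : ℝ) = (2 * L + 1) * (1 + -z) := by
    rw [hz]
    push_cast [Nat.cast_sub hm]
    field_simp
    ring
  have h5 : (((2 * (L - m) + 1) ^ d : ℕ) : ℝ) = (2 * (L : ℝ) + 1) ^ d * (1 + -z) ^ d := by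
    rw [← mul_pow, ← h4]
    push_cast
    rfl
  have h6 : (((2 * (L - m) + 1) ^ d : ℕ) : ℝ) + (((bx b L).filter fun y =>
      ¬ ‖y - b‖ ≤ ((L - m : ℕ) : ℝ)).card : ℝ) = (((2 * L + 1) ^ d : ℕ) : ℝ) := by
    exact_mod_cast h1
  have h7 : (((2 * L + 1) ^ d : ℕ) : ℝ) = (2 * (L : ℝ) + 1) ^ d := by push_cast; rfl
  rw [h5, h7] at h6
  rw [h7, ← hz]
  have h8 : 0 < (2 * (L : ℝ) + 1) ^ d := by positivity
  have h9 : (2 * (L : ℝ) + 1) ^ d * (1 + d * -z) ≤ (2 * (L : ℝ) + 1) ^ d * (1 + -z) ^ d :=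
    mul_le_mul_of_nonneg_left h3 h8.le
  have h10 : (2 * (L : ℝ) + 1) ^ d * (1 + d * -z) = (2 * (L : ℝ) + 1) ^ d -
      d * z * (2 * (L : ℝ) + 1) ^ d := by ring
  linarith

/-- **the correlations at the base scale** -/
theorem base (hd : 1 ≤ d) {ψ : Zd d → ℝ → Zd d → ℂ} (hψ : ∀ a, Sol d V a (ψ a)) (b : Zd d)
    (L m : ℕ) (hmL : m ≤ L) (θ0 : ℝ) (i0 : Fin d) (k l : ℕ) (T : ℝ) (hT : 0 < T)
    (hm : 12 * d * T ≤ m) (εd : ℝ)
    (hyp : ∀ y ∈ bx b L, ‖∫ u in (0 : ℝ)..1, ((2 * (1 - u) : ℝ) : ℂ) *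
      Phi (ψ y) (cy θ0 i0 k l y) (u * T)‖ ≤ εd) :
    ∫ u in (0 : ℝ)..1, 2 * (1 - u) * (Sc ψ (bx b L) (ckl θ0 i0 k l) (u * T)).re ≤
      (εd + (Cw d * 2 ^ (d + 1) * Real.exp (-(T / 2)) + d * (2 * m / (2 * L + 1)))) *
        (bx b L).card := by
  have hCw : 0 ≤ Cw d := by unfold Cw; positivity
  obtain ⟨εo, hεo⟩ : ∃ εo, εo = Cw d * 2 ^ (d + 1) * Real.exp (-(T / 2)) := ⟨_, rfl⟩
  have hεo0 : 0 ≤ εo := by rw [hεo]; positivity
  rw [← hεo]
  obtain ⟨o, ho⟩ : ∃ o : Zd d → ℝ, o = fun y => if ‖y - b‖ ≤ ((L - m : ℕ) : ℝ) then εo else 1 :=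
    ⟨_, rfl⟩
  obtain ⟨Λ, hΛ⟩ : ∃ Λ, Λ = bx b L := ⟨_, rfl⟩
  have hout : ∀ y, ∀ u : ℝ, 0 ≤ u → u ≤ 1 →
      ∑' x, ((Λ : Set (Zd d))ᶜ).indicator (fun x => ‖ψ y (u * T) x‖ ^ 2) x ≤ o y := by
    intro y u hu0 hu1
    rw [ho]
    simp only
    split_ifs with h
    · rw [hεo]
      refine out_small hd (hψ y) T hT m hm (u * T) ?_ _ fun x hx => ?_
      · rw [abs_of_nonneg (by positivity)]
        exact mul_le_of_le_one_left hT.le hu1
      · rw [Set.mem_compl_iff, Finset.mem_coe, hΛ, mem_bx', not_le] at hx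
        have h1 := norm_sub_le_norm_sub_add_norm_sub x y b
        have h2 : ((L - m : ℕ) : ℝ) = L - m := by push_cast [Nat.cast_sub hmL]; rfl
        rw [h2] at h
        linarith
    · have h1 := ((hψ y).norm (u * T)).summable.indicator ((Λ : Set (Zd d))ᶜ)
      refine (h1.tsum_le_tsum (fun x => Set.indicator_le_self' (fun _ _ => sq_nonneg _) x)
        ((hψ y).norm (u * T)).summable).trans (le_of_eq ?_)
      exact ((hψ y).norm (u * T)).tsum_eq
  have hpt : ∀ u : ℝ, 0 ≤ u → u ≤ 1 → (Sc ψ Λ (ckl θ0 i0 k l) (u * T)).re ≤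
      ∑ y ∈ Λ, ((Phi (ψ y) (cy θ0 i0 k l y) (u * T)).re + o y) := by
    intro u hu0 hu1
    unfold Sc
    rw [Finset.sum_comm, Complex.re_sum]
    refine Finset.sum_le_sum fun y _ => ?_
    have h1 := one_pt (hψ y) θ0 i0 k l Λ (u * T)
    have h2 := hout y u hu0 hu1
    linarith
  have mPhi : ∀ y, Measurable fun u : ℝ => Phi (ψ y) (cy θ0 i0 k l y) (u * T) := fun y =>
    (phi_meas (hψ y) _).comp (by fun_prop)
  have iPhi : ∀ y, IntervalIntegrable (fun u : ℝ => ((2 * (1 - u) : ℝ) : ℂ) *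
      Phi (ψ y) (cy θ0 i0 k l y) (u * T)) volume 0 1 := fun y => by
    rw [intervalIntegrable_iff_integrableOn_Ioc_of_le zero_le_one]
    refine Integrable.mono' (g := fun _ => (2 : ℝ)) (integrableOn_const (by simp))
      ((by fun_prop : Measurable fun u : ℝ => ((2 * (1 - u) : ℝ) : ℂ)).mul
        (mPhi y)).aestronglyMeasurable ?_
    filter_upwards [ae_restrict_mem measurableSet_Ioc] with u hu
    rw [norm_mul, Complex.norm_real]
    have h1 := phi_le (hψ y) (cy θ0 i0 k l y) (fun x => (cy_norm θ0 i0 k l y x).le) (u * T)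
    have h2 : ‖2 * (1 - u)‖ ≤ 2 := by
      rw [Real.norm_of_nonneg (by linarith [hu.2])]
      linarith [hu.1]
    calc ‖2 * (1 - u)‖ * ‖Phi (ψ y) (cy θ0 i0 k l y) (u * T)‖ ≤ 2 * 1 := by gcongr
      _ = 2 := by norm_num
  have ire : ∀ y, IntervalIntegrable (fun u : ℝ => 2 * (1 - u) *
      (Phi (ψ y) (cy θ0 i0 k l y) (u * T)).re) volume 0 1 := fun y => by
    have h1 := iPhi y
    rw [intervalIntegrable_iff_integrableOn_Ioc_of_le zero_le_one] at h1 ⊢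
    refine h1.re.congr (Filter.Eventually.of_forall fun u => ?_)
    simp only [RCLike.re_to_complex, Complex.re_ofReal_mul]
  have hone : ∀ y ∈ Λ, ∫ u in (0 : ℝ)..1, 2 * (1 - u) * (Phi (ψ y) (cy θ0 i0 k l y) (u * T)).re ≤
      εd := by
    intro y hy
    have h1 := hyp y (hΛ ▸ hy)
    have h2 : ∫ u in (0 : ℝ)..1, 2 * (1 - u) * (Phi (ψ y) (cy θ0 i0 k l y) (u * T)).re =
        (∫ u in (0 : ℝ)..1, ((2 * (1 - u) : ℝ) : ℂ) *
          Phi (ψ y) (cy θ0 i0 k l y) (u * T)).re := by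
      have h3 := iPhi y
      rw [intervalIntegrable_iff_integrableOn_Ioc_of_le zero_le_one] at h3
      rw [intervalIntegral.integral_of_le zero_le_one, intervalIntegral.integral_of_le zero_le_one]
      have h4 := integral_re h3
      simp only [RCLike.re_to_complex, Complex.re_ofReal_mul] at h4
      exact h4
    rw [h2]
    exact (Complex.re_le_norm _).trans h1
  have hcS : Continuous fun u : ℝ => 2 * (1 - u) * (Sc ψ Λ (ckl θ0 i0 k l) (u * T)).re := by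
    have := Complex.continuous_re.comp ((Sc_cont hψ Λ (ckl θ0 i0 k l)).comp
      (by fun_prop : Continuous fun u : ℝ => u * T))
    have h1 : Continuous fun u : ℝ => (Sc ψ Λ (ckl θ0 i0 k l) (u * T)).re := this
    fun_prop
  have io : ∀ y, IntervalIntegrable (fun u : ℝ => 2 * (1 - u) * o y) volume 0 1 := fun y =>
    (by fun_prop : Continuous fun u : ℝ => 2 * (1 - u) * o y).intervalIntegrable _ _
  rw [← hΛ]
  have h1 : ∫ u in (0 : ℝ)..1, 2 * (1 - u) * (Sc ψ Λ (ckl θ0 i0 k l) (u * T)).re ≤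
      ∫ u in (0 : ℝ)..1, ∑ y ∈ Λ, (2 * (1 - u) * (Phi (ψ y) (cy θ0 i0 k l y) (u * T)).re +
        2 * (1 - u) * o y) := by
    refine intervalIntegral.integral_mono_on zero_le_one (hcS.intervalIntegrable _ _) ?_
      fun u hu => ?_
    · have h2 := IntervalIntegrable.sum (μ := volume) (a := 0) (b := 1) Λ
        (f := fun y u => 2 * (1 - u) * (Phi (ψ y) (cy θ0 i0 k l y) (u * T)).re +
          2 * (1 - u) * o y) fun y _ => (ire y).add (io y)
      have e1 : (fun u : ℝ => ∑ y ∈ Λ, (2 * (1 - u) * (Phi (ψ y) (cy θ0 i0 k l y) (u * T)).re +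
          2 * (1 - u) * o y)) = ∑ y ∈ Λ, fun u : ℝ =>
          (2 * (1 - u) * (Phi (ψ y) (cy θ0 i0 k l y) (u * T)).re + 2 * (1 - u) * o y) := by
        funext u
        rw [Finset.sum_apply]
      rw [e1]
      exact h2
    · have h2 := mul_le_mul_of_nonneg_left (hpt u hu.1 hu.2)
        (by linarith [hu.2] : 0 ≤ 2 * (1 - u))
      refine h2.trans (le_of_eq ?_)
      rw [Finset.mul_sum]
      exact Finset.sum_congr rfl fun y _ => by ring
  refine h1.trans ?_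
  rw [intervalIntegral.integral_finsetSum fun y _ => (ire y).add (io y)]
  have h2 : ∀ y ∈ Λ, ∫ u in (0 : ℝ)..1, (2 * (1 - u) *
      (Phi (ψ y) (cy θ0 i0 k l y) (u * T)).re + 2 * (1 - u) * o y) ≤ εd + o y := by
    intro y hy
    rw [intervalIntegral.integral_add (ire y) (io y), w_const]
    linarith [hone y hy]
  refine (Finset.sum_le_sum h2).trans ?_
  rw [Finset.sum_add_distrib, Finset.sum_const, nsmul_eq_mul]
  have h3 : ∑ y ∈ Λ, o y ≤ εo * Λ.card + d * (2 * m / (2 * L + 1)) * Λ.card := by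
    have h4 : ∀ y ∈ Λ, o y ≤ εo + (if ¬ ‖y - b‖ ≤ ((L - m : ℕ) : ℝ) then 1 else 0) := by
      intro y _
      rw [ho]
      simp only
      split_ifs <;> linarith
    refine (Finset.sum_le_sum h4).trans ?_
    rw [Finset.sum_add_distrib, Finset.sum_const, nsmul_eq_mul, ← Finset.sum_filter,
      Finset.sum_const, nsmul_eq_mul, mul_one, mul_comm εo, hΛ]
    have := bdry b L m hmL
    linarith
  have h4 : (εd + (εo + d * (2 * m / (2 * L + 1)))) * (Λ.card : ℝ) =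
      Λ.card * εd + (εo * Λ.card + d * (2 * m / (2 * L + 1)) * Λ.card) := by ring
  rw [h4]
  linarith

end Pool.Agent.Q218.AT
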