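import Pool.Agent.Q218.AT.Hil

/-! From the correlations of plane waves to the mass near the diagonal, at all later times, and for
the eigenfunctions. -/

set_option autoImplicit false
set_option linter.unusedSectionVars false

open scoped BigOperators Topology InnerProductSpace
open MeasureTheory Filter Set

namespace Pool.Agent.Q218.AT

open Pool.Agent.W788.LD.Spec (S)
open Pool.Agent.H4R2.LO (Zd)
open Pool.Agent.TH794.QD (Sol HS hmk hmk_apply hs_sum)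
open Pool.Agent.Q218.UD
open Pool.Agent.Q218.AD (fejer_low fejer_sq)

variable {d : ℕ}

/-- plane waves -/
noncomputable def ckl (θ0 : ℝ) (i0 : Fin d) (k l : ℕ) (x : Zd d) : ℂ :=
  Complex.exp (Complex.I * ((((k : ℝ) - l) * (θ0 * (x i0 : ℝ)) : ℝ) : ℂ))

theorem ckl_norm (θ0 : ℝ) (i0 : Fin d) (k l : ℕ) (x : Zd d) : ‖ckl θ0 i0 k l x‖ = 1 := by
  unfold ckl
  rw [mul_comm, Complex.norm_exp_ofReal_mul_I]

theorem ckl_mul (θ0 : ℝ) (i0 : Fin d) (k l : ℕ) (x y : Zd d) :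
    (starRingEnd ℂ) (ckl θ0 i0 k l x) * ckl θ0 i0 k l y =
      Complex.exp (Complex.I * ((((k : ℝ) - l) * (θ0 * ((y i0 : ℝ) - x i0)) : ℝ) : ℂ)) := by
  unfold ckl
  rw [← Complex.exp_conj, ← Complex.exp_add]
  congr 1
  simp only [map_mul, Complex.conj_I, Complex.conj_ofReal]
  push_cast
  ring

/-- the sum over the frequencies -/
theorem fej_sum (θ0 : ℝ) (hθ0 : 0 ≤ θ0) (i0 : Fin d) (N : ℕ) (R : ℝ) (hR : θ0 * R * N ≤ 1)
    (Λ : Finset (Zd d)) (w : Zd d → Zd d → ℝ) (hw : ∀ x y, 0 ≤ w x y) :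
    (N : ℝ) ^ 2 / 4 * ∑ x ∈ Λ, ∑ y ∈ Λ, (if ‖x - y‖ ≤ R then w x y else 0) ≤
      ∑ k ∈ Finset.range N, ∑ l ∈ Finset.range N, (∑ x ∈ Λ, ∑ y ∈ Λ,
        (starRingEnd ℂ) (ckl θ0 i0 k l x) * ckl θ0 i0 k l y * ((w x y : ℝ) : ℂ)).re := by
  have h1 : ∑ k ∈ Finset.range N, ∑ l ∈ Finset.range N, (∑ x ∈ Λ, ∑ y ∈ Λ,
        (starRingEnd ℂ) (ckl θ0 i0 k l x) * ckl θ0 i0 k l y * ((w x y : ℝ) : ℂ)).re =
      ∑ x ∈ Λ, ∑ y ∈ Λ, ‖∑ k ∈ Finset.range N, Complex.exp (Complex.I *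
        ((k * (θ0 * ((y i0 : ℝ) - x i0)) : ℝ) : ℂ))‖ ^ 2 * w x y := by
    have h2 : ∀ k l, (∑ x ∈ Λ, ∑ y ∈ Λ,
        (starRingEnd ℂ) (ckl θ0 i0 k l x) * ckl θ0 i0 k l y * ((w x y : ℝ) : ℂ)).re =
        ∑ x ∈ Λ, ∑ y ∈ Λ, (Complex.exp (Complex.I *
          ((((k : ℝ) - l) * (θ0 * ((y i0 : ℝ) - x i0)) : ℝ) : ℂ))).re * w x y := by
      intro k l
      rw [Complex.re_sum]
      refine Finset.sum_congr rfl fun x _ => ?_
      rw [Complex.re_sum]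
      refine Finset.sum_congr rfl fun y _ => ?_
      rw [ckl_mul, Complex.re_mul_ofReal]
    simp only [h2]
    have h3 : ∀ x y : Zd d, ‖∑ k ∈ Finset.range N, Complex.exp (Complex.I *
        ((k * (θ0 * ((y i0 : ℝ) - x i0)) : ℝ) : ℂ))‖ ^ 2 =
        ∑ k ∈ Finset.range N, ∑ l ∈ Finset.range N, (Complex.exp (Complex.I *
          ((((k : ℝ) - l) * (θ0 * ((y i0 : ℝ) - x i0)) : ℝ) : ℂ))).re := by
      intro x y
      have h4 := congrArg Complex.re (fejer_sq N (θ0 * ((y i0 : ℝ) - x i0)))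
      rw [Complex.ofReal_re, Complex.re_sum] at h4
      rw [h4]
      exact Finset.sum_congr rfl fun k _ => Complex.re_sum _ _
    simp only [h3]
    have e1 : ∀ k ∈ Finset.range N, ∑ l ∈ Finset.range N, ∑ x ∈ Λ, ∑ y ∈ Λ,
        (Complex.exp (Complex.I * ((((k : ℝ) - l) * (θ0 * ((y i0 : ℝ) - x i0)) : ℝ) : ℂ))).re *
          w x y = ∑ x ∈ Λ, ∑ y ∈ Λ, ∑ l ∈ Finset.range N,
        (Complex.exp (Complex.I * ((((k : ℝ) - l) * (θ0 * ((y i0 : ℝ) - x i0)) : ℝ) : ℂ))).re *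
          w x y := by
      intro k _
      rw [Finset.sum_comm]
      exact Finset.sum_congr rfl fun x _ => Finset.sum_comm
    rw [Finset.sum_congr rfl e1, Finset.sum_comm]
    refine Finset.sum_congr rfl fun x _ => ?_
    rw [Finset.sum_comm]
    refine Finset.sum_congr rfl fun y _ => ?_
    rw [Finset.sum_mul]
    exact Finset.sum_congr rfl fun k _ => by rw [Finset.sum_mul]
  rw [h1, Finset.mul_sum]
  refine Finset.sum_le_sum fun x _ => ?_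
  rw [Finset.mul_sum]
  refine Finset.sum_le_sum fun y _ => ?_
  split_ifs with h
  · refine mul_le_mul_of_nonneg_right (fejer_low N _ ?_) (hw x y)
    refine le_trans ?_ hR
    refine mul_le_mul_of_nonneg_right ?_ (Nat.cast_nonneg _)
    rw [abs_mul, abs_of_nonneg hθ0]
    refine mul_le_mul_of_nonneg_left ?_ hθ0
    have h2 := norm_le_pi_norm (x - y) i0
    rw [Pi.sub_apply, Int.norm_eq_abs] at h2
    push_cast at h2
    rw [abs_sub_comm]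
    linarith
  · rw [mul_zero]
    have := hw x y
    positivity

variable {V : Zd d → ℝ} {ψ : Zd d → ℝ → Zd d → ℂ}

/-- the mass near the diagonal -/
noncomputable def nr (ψ : Zd d → ℝ → Zd d → ℂ) (Λ : Finset (Zd d)) (R t : ℝ) : ℝ :=
  ∑ x ∈ Λ, ∑ y ∈ Λ, if ‖x - y‖ ≤ R then ‖ψ y t x‖ ^ 2 else 0

theorem Sc_cont (hψ : ∀ a, Sol d V a (ψ a)) (Λ : Finset (Zd d)) (c : Zd d → ℂ) :
    Continuous (Sc ψ Λ c) := by
  unfold Sc
  have h1 : ∀ y x, Continuous fun t => ψ y t x := fun y x => (hψ y).cont x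
  refine continuous_finsetSum _ fun x _ => continuous_finsetSum _ fun y _ => ?_
  have := h1 y x
  fun_prop

theorem nr_cont (hψ : ∀ a, Sol d V a (ψ a)) (Λ : Finset (Zd d)) (R : ℝ) :
    Continuous (nr ψ Λ R) := by
  unfold nr
  have h1 : ∀ y x, Continuous fun t => ψ y t x := fun y x => (hψ y).cont x
  refine continuous_finsetSum _ fun x _ => continuous_finsetSum _ fun y _ => ?_
  split_ifs
  · have := h1 y x
    fun_prop
  · exact continuous_const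

/-- the diagonal frequencies -/
theorem Sc_diag (hψ : ∀ a, Sol d V a (ψ a)) (Λ : Finset (Zd d)) (θ0 : ℝ) (i0 : Fin d) (k : ℕ)
    (t : ℝ) : (Sc ψ Λ (ckl θ0 i0 k k) t).re ≤ Λ.card := by
  unfold Sc
  have h1 : ∑ x ∈ Λ, ∑ y ∈ Λ, (starRingEnd ℂ) (ckl θ0 i0 k k x) * ckl θ0 i0 k k y *
      ((‖ψ y t x‖ ^ 2 : ℝ) : ℂ) = ((∑ y ∈ Λ, ∑ x ∈ Λ, ‖ψ y t x‖ ^ 2 : ℝ) : ℂ) := by
    rw [Finset.sum_comm]
    push_cast
    refine Finset.sum_congr rfl fun y _ => Finset.sum_congr rfl fun x _ => ?_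
    rw [ckl_mul]
    simp
  rw [h1, Complex.ofReal_re]
  have h2 : ∀ y ∈ Λ, ∑ x ∈ Λ, ‖ψ y t x‖ ^ 2 ≤ (1 : ℝ) := by
    intro y _
    refine (((hψ y).norm t).summable.sum_le_tsum Λ fun x _ => sq_nonneg _).trans (le_of_eq ?_)
    exact ((hψ y).norm t).tsum_eq
  refine (Finset.sum_le_sum h2).trans (le_of_eq ?_)
  rw [Finset.sum_const, nsmul_eq_mul, mul_one]

theorem w_int {f g : ℝ → ℝ} (hf : Continuous f) (hg : Continuous g) (h : ∀ u, f u ≤ g u) :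
    ∫ u in (0 : ℝ)..1, 2 * (1 - u) * f u ≤ ∫ u in (0 : ℝ)..1, 2 * (1 - u) * g u := by
  refine intervalIntegral.integral_mono_on zero_le_one
    ((by fun_prop : Continuous fun u => 2 * (1 - u) * f u).intervalIntegrable _ _)
    ((by fun_prop : Continuous fun u => 2 * (1 - u) * g u).intervalIntegrable _ _) fun u hu => ?_
  refine mul_le_mul_of_nonneg_left (h u) ?_
  have := hu.2
  linarith

theorem w_const (C : ℝ) : ∫ u in (0 : ℝ)..1, 2 * (1 - u) * C = C := by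
  have h1 : ∫ x in (0 : ℝ)..1, (1 - x) = 1 / 2 := by
    rw [intervalIntegral.integral_sub (continuous_const.intervalIntegrable _ _)
      (continuous_id'.intervalIntegrable _ _)]
    simp
    norm_num
  rw [intervalIntegral.integral_mul_const, intervalIntegral.integral_const_mul, h1]
  ring

/-- the sum of the correlations at the base scale -/
theorem base_sum (hψ : ∀ a, Sol d V a (ψ a)) (Λ : Finset (Zd d)) (θ0 : ℝ) (i0 : Fin d) (N : ℕ)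
    (T ε1 : ℝ) (hε1 : 0 ≤ ε1)
    (hyp : ∀ k ∈ Finset.range N, ∀ l ∈ Finset.range N, k ≠ l →
      ∫ u in (0 : ℝ)..1, 2 * (1 - u) * (Sc ψ Λ (ckl θ0 i0 k l) (u * T)).re ≤ ε1 * Λ.card) :
    ∑ k ∈ Finset.range N, ∑ l ∈ Finset.range N,
      ∫ u in (0 : ℝ)..1, 2 * (1 - u) * (Sc ψ Λ (ckl θ0 i0 k l) (u * T)).re ≤
      (N + (N : ℝ) ^ 2 * ε1) * Λ.card := by
  have hc : (0 : ℝ) ≤ Λ.card := Nat.cast_nonneg _
  have h1 : ∀ k ∈ Finset.range N, ∑ l ∈ Finset.range N,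
      ∫ u in (0 : ℝ)..1, 2 * (1 - u) * (Sc ψ Λ (ckl θ0 i0 k l) (u * T)).re ≤
      (1 + N * ε1) * Λ.card := by
    intro k hk
    have h2 : ∀ l ∈ Finset.range N,
        ∫ u in (0 : ℝ)..1, 2 * (1 - u) * (Sc ψ Λ (ckl θ0 i0 k l) (u * T)).re ≤
        (if l = k then (Λ.card : ℝ) else 0) + ε1 * Λ.card := by
      intro l hl
      by_cases hlk : l = k
      · rw [if_pos hlk, hlk]
        have h3 := w_int (f := fun u => (Sc ψ Λ (ckl θ0 i0 k k) (u * T)).re)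
          (g := fun _ => (Λ.card : ℝ))
          (Complex.continuous_re.comp ((Sc_cont hψ Λ _).comp (by fun_prop))) continuous_const
          fun u => Sc_diag hψ Λ θ0 i0 k (u * T)
        rw [w_const] at h3
        have : 0 ≤ ε1 * (Λ.card : ℝ) := by positivity
        linarith
      · rw [if_neg hlk, zero_add]
        exact hyp k hk l hl fun e => hlk e.symm
    refine (Finset.sum_le_sum h2).trans (le_of_eq ?_)
    rw [Finset.sum_add_distrib, Finset.sum_ite_eq' (Finset.range N) k fun _ => (Λ.card : ℝ),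
      if_pos hk, Finset.sum_const, Finset.card_range, nsmul_eq_mul]
    ring
  refine (Finset.sum_le_sum h1).trans (le_of_eq ?_)
  rw [Finset.sum_const, Finset.card_range, nsmul_eq_mul]
  ring

/-- **the mass near the diagonal at all later times** -/
theorem late (hd : 1 ≤ d) (hψ : ∀ a, Sol d V a (ψ a)) (Λ : Finset (Zd d)) (θ0 : ℝ)
    (hθ0 : 0 ≤ θ0) (i0 : Fin d) (N : ℕ) (hN : 1 ≤ N) (R T ε1 : ℝ) (hR : θ0 * R * N ≤ 1)
    (hε1 : 0 ≤ ε1)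
    (hyp : ∀ k ∈ Finset.range N, ∀ l ∈ Finset.range N, k ≠ l →
      ∫ u in (0 : ℝ)..1, 2 * (1 - u) * (Sc ψ Λ (ckl θ0 i0 k l) (u * T)).re ≤ ε1 * Λ.card)
    (n : ℕ) (hn : 1 ≤ n) :
    ∫ u in (0 : ℝ)..1, 2 * (1 - u) * nr ψ Λ R (u * (n * T)) ≤ (4 / N + 4 * ε1) * Λ.card := by
  have hN0 : (0 : ℝ) < N := by exact_mod_cast hN
  have hc1 : ∀ k l, Continuous fun u : ℝ => (Sc ψ Λ (ckl θ0 i0 k l) (u * (n * T))).re := fun k l =>
    Complex.continuous_re.comp ((Sc_cont hψ Λ _).comp (by fun_prop))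
  have h1 : ∫ u in (0 : ℝ)..1, 2 * (1 - u) * ((N : ℝ) ^ 2 / 4 * nr ψ Λ R (u * (n * T))) ≤
      ∫ u in (0 : ℝ)..1, 2 * (1 - u) * ∑ k ∈ Finset.range N, ∑ l ∈ Finset.range N,
        (Sc ψ Λ (ckl θ0 i0 k l) (u * (n * T))).re := by
    refine w_int ?_ ?_ fun u => ?_
    · have := (nr_cont hψ Λ R).comp (by fun_prop : Continuous fun u : ℝ => u * (n * T))
      exact continuous_const.mul this
    · exact continuous_finsetSum _ fun k _ => continuous_finsetSum _ fun l _ => hc1 k l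
    · exact fej_sum θ0 hθ0 i0 N R hR Λ (fun x y => ‖ψ y (u * (n * T)) x‖ ^ 2)
        fun x y => sq_nonneg _
  have h2 : ∫ u in (0 : ℝ)..1, 2 * (1 - u) * ∑ k ∈ Finset.range N, ∑ l ∈ Finset.range N,
        (Sc ψ Λ (ckl θ0 i0 k l) (u * (n * T))).re = ∑ k ∈ Finset.range N, ∑ l ∈ Finset.range N,
      ∫ u in (0 : ℝ)..1, 2 * (1 - u) * (Sc ψ Λ (ckl θ0 i0 k l) (u * (n * T))).re := by
    have hc2 : ∀ k l, Continuous fun u : ℝ =>
        2 * (1 - u) * (Sc ψ Λ (ckl θ0 i0 k l) (u * (n * T))).re := fun k l => by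
      have := hc1 k l
      fun_prop
    simp only [Finset.mul_sum]
    rw [intervalIntegral.integral_finsetSum fun k _ =>
      (continuous_finsetSum _ fun l _ => hc2 k l).intervalIntegrable _ _]
    exact Finset.sum_congr rfl fun k _ => intervalIntegral.integral_finsetSum fun l _ =>
      (hc2 k l).intervalIntegrable _ _
  have h3 : ∑ k ∈ Finset.range N, ∑ l ∈ Finset.range N,
      ∫ u in (0 : ℝ)..1, 2 * (1 - u) * (Sc ψ Λ (ckl θ0 i0 k l) (u * (n * T))).re ≤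
      (N + (N : ℝ) ^ 2 * ε1) * Λ.card := by
    refine le_trans ?_ (base_sum hψ Λ θ0 i0 N T ε1 hε1 hyp)
    exact Finset.sum_le_sum fun k _ => Finset.sum_le_sum fun l _ =>
      Ob_mono hd hψ Λ (ckl θ0 i0 k l) T n hn
  have h4 : ∫ u in (0 : ℝ)..1, 2 * (1 - u) * ((N : ℝ) ^ 2 / 4 * nr ψ Λ R (u * (n * T))) =
      (N : ℝ) ^ 2 / 4 * ∫ u in (0 : ℝ)..1, 2 * (1 - u) * nr ψ Λ R (u * (n * T)) := by
    rw [← intervalIntegral.integral_const_mul]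
    congr 1
    funext u
    ring
  rw [h4] at h1
  rw [h2] at h1
  have h5 := h1.trans h3
  have h6 : 0 < (N : ℝ) ^ 2 / 4 := by positivity
  have h7 : (N + (N : ℝ) ^ 2 * ε1) * Λ.card = (N : ℝ) ^ 2 / 4 * ((4 / N + 4 * ε1) * Λ.card) := by
    field_simp
  rw [h7] at h5
  exact le_of_mul_le_mul_left h5 h6

/-- **the eigenfunctions** -/
theorem eigf (hd : 1 ≤ d) (hψ : ∀ a, Sol d V a (ψ a)) (Λ : Finset (Zd d)) (θ0 : ℝ)
    (hθ0 : 0 ≤ θ0) (i0 : Fin d) (N : ℕ) (hN : 1 ≤ N) (R T ε1 : ℝ) (hR : θ0 * R * N ≤ 1)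
    (hε1 : 0 ≤ ε1)
    (hyp : ∀ k ∈ Finset.range N, ∀ l ∈ Finset.range N, k ≠ l →
      ∫ u in (0 : ℝ)..1, 2 * (1 - u) * (Sc ψ Λ (ckl θ0 i0 k l) (u * T)).re ≤ ε1 * Λ.card)
    {ι : Type*} (f : ι → HS d) (hf : Orthonormal ℂ f) (E : ι → ℝ)
    (he : ∀ j x, -S (fun y => f j y) x + (V x : ℂ) * f j x = (E j : ℂ) * f j x)
    (F : Finset ι) :
    ∑ j ∈ F, ∑ x ∈ Λ, ∑ y ∈ Λ, (if ‖x - y‖ ≤ R then ‖f j x‖ ^ 2 * ‖f j y‖ ^ 2 else 0) ≤
      (4 / N + 4 * ε1) * Λ.card := by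
  have hN0 : (0 : ℝ) < N := by exact_mod_cast hN
  have h1 : (N : ℝ) ^ 2 / 4 * ∑ j ∈ F, ∑ x ∈ Λ, ∑ y ∈ Λ,
      (if ‖x - y‖ ≤ R then ‖f j x‖ ^ 2 * ‖f j y‖ ^ 2 else 0) ≤
      ∑ j ∈ F, ∑ k ∈ Finset.range N, ∑ l ∈ Finset.range N,
        ‖∑ x ∈ Λ, ckl θ0 i0 k l x * ((‖f j x‖ ^ 2 : ℝ) : ℂ)‖ ^ 2 := by
    rw [Finset.mul_sum]
    refine Finset.sum_le_sum fun j _ => ?_
    refine (fej_sum θ0 hθ0 i0 N R hR Λ (fun x y => ‖f j x‖ ^ 2 * ‖f j y‖ ^ 2)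
        fun x y => by positivity).trans (le_of_eq ?_)
    refine Finset.sum_congr rfl fun k _ => Finset.sum_congr rfl fun l _ => ?_
    have h2 : ∑ x ∈ Λ, ∑ y ∈ Λ, (starRingEnd ℂ) (ckl θ0 i0 k l x) * ckl θ0 i0 k l y *
        ((‖f j x‖ ^ 2 * ‖f j y‖ ^ 2 : ℝ) : ℂ) =
        ((‖∑ x ∈ Λ, ckl θ0 i0 k l x * ((‖f j x‖ ^ 2 : ℝ) : ℂ)‖ ^ 2 : ℝ) : ℂ) := by
      rw [← Complex.normSq_eq_norm_sq, Complex.normSq_eq_conj_mul_self, map_sum,
        Finset.sum_mul_sum]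
      refine Finset.sum_congr rfl fun x _ => Finset.sum_congr rfl fun y _ => ?_
      rw [map_mul, Complex.conj_ofReal]
      push_cast
      ring
    rw [h2, Complex.ofReal_re]
  have h2 : ∑ j ∈ F, ∑ k ∈ Finset.range N, ∑ l ∈ Finset.range N,
        ‖∑ x ∈ Λ, ckl θ0 i0 k l x * ((‖f j x‖ ^ 2 : ℝ) : ℂ)‖ ^ 2 ≤
      ∑ k ∈ Finset.range N, ∑ l ∈ Finset.range N,
        ∫ u in (0 : ℝ)..1, 2 * (1 - u) * (Sc ψ Λ (ckl θ0 i0 k l) (u * T)).re := by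
    rw [Finset.sum_comm]
    refine Finset.sum_le_sum fun k _ => ?_
    rw [Finset.sum_comm]
    refine Finset.sum_le_sum fun l _ => ?_
    exact Ob_eig hd hψ Λ (ckl θ0 i0 k l) f hf E he T F
  have h5 := (h1.trans h2).trans (base_sum hψ Λ θ0 i0 N T ε1 hε1 hyp)
  have h6 : 0 < (N : ℝ) ^ 2 / 4 := by positivity
  have h7 : (N + (N : ℝ) ^ 2 * ε1) * Λ.card = (N : ℝ) ^ 2 / 4 * ((4 / N + 4 * ε1) * Λ.card) := by
    field_simp
  rw [h7] at h5
  exact le_of_mul_le_mul_left h5 h6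

end Pool.Agent.Q218.AT
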