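import Pool.Agent.Q218.AT.Main

/-! All later times, and the eigenfunctions: the conclusion from the diffusion. -/

set_option autoImplicit false
set_option linter.unusedSectionVars false

open scoped BigOperators Topology InnerProductSpace
open MeasureTheory Filter Set

namespace Pool.Agent.Q218.AT

open Pool.Agent.W788.LD.Spec (S)
open Pool.Agent.H4R2.LO (Zd dd bx)
open Pool.Agent.H4R2.LO.Em (dd_norm mem_bx card_bx dd_comm)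
open Pool.Agent.TH794.QD (Sol HS hmk hmk_apply hs_sum)
open Pool.Agent.Q218.UD
open Pool.Agent.Q218.AD (Phi phi_meas phi_le W_tsum Cw small_rpow)
open Pool.Agent.Q218.AD2 (Psi psi_int psi_bd psi_meas)

variable {d : ℕ}

/-- the diffusion at all the starting points of a box -/
def Dfs (G0 G1 : ℝ → ℝ) (K ε' lam V : ℝ) (ψ : Zd d → ℝ → Zd d → ℂ) (Λ : Finset (Zd d)) : Prop :=
  ∀ y ∈ Λ, ∀ T : ℝ, lam ^ (-(2013 / 1000) : ℝ) ≤ T → T ≤ lam ^ (-(2024 / 1000) : ℝ) →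
    ∀ q : Fin d → ℝ, ∑ i, q i ^ 2 ≤ K →
      ‖(∫ s in Set.Ioi (0 : ℝ), ((hw s : ℝ) : ℂ) *
          ∑' x : Zd d, Complex.exp (Complex.I *
            ((Real.sqrt (lam ^ 2 * V / T) * ∑ i, q i * ((x i : ℝ) - y i) : ℝ) : ℂ)) *
            ((‖ψ y (s * T) x‖ ^ 2 : ℝ) : ℂ)) -
        ((∫ s in Set.Ioi (0 : ℝ), hw s * Psi G0 G1 (∑ i, q i ^ 2) s : ℝ) : ℂ)‖ ≤ ε'

/-- **the correlations of the plane waves at the base times** -/
theorem corr (hd : 1 ≤ d) (i0 : Fin d) (G0 G1 : ℝ → ℝ) (hF : FreeD d G0 G1) (ε Vm : ℝ)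
    (hε : 0 < ε) (hVm : 0 < Vm) : ∃ N : ℕ, 1 ≤ N ∧ 4 / (N : ℝ) ≤ ε / 8 ∧
    ∃ K ε' l0 : ℝ, 0 ≤ K ∧ 0 < ε' ∧ 0 < l0 ∧ ∀ lam : ℝ, 0 < lam → lam ≤ l0 →
    ∀ V : ℝ, 0 < V → V ≤ Vm ^ 2 → ∀ (W : Zd d → ℝ) (ψ : Zd d → ℝ → Zd d → ℂ),
    (∀ a, Sol d W a (ψ a)) → ∀ (b : Zd d) (L : ℕ), lam ^ (-3 : ℝ) ≤ L →
    Dfs G0 G1 K ε' lam V ψ (bx b L) →
    ∀ T : ℝ, lam ^ (-(2024 / 1000) : ℝ) / 2 ≤ T → T ≤ lam ^ (-(2024 / 1000) : ℝ) →
      ∃ θ0 : ℝ, 0 ≤ θ0 ∧ θ0 * (2 * lam ^ (-(2011 / 1000) : ℝ)) * N ≤ 1 ∧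
        ∃ m : ℕ, m ≤ L ∧ 12 * d * T ≤ m ∧
        Cw d * 2 ^ (d + 1) * Real.exp (-(T / 2)) + d * (2 * m / (2 * L + 1)) ≤ ε / 32 ∧
        ∀ k ∈ Finset.range N, ∀ l ∈ Finset.range N, k ≠ l →
          ∫ u in (0 : ℝ)..1, 2 * (1 - u) * (Sc ψ (bx b L) (ckl θ0 i0 k l) (u * T)).re ≤
            ε / 16 * (bx b L).card := by
  obtain ⟨N, hN⟩ := exists_nat_gt (32 / ε)
  have hN0 : (0 : ℝ) < N := lt_trans (by positivity) hN
  have hN1 : 1 ≤ N := by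
    have : (0 : ℕ) < N := by exact_mod_cast hN0
    omega
  have hN4 : 4 / (N : ℝ) ≤ ε / 8 := by
    rw [div_le_div_iff₀ hN0 (by norm_num)]
    rw [div_lt_iff₀ hε] at hN
    linarith
  obtain ⟨q1, hq1, hlaw⟩ := law_avg hF (ε / 64) (by positivity)
  obtain ⟨l0, hl0, hs⟩ := at_num d hd Vm q1 (2 * N) (ε / 32) hVm hq1 (by positivity)
    (by positivity)
  refine ⟨N, hN1, hN4, (N * q1) ^ 2, ε / 64, l0, by positivity, by positivity, hl0, ?_⟩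
  intro lam hlam hlam0 V hV0 hVb W ψ hψ b L hL hdif T hT1 hT2
  obtain ⟨n1, n2, m, hmL, hmT, n3⟩ := hs lam hlam hlam0 V T hV0 hVb hT1 hT2 L hL
  have hT0 : 0 < T := lt_of_lt_of_le (by positivity) n1
  obtain ⟨β, hβ⟩ : ∃ β, β = Real.sqrt (lam ^ 2 * V / T) := ⟨_, rfl⟩
  have hβ0 : 0 ≤ β := by rw [hβ]; exact Real.sqrt_nonneg _
  refine ⟨β * q1, by positivity, ?_, m, hmL, hmT, n3, ?_⟩
  · rw [← hβ] at n2
    linarith
  intro k hk l hl hkl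
  have hkN : (k : ℝ) < N := by exact_mod_cast Finset.mem_range.1 hk
  have hlN : (l : ℝ) < N := by exact_mod_cast Finset.mem_range.1 hl
  have hk0 : (0 : ℝ) ≤ k := Nat.cast_nonneg k
  have hl0' : (0 : ℝ) ≤ l := Nat.cast_nonneg l
  have h1 : 1 ≤ ((k : ℝ) - l) ^ 2 := by
    have h2 : (1 : ℤ) ≤ ((k : ℤ) - l) ^ 2 := by
      have h3 : (k : ℤ) - l ≠ 0 := by
        intro h
        apply hkl
        omega
      have := sq_nonneg ((k : ℤ) - l)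
      have h4 : ((k : ℤ) - l) ^ 2 ≠ 0 := pow_ne_zero 2 h3
      omega
    exact_mod_cast h2
  have h2 : ((k : ℝ) - l) ^ 2 ≤ (N : ℝ) ^ 2 := by
    rw [sq_le_sq, abs_of_nonneg hN0.le, abs_le]
    constructor <;> linarith
  obtain ⟨q, hq⟩ : ∃ q : Fin d → ℝ, q = Pi.single i0 (((k : ℝ) - l) * q1) := ⟨_, rfl⟩
  have hqs : ∀ v : Fin d → ℝ, ∑ i, q i * v i = ((k : ℝ) - l) * q1 * v i0 := by
    intro v
    rw [Finset.sum_eq_single i0]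
    · rw [hq, Pi.single_eq_same]
    · intro i _ hi
      rw [hq, Pi.single_eq_of_ne hi, zero_mul]
    · intro h
      exact absurd (Finset.mem_univ _) h
  have hqq : ∑ i, q i ^ 2 = (((k : ℝ) - l) * q1) ^ 2 := by
    have h3 : ∑ i, q i ^ 2 = ∑ i, q i * q i := Finset.sum_congr rfl fun i _ => sq (q i)
    rw [h3, hqs, hq, Pi.single_eq_same]
    ring
  have hqK : ∑ i, q i ^ 2 ≤ (N * q1) ^ 2 := by
    rw [hqq, mul_pow, mul_pow]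
    exact mul_le_mul_of_nonneg_right h2 (sq_nonneg _)
  have hqL : q1 ^ 2 ≤ ∑ i, q i ^ 2 := by
    rw [hqq, mul_pow]
    exact le_mul_of_one_le_left (sq_nonneg _) h1
  have hone : ∀ y ∈ bx b L, ‖∫ u in (0 : ℝ)..1, ((2 * (1 - u) : ℝ) : ℂ) *
      Phi (ψ y) (cy (β * q1) i0 k l y) (u * T)‖ ≤ ε / 32 := by
    intro y hy
    have h3 := hdif y hy T n1 hT2 q hqK
    have e1 : ∀ s, (∑' x : Zd d, Complex.exp (Complex.I *
          ((Real.sqrt (lam ^ 2 * V / T) * ∑ i, q i * ((x i : ℝ) - y i) : ℝ) : ℂ)) *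
          ((‖ψ y (s * T) x‖ ^ 2 : ℝ) : ℂ)) = Phi (ψ y) (cy (β * q1) i0 k l y) (s * T) := by
      intro s
      unfold Phi cy
      refine tsum_congr fun x => ?_
      rw [hqs, ← hβ]
      congr 4
      ring
    simp only [e1] at h3
    rw [hw_c] at h3
    have h4 := hlaw _ hqL
    have h5 : ‖((∫ s in Set.Ioi (0 : ℝ), hw s * Psi G0 G1 (∑ i, q i ^ 2) s : ℝ) : ℂ)‖ ≤
        ε / 64 := by
      rw [Complex.norm_real, Real.norm_eq_abs]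
      exact h4
    have h6 := norm_le_norm_sub_add (∫ u in (0 : ℝ)..1, ((2 * (1 - u) : ℝ) : ℂ) *
      Phi (ψ y) (cy (β * q1) i0 k l y) (u * T))
      ((∫ s in Set.Ioi (0 : ℝ), hw s * Psi G0 G1 (∑ i, q i ^ 2) s : ℝ) : ℂ)
    linarith
  refine (base hd hψ b L m hmL (β * q1) i0 k l T hT0 hmT (ε / 32) hone).trans ?_
  refine mul_le_mul_of_nonneg_right ?_ (Nat.cast_nonneg _)
  linarith

/-- **all later times, and the eigenfunctions in infinite volume** -/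
theorem fin (hd : 1 ≤ d) (G0 G1 : ℝ → ℝ) (hF : FreeD d G0 G1) (ε Vm : ℝ)
    (hε : 0 < ε) (hVm : 0 < Vm) :
    ∃ K ε' l0 : ℝ, 0 ≤ K ∧ 0 < ε' ∧ 0 < l0 ∧ ∀ lam : ℝ, 0 < lam → lam ≤ l0 →
    ∀ V : ℝ, 0 < V → V ≤ Vm ^ 2 → ∀ (W : Zd d → ℝ) (ψ : Zd d → ℝ → Zd d → ℂ),
    (∀ a, Sol d W a (ψ a)) → ∀ (b : Zd d) (L : ℕ), lam ^ (-3 : ℝ) ≤ L →
    Dfs G0 G1 K ε' lam V ψ (bx b L) →
    (∀ T : ℝ, lam ^ (-(2024 / 1000) : ℝ) ≤ T →
      ∫ t in (0 : ℝ)..T, nr ψ (bx b L) (2 * lam ^ (-(2011 / 1000) : ℝ)) t ≤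
        ε * T * (bx b L).card) ∧
    (∀ (J : Type) (f : J → HS d), Orthonormal ℂ f → ∀ (E : J → ℝ),
      (∀ j x, -S (fun y => f j y) x + (W x : ℂ) * f j x = (E j : ℂ) * f j x) →
      ∀ s : Finset J, ∑ j ∈ s, ∑ x ∈ bx b L, ∑ y ∈ bx b L,
        (if ‖x - y‖ ≤ 2 * lam ^ (-(2011 / 1000) : ℝ) then ‖f j x‖ ^ 2 * ‖f j y‖ ^ 2 else 0) ≤
        ε * (bx b L).card) := by
  obtain ⟨N, hN1, hN4, K, ε', l0, hK, hε', hl0, hc⟩ := corr hd ⟨0, by omega⟩ G0 G1 hF ε Vm hε hVm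
  refine ⟨K, ε', l0, hK, hε', hl0, ?_⟩
  intro lam hlam hlam0 V hV0 hVb W ψ hψ b L hL hdif
  have hcor := hc lam hlam hlam0 V hV0 hVb W ψ hψ b L hL hdif
  obtain ⟨T1, hT1⟩ : ∃ T1, T1 = lam ^ (-(2024 / 1000) : ℝ) := ⟨_, rfl⟩
  have hT10 : 0 < T1 := by rw [hT1]; positivity
  rw [← hT1] at hcor ⊢
  have hcard : (0 : ℝ) ≤ ((bx b L).card : ℝ) := Nat.cast_nonneg _
  refine ⟨?_, ?_⟩
  · intro T hT
    have hT0 : 0 < T := by linarith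
    obtain ⟨n, hn, T', hTn, h1, h2⟩ := base_time (2 * T) T1 hT10 (by linarith)
    obtain ⟨θ0, hθ0, hθR, -, -, -, -, hcor'⟩ := hcor T' h1 h2
    have h3 := late hd hψ (bx b L) θ0 hθ0 ⟨0, by omega⟩ N hN1
      (2 * lam ^ (-(2011 / 1000) : ℝ)) T' (ε / 16) hθR (by positivity) hcor' n hn
    rw [← hTn] at h3
    have h4 := unw (nr_cont hψ (bx b L) (2 * lam ^ (-(2011 / 1000) : ℝ)))
      (fun t => by
        unfold nr
        refine Finset.sum_nonneg fun x _ => Finset.sum_nonneg fun y _ => ?_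
        split_ifs
        · positivity
        · exact le_rfl) T _ hT0 h3
    refine h4.trans ?_
    have h5 : (4 / (N : ℝ) + 4 * (ε / 16)) ≤ ε / 2 := by linarith
    have h6 := mul_le_mul_of_nonneg_right (mul_le_mul_of_nonneg_right h5 hcard) hT0.le
    linarith
  · intro J f hf E he s
    obtain ⟨θ0, hθ0, hθR, -, -, -, -, hcor'⟩ := hcor T1 (by linarith) le_rfl
    have h3 := eigf hd hψ (bx b L) θ0 hθ0 ⟨0, by omega⟩ N hN1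
      (2 * lam ^ (-(2011 / 1000) : ℝ)) T1 (ε / 16) hθR (by positivity) hcor' f hf E he s
    refine h3.trans ?_
    have h5 : (4 / (N : ℝ) + 4 * (ε / 16)) ≤ ε := by linarith
    exact mul_le_mul_of_nonneg_right h5 hcard

end Pool.Agent.Q218.AT
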