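import Pool.Agent.Q218.AT.All
import Pool.Agent.Q218.UD.Gau

/-! All later times and the eigenfunctions, for an arbitrary law with finite variance, and for
Gaussian disorder. -/

set_option autoImplicit false
set_option linter.unusedSectionVars false

open scoped BigOperators Topology InnerProductSpace
open MeasureTheory Filter Set ProbabilityTheory

namespace Pool.Agent.Q218.AT

open Pool.Agent.W788.LD.Spec (S)
open Pool.Agent.H4R2.LO (Zd dd bx)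
open Pool.Agent.TH794.QD (Sol HS hmk hmk_apply hs_sum)
open Pool.Agent.Q218.UD
open Pool.Agent.Q218.AD2 (Psi)

/-- the conclusion -/
def Concl (d : ℕ) (ε δ lam : ℝ) (W : Zd d → ℝ) (c : Zd d) (L : ℕ) : Prop :=
  ∀ r : ℕ, (r : ℝ) ≤ lam ^ (-(2011 / 1000) : ℝ) →
    (∀ ψ : Zd d → ℝ → Zd d → ℂ, (∀ a, Sol d W a (ψ a)) →
      ∀ T : ℝ, lam ^ (-(2024 / 1000) : ℝ) ≤ T →
      ∑ a ∈ bx c L, (∫ t in (0 : ℝ)..T, ∑ x ∈ bx a r, ‖ψ a t x‖ ^ 2) ≤
        ε * T * (bx c L).card) ∧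
    (∀ (J : Type) (f : J → HS d), Orthonormal ℂ f → ∀ (E : J → ℝ),
      (∀ j x, ‖x - c‖ < L → -S (fun y => f j y) x + (W x : ℂ) * f j x = (E j : ℂ) * f j x) →
      ∀ s : Finset J, (∀ j ∈ s, ∃ z : Zd d, δ ≤ ∑ x ∈ bx c L ∩ bx z r, ‖f j x‖ ^ 2) →
        (s.card : ℝ) ≤ ε * (bx c L).card)

/-- **an arbitrary law of finite variance** -/
theorem gen (d : ℕ) (hd : 2 ≤ d) (G0 G1 : ℝ → ℝ) (hF : FreeD d G0 G1) (μ : Measure ℝ)
    [IsProbabilityMeasure μ] (M V : ℝ) (h1 : Integrable (fun s => s) μ)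
    (h2 : Integrable (fun s => (s - M) ^ 2) μ) (hM : ∫ s, s ∂μ = M)
    (hV : ∫ s, (s - M) ^ 2 ∂μ = V) (hV0 : 0 < V) (ε δ : ℝ) (hε : 0 < ε) (hδ : 0 < δ) :
    ∃ l0 : ℝ, 0 < l0 ∧ ∀ lam : ℝ, 0 < lam → lam ≤ l0 → ∀ ρ : ℝ, 0 ≤ ρ →
      ρ ≤ Real.exp (lam ^ (-(1 / 102) : ℝ)) →
      ∃ G : Set (Zd d → ℝ), MeasurableSet G ∧
        1 - (Real.exp (-lam ^ (-(1 / 102) : ℝ)) + (2 * (ρ + lam ^ (-10 : ℝ)) + 1) ^ d *
          μ.real {s | ¬ |s - M| ≤ lam ^ (-(1 / 7000) : ℝ)}) ≤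
          (Measure.infinitePi fun _ : Zd d => μ).real G ∧
        ∀ ω ∈ G, ∀ (c : Zd d) (L : ℕ), lam ^ (-3 : ℝ) ≤ L → ‖c‖ + L ≤ ρ →
          Concl d ε δ lam (fun x => lam * ω x) c L := by
  have hd1 : 1 ≤ d := by omega
  obtain ⟨Vm, hVm⟩ : ∃ Vm, Vm = Real.sqrt V := ⟨_, rfl⟩
  have hVm0 : 0 < Vm := by rw [hVm]; exact Real.sqrt_pos.2 hV0
  have hVm2 : V ≤ Vm ^ 2 := by rw [hVm, Real.sq_sqrt hV0.le]
  obtain ⟨K, ε', l1, hK, hε', hl1, hall⟩ := all hd1 G0 G1 hF ε δ Vm hε hδ hVm0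
  obtain ⟨l2, ρ0, hl2, hρ0, hdif⟩ := difU d hd G0 G1 hF hw hw_int V K ε' hV0 hK hε'
  obtain ⟨l3, hl3, hvar⟩ := var_lim μ M V h1 h2 hM hV (ρ0 * V) (by positivity)
  refine ⟨min l1 (min l2 l3), by positivity, ?_⟩
  intro lam hlam hlam0 ρ hρ hρ1
  have b1 : lam ≤ l1 := hlam0.trans (min_le_left _ _)
  have b2 : lam ≤ l2 := hlam0.trans ((min_le_right _ _).trans (min_le_left _ _))
  have b3 : lam ≤ l3 := hlam0.trans ((min_le_right _ _).trans (min_le_right _ _))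
  obtain ⟨B, hB⟩ : ∃ B, B = lam ^ (-(1 / 7000) : ℝ) := ⟨_, rfl⟩
  rw [← hB]
  obtain ⟨G', hG', hP', hLd⟩ := hdif lam hlam b2 μ inferInstance M V _ _ B hB rfl
    rfl le_rfl (hvar lam hlam b3 B hB)
  obtain ⟨G, hGG', hG, hPG, hbox⟩ := evt (d := d) μ M B G' hG' _ _ hP' le_rfl
    (ρ + lam ^ (-10 : ℝ)) (by positivity)
  refine ⟨G, hG, hPG, fun ω hω c L hL hcL => ?_⟩
  have key : ∀ ψ : Zd d → ℝ → Zd d → ℂ, (∀ a, Sol d (fun x => lam * ω x) a (ψ a)) → _ :=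
    fun ψ hψ => hall lam hlam b1 V hV0 hVm2 (fun x => lam * ω x) ψ hψ c L hL
      (fun a ha T hT1 hT2 q hq => by
        rw [mem_bx'] at ha
        have h1 : ‖a‖ ≤ ρ := by
          have h2 : ‖a‖ ≤ ‖a - c‖ + ‖c‖ := by
            have := norm_add_le (a - c) c
            rwa [sub_add_cancel] at this
          linarith
        refine hLd ω (hGG' hω) a (h1.trans hρ1) (fun x hx => hbox ω hω x (by
          have : ‖x‖ ≤ ‖x - a‖ + ‖a‖ := by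
            have := norm_add_le (x - a) a
            rwa [sub_add_cancel] at this
          linarith)) 0 (ψ a) ?_ T hT1 hT2 q hq
        simp only [zero_add]
        exact hψ a)
  intro r hr
  refine ⟨fun ψ hψ T hT => (key ψ hψ r hr).1 T hT, fun J f hf E he s hs => ?_⟩
  have hex := fun a => exists_solU hd1 (fun x => lam * ω x) a
  choose ψ hψ using hex
  exact (key ψ hψ r hr).2 J f hf E he s hs

/-- **Gaussian disorder** -/
theorem gauAll (d : ℕ) (hd : 2 ≤ d) (G0 G1 : ℝ → ℝ) (hF : FreeD d G0 G1) (ε δ : ℝ) (hε : 0 < ε)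
    (hδ : 0 < δ) :
    ∃ l0 : ℝ, 0 < l0 ∧ ∀ lam : ℝ, 0 < lam → lam ≤ l0 →
      ∃ G : Set (Zd d → ℝ), MeasurableSet G ∧
        1 - Real.exp (-lam ^ (-(1 / 4000) : ℝ)) ≤
          (Measure.infinitePi fun _ : Zd d => gaussianReal 0 1).real G ∧
        ∀ ω ∈ G, ∀ (c : Zd d) (L : ℕ), lam ^ (-3 : ℝ) ≤ L →
          ‖c‖ + L ≤ Real.exp (lam ^ (-(1 / 4000) : ℝ)) →
          Concl d ε δ lam (fun x => lam * ω x) c L := by
  obtain ⟨l1, hl1, h⟩ := gen d hd G0 G1 hF (gaussianReal 0 1) 0 1 gi1 gi2 gM gV one_pos ε δ hε hδ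
  obtain ⟨X0, hX0⟩ := Filter.eventually_atTop.1 (numG d)
  refine ⟨min l1 (min (Real.exp (-X0)) 1), by positivity, ?_⟩
  intro lam hlam hlam0
  have b1 : lam ≤ l1 := hlam0.trans (min_le_left _ _)
  have b3 : lam ≤ Real.exp (-X0) := hlam0.trans ((min_le_right _ _).trans (min_le_left _ _))
  have b4 : lam ≤ 1 := hlam0.trans ((min_le_right _ _).trans (min_le_right _ _))
  obtain ⟨G, hG, hPG, hL⟩ := h lam hlam b1 (Real.exp (lam ^ (-(1 / 4000) : ℝ))) (by positivity)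
    (Real.exp_le_exp.2 (Real.rpow_le_rpow_of_exponent_ge hlam b4 (by norm_num)))
  refine ⟨G, hG, le_trans ?_ hPG, hL⟩
  obtain ⟨B, hB⟩ : ∃ B, B = lam ^ (-(1 / 7000) : ℝ) := ⟨_, rfl⟩
  have hB0 : 0 < B := by rw [hB]; positivity
  obtain ⟨X, hX⟩ : ∃ X, X = Real.log (1 / lam) := ⟨_, rfl⟩
  have hlog : Real.log lam = -X := by rw [hX, one_div, Real.log_inv, neg_neg]
  have hXX0 : X0 ≤ X := by
    have h1 := Real.log_le_log hlam b3
    rw [Real.log_exp, hlog] at h1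
    linarith
  have hrp : ∀ p q : ℝ, q = -p → lam ^ p = Real.exp (q * X) := by
    intro p q hpq
    rw [Real.rpow_def_of_pos hlam, hlog, hpq]
    congr 1
    ring
  have e1 : lam ^ (-(1 / 102) : ℝ) = Real.exp (1 / 102 * X) := hrp _ _ (by norm_num)
  have e2 : lam ^ (-(1 / 4000) : ℝ) = Real.exp (1 / 4000 * X) := hrp _ _ (by norm_num)
  have e3 : lam ^ (-10 : ℝ) = Real.exp (10 * X) := hrp _ _ (by norm_num)
  have e4 : B ^ 2 = Real.exp (1 / 3500 * X) := by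
    rw [hB, ← Real.rpow_natCast, ← Real.rpow_mul hlam.le]
    exact hrp _ _ (by norm_num)
  have htail : (gaussianReal 0 1).real {s | ¬ |s - 0| ≤ B} ≤ 2 * Real.exp (-B ^ 2 / 2) := by
    simp only [sub_zero]
    exact Q299.GB.tail hB0.le
  rw [← hB]
  have h1 := hX0 X hXX0
  have h2 := mul_le_mul_of_nonneg_left htail
    (by positivity : 0 ≤ (2 * (Real.exp (lam ^ (-(1 / 4000) : ℝ)) + lam ^ (-10 : ℝ)) + 1) ^ d)
  rw [e4] at h2
  rw [e1, e2, e3] at *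
  have e5 : -Real.exp (1 / 3500 * X) / 2 = -(Real.exp (1 / 3500 * X)) / 2 := rfl
  linarith

end Pool.Agent.Q218.AT
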