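import Pool.Agent.Q218.AT.Bd
import Pool.Agent.Q218.UD.LocG

/-! From the diffusion at one time scale to all later times and to the eigenfunctions. -/

set_option autoImplicit false
set_option linter.unusedSectionVars false

open scoped BigOperators Topology InnerProductSpace
open MeasureTheory Filter Set

namespace Pool.Agent.Q218.AT

open Pool.Agent.W788.LD.Spec (S)
open Pool.Agent.H4R2.LO (Zd dd bx)
open Pool.Agent.TH794.QD (Sol HS hmk hmk_apply hs_sum)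
open Pool.Agent.Q218.UD
open Pool.Agent.Q218.AD (Phi phi_meas phi_le W_tsum Cw small_rpow)
open Pool.Agent.Q218.AD2 (Psi psi_int psi_bd psi_meas)

variable {d : ℕ}

/-- the weight -/
noncomputable def hw : ℝ → ℝ := Set.indicator (Set.Ioc (0 : ℝ) 1) fun s => 2 * (1 - s)

theorem hw_int : IntegrableOn hw (Set.Ioi (0 : ℝ)) := by
  unfold hw
  refine ((integrable_indicator_iff measurableSet_Ioc).2 ?_).integrableOn
  exact ((by fun_prop : Continuous fun s : ℝ => 2 * (1 - s)).integrableOn_Icc).mono_set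
    Ioc_subset_Icc_self

theorem hw_c (P : ℝ → ℂ) : ∫ s in Set.Ioi (0 : ℝ), ((hw s : ℝ) : ℂ) * P s =
    ∫ u in (0 : ℝ)..1, ((2 * (1 - u) : ℝ) : ℂ) * P u := by
  have h1 : ∀ s, ((hw s : ℝ) : ℂ) * P s =
      Set.indicator (Set.Ioc (0 : ℝ) 1) (fun u => ((2 * (1 - u) : ℝ) : ℂ) * P u) s := by
    intro s
    unfold hw
    by_cases hs : s ∈ Set.Ioc (0 : ℝ) 1
    · rw [Set.indicator_of_mem hs, Set.indicator_of_mem hs]
    · rw [Set.indicator_of_notMem hs, Set.indicator_of_notMem hs, Complex.ofReal_zero, zero_mul]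
  simp only [h1]
  rw [setIntegral_indicator measurableSet_Ioc, intervalIntegral.integral_of_le zero_le_one]
  congr 2
  ext s
  simp only [Set.mem_inter_iff, Set.mem_Ioi, Set.mem_Ioc]
  exact ⟨fun h => h.2, fun h => ⟨h.1, h⟩⟩

theorem hw_r (P : ℝ → ℝ) : ∫ s in Set.Ioi (0 : ℝ), hw s * P s =
    ∫ u in (0 : ℝ)..1, 2 * (1 - u) * P u := by
  have h1 : ∀ s, hw s * P s =
      Set.indicator (Set.Ioc (0 : ℝ) 1) (fun u => 2 * (1 - u) * P u) s := by
    intro s
    unfold hw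
    by_cases hs : s ∈ Set.Ioc (0 : ℝ) 1
    · rw [Set.indicator_of_mem hs, Set.indicator_of_mem hs]
    · rw [Set.indicator_of_notMem hs, Set.indicator_of_notMem hs, zero_mul]
  simp only [h1]
  rw [setIntegral_indicator measurableSet_Ioc, intervalIntegral.integral_of_le zero_le_one]
  congr 2
  ext s
  simp only [Set.mem_inter_iff, Set.mem_Ioi, Set.mem_Ioc]
  exact ⟨fun h => h.2, fun h => ⟨h.1, h⟩⟩

/-- the average of the law is small for large frequencies -/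
theorem law_avg {G0 G1 : ℝ → ℝ} (hF : FreeD d G0 G1) (ε : ℝ) (hε : 0 < ε) :
    ∃ q1 : ℝ, 0 < q1 ∧ ∀ Q : ℝ, q1 ^ 2 ≤ Q →
      |∫ s in Set.Ioi (0 : ℝ), hw s * Psi G0 G1 Q s| ≤ ε := by
  obtain ⟨q0, hq0, hlaw⟩ := psi_smallU hF (ε / 2) (by positivity)
  obtain ⟨δ, hδ⟩ : ∃ δ, δ = min 1 (ε / 4) := ⟨_, rfl⟩
  have hδ0 : 0 < δ := by rw [hδ]; positivity
  have hδ1 : δ ≤ 1 := by rw [hδ]; exact min_le_left _ _
  have hδ2 : δ ≤ ε / 4 := by rw [hδ]; exact min_le_right _ _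
  refine ⟨q0 / Real.sqrt δ, by positivity, fun Q hQ => ?_⟩
  have hQ' : q0 ^ 2 ≤ Q * δ := by
    rw [div_pow, Real.sq_sqrt hδ0.le, div_le_iff₀ hδ0] at hQ
    exact hQ
  have hQ0 : 0 ≤ Q := le_trans (by positivity) hQ
  have hb : ∀ s : ℝ, 0 ≤ s → 0 ≤ Psi G0 G1 Q s ∧ Psi G0 G1 Q s ≤ 1 := fun s hs =>
    psi_bd hF.m0 hF.m1 hF.i0 hF.n0 hF.n1 hF.mass Q s hQ0 hs
  have hsm : ∀ s : ℝ, δ ≤ s → Psi G0 G1 Q s ≤ ε / 2 := by
    intro s hs
    have h1 : Psi G0 G1 Q s = Psi G0 G1 (Q * s) 1 := by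
      unfold Psi
      congr 2
      funext E
      congr 3
      ring
    rw [h1]
    refine (hlaw (Q * s) 1 (hQ'.trans ?_) le_rfl).2
    exact mul_le_mul_of_nonneg_left hs hQ0
  have iP : IntervalIntegrable (fun u => 2 * (1 - u) * Psi G0 G1 Q u) volume 0 1 := by
    rw [intervalIntegrable_iff_integrableOn_Ioc_of_le zero_le_one]
    refine Integrable.mono' (g := fun _ => (2 : ℝ)) (integrableOn_const (by simp))
      ((by fun_prop : Measurable fun u : ℝ => 2 * (1 - u)).mul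
        (psi_meas hF.m0 hF.m1 Q)).aestronglyMeasurable ?_
    filter_upwards [ae_restrict_mem measurableSet_Ioc] with u hu
    have h1 := hb u hu.1.le
    rw [norm_mul, Real.norm_of_nonneg (by linarith [hu.2] : 0 ≤ 2 * (1 - u)),
      Real.norm_of_nonneg h1.1]
    nlinarith [hu.1, hu.2]
  have iI : IntervalIntegrable (fun u : ℝ => Set.indicator (Set.Ioc (0 : ℝ) δ) (fun _ => (2 : ℝ)) u +
      2 * (1 - u) * (ε / 2)) volume 0 1 := by
    refine IntervalIntegrable.add ?_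
      ((by fun_prop : Continuous fun u : ℝ => 2 * (1 - u) * (ε / 2)).intervalIntegrable _ _)
    rw [intervalIntegrable_iff_integrableOn_Ioc_of_le zero_le_one]
    exact ((integrable_indicator_iff measurableSet_Ioc).2
      (integrableOn_const (by simp))).integrableOn
  rw [hw_r, abs_of_nonneg (intervalIntegral.integral_nonneg zero_le_one fun u hu =>
    mul_nonneg (by linarith [hu.2]) (hb u hu.1).1)]
  have hle : ∫ u in (0 : ℝ)..1, 2 * (1 - u) * Psi G0 G1 Q u ≤ ∫ u in (0 : ℝ)..1,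
      (Set.indicator (Set.Ioc (0 : ℝ) δ) (fun _ => (2 : ℝ)) u + 2 * (1 - u) * (ε / 2)) := by
    rw [intervalIntegral.integral_of_le zero_le_one, intervalIntegral.integral_of_le zero_le_one]
    rw [intervalIntegrable_iff_integrableOn_Ioc_of_le zero_le_one] at iP iI
    refine setIntegral_mono_on iP iI measurableSet_Ioc fun u hu => ?_
    have h1 := hb u hu.1.le
    have h2 : 0 ≤ 2 * (1 - u) := by linarith [hu.2]
    by_cases hs : u ∈ Set.Ioc (0 : ℝ) δ
    · rw [Set.indicator_of_mem hs]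
      have h3 : 2 * (1 - u) * Psi G0 G1 Q u ≤ 2 * 1 :=
        mul_le_mul (by linarith [hu.1]) h1.2 h1.1 (by norm_num)
      have h4 : 0 ≤ 2 * (1 - u) * (ε / 2) := by positivity
      linarith
    · rw [Set.indicator_of_notMem hs, zero_add]
      have h3 : δ ≤ u := by
        by_contra hcon
        rw [not_le] at hcon
        exact hs ⟨hu.1, hcon.le⟩
      exact mul_le_mul_of_nonneg_left (hsm u h3) h2
  refine hle.trans ?_
  rw [intervalIntegral.integral_add ?_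
    ((by fun_prop : Continuous fun u : ℝ => 2 * (1 - u) * (ε / 2)).intervalIntegrable _ _),
    w_const]
  · have h1 : ∫ u in (0 : ℝ)..1, Set.indicator (Set.Ioc (0 : ℝ) δ) (fun _ => (2 : ℝ)) u = 2 * δ := by
      rw [intervalIntegral.integral_of_le zero_le_one, setIntegral_indicator measurableSet_Ioc]
      have h2 : Set.Ioc (0 : ℝ) 1 ∩ Set.Ioc 0 δ = Set.Ioc 0 δ := by
        ext u
        simp only [Set.mem_inter_iff, Set.mem_Ioc]
        exact ⟨fun h => h.2, fun h => ⟨⟨h.1, h.2.trans hδ1⟩, h⟩⟩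
      rw [h2, setIntegral_const, Real.volume_real_Ioc_of_le hδ0.le, smul_eq_mul]
      ring
    rw [h1]
    linarith
  · rw [intervalIntegrable_iff_integrableOn_Ioc_of_le zero_le_one]
    exact ((integrable_indicator_iff measurableSet_Ioc).2
      (integrableOn_const (by simp))).integrableOn

/-- the base time scales -/
theorem base_time (T T1 : ℝ) (hT1 : 0 < T1) (hT : T1 ≤ T) :
    ∃ n : ℕ, 1 ≤ n ∧ ∃ T' : ℝ, T = n * T' ∧ T1 / 2 ≤ T' ∧ T' ≤ T1 := by
  have h1 : 1 ≤ T / T1 := by rwa [le_div_iff₀ hT1, one_mul]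
  obtain ⟨n, hn⟩ : ∃ n, n = ⌈T / T1⌉₊ := ⟨_, rfl⟩
  have hn1 : 1 ≤ n := by
    rw [hn]
    exact Nat.one_le_ceil_iff.2 (by linarith)
  have hn0 : (0 : ℝ) < n := by exact_mod_cast hn1
  have h2 : T / T1 ≤ n := by rw [hn]; exact Nat.le_ceil _
  have h3 : (n : ℝ) < T / T1 + 1 := by rw [hn]; exact Nat.ceil_lt_add_one (by linarith)
  refine ⟨n, hn1, T / n, by field_simp, ?_, ?_⟩
  · rw [le_div_iff₀ hn0]
    have h4 : (n : ℝ) ≤ 2 * (T / T1) := by linarith
    have h5 : T1 / 2 * n ≤ T1 / 2 * (2 * (T / T1)) := mul_le_mul_of_nonneg_left h4 (by positivity)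
    have h6 : T1 / 2 * (2 * (T / T1)) = T := by field_simp
    linarith
  · rw [div_le_iff₀ hn0]
    rw [div_le_iff₀ hT1] at h2
    linarith

/-- time averages without weight -/
theorem unw {f : ℝ → ℝ} (hf : Continuous f) (h0 : ∀ t, 0 ≤ f t) (T C : ℝ) (hT : 0 < T)
    (h : ∫ u in (0 : ℝ)..1, 2 * (1 - u) * f (u * (2 * T)) ≤ C) :
    ∫ t in (0 : ℝ)..T, f t ≤ 2 * C * T := by
  have h1 : ∫ t in (0 : ℝ)..T, f t = 2 * T * ∫ u in (0 : ℝ)..(1 / 2), f (u * (2 * T)) := by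
    have h2 := intervalIntegral.integral_comp_mul_right (a := 0) (b := 1 / 2) (fun u => f u)
      (by positivity : (2 * T) ≠ 0)
    rw [h2, zero_mul, smul_eq_mul, ← mul_assoc, mul_inv_cancel₀ (by positivity), one_mul]
    congr 1
    ring
  have hc : Continuous fun u : ℝ => f (u * (2 * T)) := hf.comp (by fun_prop)
  have hc2 : Continuous fun u : ℝ => 2 * (1 - u) * f (u * (2 * T)) := by fun_prop
  have h3 : ∫ u in (0 : ℝ)..(1 / 2), f (u * (2 * T)) ≤
      ∫ u in (0 : ℝ)..(1 / 2), 2 * (1 - u) * f (u * (2 * T)) := by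
    refine intervalIntegral.integral_mono_on (by norm_num) (hc.intervalIntegrable _ _)
      (hc2.intervalIntegrable _ _) fun u hu => ?_
    refine le_mul_of_one_le_left (h0 _) ?_
    linarith [hu.2]
  have h4 : ∫ u in (0 : ℝ)..(1 / 2), 2 * (1 - u) * f (u * (2 * T)) ≤
      ∫ u in (0 : ℝ)..1, 2 * (1 - u) * f (u * (2 * T)) := by
    rw [← intervalIntegral.integral_add_adjacent_intervals (hc2.intervalIntegrable 0 (1 / 2))
      (hc2.intervalIntegrable (1 / 2) 1)]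
    have h5 : 0 ≤ ∫ u in (1 / 2 : ℝ)..1, 2 * (1 - u) * f (u * (2 * T)) :=
      intervalIntegral.integral_nonneg (by norm_num) fun u hu =>
        mul_nonneg (by linarith [hu.2]) (h0 _)
    linarith
  rw [h1]
  have h5 := mul_le_mul_of_nonneg_left ((h3.trans h4).trans h) (by positivity : 0 ≤ 2 * T)
  linarith

/-- the numerical estimates -/
theorem at_num (d : ℕ) (hd : 1 ≤ d) (Vm q1 N ε : ℝ) (hVm : 0 < Vm) (hq1 : 0 < q1) (hN : 0 < N)
    (hε : 0 < ε) : ∃ l0 : ℝ, 0 < l0 ∧ ∀ lam : ℝ, 0 < lam → lam ≤ l0 →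
    ∀ V T : ℝ, 0 < V → V ≤ Vm ^ 2 → lam ^ (-(2024 / 1000) : ℝ) / 2 ≤ T →
    T ≤ lam ^ (-(2024 / 1000) : ℝ) → ∀ L : ℕ, lam ^ (-3 : ℝ) ≤ L →
      lam ^ (-(2013 / 1000) : ℝ) ≤ T ∧
      Real.sqrt (lam ^ 2 * V / T) * q1 * lam ^ (-(2011 / 1000) : ℝ) * N ≤ 1 ∧
      ∃ m : ℕ, m ≤ L ∧ 12 * d * T ≤ m ∧
        Cw d * 2 ^ (d + 1) * Real.exp (-(T / 2)) + d * (2 * m / (2 * L + 1)) ≤ ε := by
  have hCw : 0 ≤ Cw d := by unfold Cw; positivity
  have hd1 : (1 : ℝ) ≤ d := by exact_mod_cast hd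
  obtain ⟨l1, hl1, hs1⟩ := small_rpow (11 / 1000) (1 / 2) (by norm_num) (by norm_num)
  obtain ⟨l2, hl2, hs2⟩ := small_rpow (1 / 1000) (1 / (2 * Vm * q1 * N)) (by norm_num)
    (by positivity)
  obtain ⟨l3, hl3, hs3⟩ := small_rpow (976 / 1000) (min 1 (ε / 2 / d) / (13 * d)) (by norm_num)
    (by positivity)
  obtain ⟨l4, hl4, hs4⟩ := small_rpow (2024 / 1000) (ε / 2 / (4 * (Cw d * 2 ^ (d + 1) + 1)))
    (by norm_num) (by positivity)
  refine ⟨min (min l1 l2) (min (min l3 l4) 1), by positivity, ?_⟩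
  intro lam hlam hlam0 V T hV0 hV hT1 hT2 L hL
  have b1 : lam ≤ l1 := hlam0.trans ((min_le_left _ _).trans (min_le_left _ _))
  have b2 : lam ≤ l2 := hlam0.trans ((min_le_left _ _).trans (min_le_right _ _))
  have b3 : lam ≤ l3 := hlam0.trans ((min_le_right _ _).trans
    ((min_le_left _ _).trans (min_le_left _ _)))
  have b4 : lam ≤ l4 := hlam0.trans ((min_le_right _ _).trans
    ((min_le_left _ _).trans (min_le_right _ _)))
  have b5 : lam ≤ 1 := hlam0.trans ((min_le_right _ _).trans (min_le_right _ _))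
  obtain ⟨T1, hT1d⟩ : ∃ T1, T1 = lam ^ (-(2024 / 1000) : ℝ) := ⟨_, rfl⟩
  rw [← hT1d] at hT1 hT2
  have hT10 : 0 < T1 := by rw [hT1d]; positivity
  have hT11 : 1 ≤ T1 := by
    rw [hT1d]
    exact Real.one_le_rpow_of_pos_of_le_one_of_nonpos hlam b5 (by norm_num)
  have hT0 : 0 < T := by linarith
  refine ⟨?_, ?_, ⌈12 * d * T⌉₊, ?_, Nat.le_ceil _, ?_⟩
  · have h1 := hs1 lam hlam b1
    have h2 : lam ^ (-(2013 / 1000) : ℝ) = lam ^ (11 / 1000 : ℝ) * T1 := by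
      rw [hT1d, ← Real.rpow_add hlam]
      norm_num
    rw [h2]
    have h3 : lam ^ (11 / 1000 : ℝ) * T1 ≤ 1 / 2 * T1 := mul_le_mul_of_nonneg_right h1 hT10.le
    linarith
  · have h1 : Real.sqrt (lam ^ 2 * V / T) ≤ 2 * Vm * lam ^ (2012 / 1000 : ℝ) := by
      apply Real.sqrt_le_iff.2
      refine ⟨by positivity, ?_⟩
      have h2 : (lam ^ (2012 / 1000 : ℝ)) ^ 2 = lam ^ 2 / T1 := by
        rw [hT1d, ← Real.rpow_natCast, ← Real.rpow_mul hlam.le, ← Real.rpow_natCast lam 2,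
          ← Real.rpow_sub hlam]
        norm_num
      rw [mul_pow, h2, mul_pow]
      calc lam ^ 2 * V / T ≤ lam ^ 2 * Vm ^ 2 / (T1 / 2) := by gcongr
        _ = 2 * (Vm ^ 2 * (lam ^ 2 / T1)) := by field_simp
        _ ≤ 4 * (Vm ^ 2 * (lam ^ 2 / T1)) := by
            have : 0 ≤ Vm ^ 2 * (lam ^ 2 / T1) := by positivity
            linarith
        _ = 2 ^ 2 * Vm ^ 2 * (lam ^ 2 / T1) := by ring
    have h2 := hs2 lam hlam b2
    have h3 : lam ^ (2012 / 1000 : ℝ) * lam ^ (-(2011 / 1000) : ℝ) = lam ^ (1 / 1000 : ℝ) := by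
      rw [← Real.rpow_add hlam]
      norm_num
    calc Real.sqrt (lam ^ 2 * V / T) * q1 * lam ^ (-(2011 / 1000) : ℝ) * N ≤
          2 * Vm * lam ^ (2012 / 1000 : ℝ) * q1 * lam ^ (-(2011 / 1000) : ℝ) * N := by gcongr
      _ = 2 * Vm * q1 * N * (lam ^ (2012 / 1000 : ℝ) * lam ^ (-(2011 / 1000) : ℝ)) := by ring
      _ = 2 * Vm * q1 * N * lam ^ (1 / 1000 : ℝ) := by rw [h3]
      _ ≤ 2 * Vm * q1 * N * (1 / (2 * Vm * q1 * N)) := by gcongr
      _ = 1 := by field_simp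
  · have h1 : (⌈12 * d * T⌉₊ : ℝ) ≤ 13 * d * T1 := by
      have h2 := (Nat.ceil_lt_add_one (by positivity : 0 ≤ 12 * d * T)).le
      have h3 : 12 * (d : ℝ) * T ≤ 12 * d * T1 := by gcongr
      have h4 : 1 ≤ (d : ℝ) * T1 := by nlinarith
      linarith
    have h2 := hs3 lam hlam b3
    have h3 : T1 = lam ^ (976 / 1000 : ℝ) * lam ^ (-3 : ℝ) := by
      rw [hT1d, ← Real.rpow_add hlam]
      norm_num
    have h4 : 13 * (d : ℝ) * T1 ≤ lam ^ (-3 : ℝ) := by
      rw [h3]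
      have h5 : lam ^ (976 / 1000 : ℝ) ≤ 1 / (13 * d) := by
        refine h2.trans ?_
        gcongr
        exact min_le_left _ _
      calc 13 * (d : ℝ) * (lam ^ (976 / 1000 : ℝ) * lam ^ (-3 : ℝ)) ≤
            13 * (d : ℝ) * (1 / (13 * d) * lam ^ (-3 : ℝ)) := by gcongr
        _ = lam ^ (-3 : ℝ) := by field_simp
    have h5 : (⌈12 * d * T⌉₊ : ℝ) ≤ (L : ℝ) := h1.trans (h4.trans hL)
    exact_mod_cast h5
  · have h1 : (⌈12 * d * T⌉₊ : ℝ) ≤ 13 * d * T1 := by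
      have h2 := (Nat.ceil_lt_add_one (by positivity : 0 ≤ 12 * d * T)).le
      have h3 : 12 * (d : ℝ) * T ≤ 12 * d * T1 := by gcongr
      have h4 : 1 ≤ (d : ℝ) * T1 := by nlinarith
      linarith
    have h2 := hs3 lam hlam b3
    have h3 : T1 = lam ^ (976 / 1000 : ℝ) * lam ^ (-3 : ℝ) := by
      rw [hT1d, ← Real.rpow_add hlam]
      norm_num
    have hL0 : 0 < (L : ℝ) := lt_of_lt_of_le (by positivity) hL
    have h4 : d * (2 * (⌈12 * d * T⌉₊ : ℝ) / (2 * L + 1)) ≤ ε / 2 := by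
      have h5 : 2 * (⌈12 * d * T⌉₊ : ℝ) / (2 * L + 1) ≤ (⌈12 * d * T⌉₊ : ℝ) / L := by
        rw [div_le_div_iff₀ (by positivity) hL0]
        have : (0 : ℝ) ≤ (⌈12 * d * T⌉₊ : ℝ) := Nat.cast_nonneg _
        nlinarith
      have h6 : (⌈12 * d * T⌉₊ : ℝ) / L ≤ 13 * d * T1 / lam ^ (-3 : ℝ) := by gcongr
      have h7 : 13 * d * T1 / lam ^ (-3 : ℝ) = 13 * d * lam ^ (976 / 1000 : ℝ) := by
        rw [h3]
        field_simp
      have h8 : 13 * (d : ℝ) * lam ^ (976 / 1000 : ℝ) ≤ ε / 2 / d := by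
        have h9 : lam ^ (976 / 1000 : ℝ) ≤ ε / 2 / d / (13 * d) := by
          refine h2.trans ?_
          gcongr
          exact min_le_right _ _
        calc 13 * (d : ℝ) * lam ^ (976 / 1000 : ℝ) ≤ 13 * d * (ε / 2 / d / (13 * d)) := by gcongr
          _ = ε / 2 / d := by field_simp
      calc d * (2 * (⌈12 * d * T⌉₊ : ℝ) / (2 * L + 1)) ≤ d * (ε / 2 / d) :=
            mul_le_mul_of_nonneg_left (h5.trans (h6.trans (h7.le.trans h8))) (by positivity)
        _ = ε / 2 := by field_simp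
    have h5 : Cw d * 2 ^ (d + 1) * Real.exp (-(T / 2)) ≤ ε / 2 := by
      have h6 : Real.exp (-(T / 2)) ≤ 4 * lam ^ (2024 / 1000 : ℝ) := by
        rw [Real.exp_neg]
        have h7 : T / 2 ≤ Real.exp (T / 2) := by linarith [Real.add_one_le_exp (T / 2)]
        have h8 : T1 / 4 ≤ Real.exp (T / 2) := by linarith
        have h9 : (Real.exp (T / 2))⁻¹ ≤ (T1 / 4)⁻¹ := inv_anti₀ (by positivity) h8
        refine h9.trans (le_of_eq ?_)
        rw [inv_div, hT1d, Real.rpow_neg hlam.le]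
        field_simp
      have h7 := hs4 lam hlam b4
      calc Cw d * 2 ^ (d + 1) * Real.exp (-(T / 2)) ≤
            (Cw d * 2 ^ (d + 1) + 1) * (4 * lam ^ (2024 / 1000 : ℝ)) := by
            gcongr
            linarith
        _ ≤ (Cw d * 2 ^ (d + 1) + 1) * (4 * (ε / 2 / (4 * (Cw d * 2 ^ (d + 1) + 1)))) := by gcongr
        _ = ε / 2 := by field_simp
    linarith

end Pool.Agent.Q218.AT
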