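import Pool.Agent.Q218.UD.Uni
import Pool.Agent.Q218.UD.Cf
import Pool.Agent.Q218.AD.Loc6

/-! The inner products of evolutions with different starting points only depend on the difference of
the times. -/

set_option autoImplicit false
set_option linter.unusedSectionVars false

open scoped BigOperators Topology InnerProductSpace
open MeasureTheory Filter Set

namespace Pool.Agent.Q218.AT

open Pool.Agent.W788.LD.Spec (S)
open Pool.Agent.H4R2.LO (Zd dd bx)
open Pool.Agent.H4R2.LO.Em (dd_norm mem_bx card_bx dd_comm)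
open Pool.Agent.TH794.QD (Sol HS hmk hmk_apply hs_sum Hop Hop_apply evl evl_apply gen_skew)
open Pool.Agent.Q218.UD
open Pool.Agent.Q218.AD (W_tsum hs_inner Cw)

variable {d : ℕ}

theorem dl_sum (a : Zd d) : HasSum (fun x : Zd d => ‖if x = a then (1 : ℂ) else 0‖ ^ 2) 1 := by
  have := hasSum_single (f := fun x : Zd d => ‖if x = a then (1 : ℂ) else 0‖ ^ 2) a
    (fun x hx => by
      rw [if_neg hx]
      simp)
  simp only [if_true, norm_one, one_pow] at this
  exact this

/-- the delta function -/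
noncomputable def dl (a : Zd d) : HS d := hmk (fun x => if x = a then (1 : ℂ) else 0)
  (dl_sum a).summable

theorem dl_inner (a : Zd d) (v : HS d) : ⟪dl a, v⟫_ℂ = v a := by
  have h := hs_inner (dl a) v
  have h2 : HasSum (fun x => (starRingEnd ℂ) (dl a x) * v x) (v a) := by
    have h3 := hasSum_single (f := fun x => (starRingEnd ℂ) (dl a x) * v x) a (fun x hx => by
      have : dl a x = 0 := if_neg hx
      rw [this, map_zero, zero_mul])
    have h4 : dl a a = 1 := if_pos rfl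
    rw [h4, map_one, one_mul] at h3
    exact h3
  exact h.unique h2

theorem un (V : Zd d → ℝ) (B : ℝ) (hB : 0 ≤ B) (hV : ∀ x, |V x| ≤ B) (s : ℝ) :
    NormedSpace.exp ((s : ℂ) • ((-Complex.I) • Hop V B hB hV)) ∈ unitary (HS d →L[ℂ] HS d) := by
  let +nondep : NormedAlgebra ℚ (HS d →L[ℂ] HS d) := NormedAlgebra.restrictScalars ℚ ℂ _
  exact NormedSpace.exp_mem_unitary_of_mem_skewAdjoint (gen_skew V B hB hV s)

theorem exp_sol (V : Zd d → ℝ) (B : ℝ) (hB : 0 ≤ B) (hV : ∀ x, |V x| ≤ B) (a : Zd d) :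
    Sol d V a fun s x => NormedSpace.exp ((s : ℂ) • ((-Complex.I) • Hop V B hB hV)) (dl a) x := by
  obtain ⟨A, hA⟩ : ∃ A : HS d →L[ℂ] HS d, A = (-Complex.I) • Hop V B hB hV := ⟨_, rfl⟩
  rw [← hA]
  have hδ1 : ‖dl a‖ ^ 2 = 1 := by
    have h1 := hs_sum (dl a)
    exact h1.unique (dl_sum a)
  refine ⟨?_, ?_, ?_⟩
  · intro x
    simp only [Complex.ofReal_zero, zero_smul, NormedSpace.exp_zero]
    rfl
  · intro s x
    have h1 := hasDerivAt_exp_smul_const' (𝕂 := ℂ) A (s : ℂ)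
    have h2 : HasDerivAt (fun z : ℂ => ((evl x).comp (ContinuousLinearMap.apply ℂ (HS d) (dl a)))
        (NormedSpace.exp (z • A))) (((evl x).comp (ContinuousLinearMap.apply ℂ (HS d) (dl a)))
        (A * NormedSpace.exp ((s : ℂ) • A))) (s : ℂ) :=
      (ContinuousLinearMap.hasFDerivAt _).comp_hasDerivAt (s : ℂ) h1
    have h3 := h2.comp_ofReal
    have e1 : ∀ L : HS d →L[ℂ] HS d,
        ((evl x).comp (ContinuousLinearMap.apply ℂ (HS d) (dl a))) L = L (dl a) x := fun L => rfl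
    simp only [e1] at h3
    refine h3.congr_deriv ?_
    rw [ContinuousLinearMap.mul_apply]
    obtain ⟨w, hw⟩ : ∃ w, w = NormedSpace.exp ((s : ℂ) • A) (dl a) := ⟨_, rfl⟩
    rw [← hw, hA, ← Hop_apply V B hB hV w x, ← evl_apply x, ContinuousLinearMap.smul_apply,
      map_smul, smul_eq_mul, evl_apply]
  · intro s
    have h1 := hs_sum (NormedSpace.exp ((s : ℂ) • A) (dl a))
    have h2 : ‖NormedSpace.exp ((s : ℂ) • A) (dl a)‖ = ‖dl a‖ := by
      rw [hA]
      exact ContinuousLinearMap.norm_map_of_mem_unitary (un V B hB hV s) (dl a)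
    rw [h2, hδ1] at h1
    exact h1

/-- stationarity for a bounded potential -/
theorem stat_bdd (V : Zd d → ℝ) (B : ℝ) (hV : ∀ x, |V x| ≤ B) {x y : Zd d}
    {ψ φ : ℝ → Zd d → ℂ} (hψ : Sol d V x ψ) (hφ : Sol d V y φ) (s t : ℝ) :
    ∑' m, (starRingEnd ℂ) (ψ s m) * φ t m = φ (t - s) x := by
  have hB : 0 ≤ B := (abs_nonneg _).trans (hV 0)
  obtain ⟨E, hE⟩ : ∃ E : ℝ → (HS d →L[ℂ] HS d),
    E = fun s : ℝ => NormedSpace.exp ((s : ℂ) • ((-Complex.I) • Hop V B hB hV)) := ⟨_, rfl⟩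
  have e1 : ψ = fun s m => E s (dl x) m := by
    rw [hE]
    exact sol_unique hψ (exp_sol V B hB hV x)
  have e2 : φ = fun s m => E s (dl y) m := by
    rw [hE]
    exact sol_unique hφ (exp_sol V B hB hV y)
  have hadd : E t = E s * E (t - s) := by
    rw [hE]
    simp only
    let +nondep : NormedAlgebra ℚ (HS d →L[ℂ] HS d) := NormedAlgebra.restrictScalars ℚ ℂ _
    rw [← NormedSpace.exp_add_of_commute]
    · congr 1
      rw [← add_smul]
      congr 1
      push_cast
      ring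
    · exact ((Commute.refl _).smul_left _).smul_right _
  have hu : E s ∈ unitary (HS d →L[ℂ] HS d) := by
    rw [hE]
    exact un V B hB hV s
  have h1 := hs_inner (E s (dl x)) (E t (dl y))
  rw [e1, e2]
  simp only
  rw [h1.tsum_eq, hadd, ContinuousLinearMap.mul_apply,
    ContinuousLinearMap.inner_map_map_of_mem_unitary hu, dl_inner]

/-- the decay of the evolution -/
theorem dec_exp {V : Zd d → ℝ} {a : Zd d} {ψ : ℝ → Zd d → ℂ} (h : Sol d V a ψ) (t : ℝ)
    (m : Zd d) : ‖ψ t m‖ ≤ Real.exp (2 * d * |t| * Real.exp 1) * Real.exp (-(1 * ‖m - a‖)) := by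
  have h1 := dec' h (dd m a) m (by rw [dd_norm]) t
  refine h1.trans ((fac_exp (2 * d * |t|) (by positivity) (dd m a)).trans (le_of_eq ?_))
  rw [dd_norm, one_mul]

/-- **stationarity** -/
theorem stat (hd : 1 ≤ d) {V : Zd d → ℝ} {x y : Zd d} {ψ φ : ℝ → Zd d → ℂ}
    (hψ : Sol d V x ψ) (hφ : Sol d V y φ) (s t : ℝ) :
    ∑' m, (starRingEnd ℂ) (ψ s m) * φ t m = φ (t - s) x := by
  have hex : ∀ (a : Zd d) (n : ℕ), ∃ ψ, Sol d (cutV V x n) a ψ := fun a n => by
    obtain ⟨B, hB⟩ := cutV_bd V x n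
    exact Pool.Agent.TH794.QD.exists_sol _ B hB a
  choose Ψ hΨ using hex
  -- pointwise convergence
  have hlim : ∀ (a : Zd d) (χ : ℝ → Zd d → ℂ), Sol d V a χ → ∀ (r : ℝ) (m : Zd d),
      Tendsto (fun n => Ψ a n r m) atTop (𝓝 (χ r m)) := by
    intro a χ hχ r m
    obtain ⟨K, hK⟩ : ∃ K : ℕ, ‖m - a‖ + ‖a - x‖ ≤ K := exists_nat_ge _
    rw [← tendsto_add_atTop_iff_nat K, tendsto_iff_norm_sub_tendsto_zero]
    refine squeeze_zero (fun n => norm_nonneg _) (fun n => ?_) (fac_lim (2 * d * |r|))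
    refine dif' (hΨ a (n + K)) hχ (‖m - a‖ + n) (fun z hz => ?_) n m le_rfl r
    refine cutV_eq V x ?_
    have h1 := norm_sub_le_norm_sub_add_norm_sub z a x
    push_cast
    linarith
  have hs : ∀ n, ∑' m, (starRingEnd ℂ) (Ψ x n s m) * Ψ y n t m = Ψ y n (t - s) x := fun n => by
    obtain ⟨B, hB⟩ := cutV_bd V x n
    exact stat_bdd _ B hB (hΨ x n) (hΨ y n) s t
  have l1 := hlim y φ hφ (t - s) x
  simp only [← hs] at l1
  refine tendsto_nhds_unique ?_ l1
  obtain ⟨w1, -⟩ := W_tsum hd 1 one_pos le_rfl x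
  refine tendsto_tsum_of_dominated_convergence
    (bound := fun m => Real.exp (2 * d * |s| * Real.exp 1) * Real.exp (-(1 * ‖m - x‖)))
    (w1.mul_left _) ?_ ?_
  · intro m
    exact (Complex.continuous_conj.continuousAt.tendsto.comp (hlim x ψ hψ s m)).mul
      (hlim y φ hφ t m)
  · refine Filter.Eventually.of_forall fun n m => ?_
    rw [norm_mul, Complex.norm_conj]
    refine (mul_le_of_le_one_right (norm_nonneg _) ((hΨ y n).le_one t m)).trans ?_
    exact dec_exp (hΨ x n) s m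

end Pool.Agent.Q218.AT
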