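import Pool.Agent.Q218.AT.Fin

/-! Functions which satisfy the eigenvalue equation only in the interior of a box. -/

set_option autoImplicit false
set_option linter.unusedSectionVars false

open scoped BigOperators Topology InnerProductSpace
open MeasureTheory Filter Set

namespace Pool.Agent.Q218.AT

open Pool.Agent.W788.LD.Spec (S summ_mul summ_shift shiftsum)
open Pool.Agent.H4R2.LO (Zd dd bx)
open Pool.Agent.H4R2.LO.Em (dd_norm mem_bx card_bx dd_comm)
open Pool.Agent.TH794.QD (Sol HS hmk hmk_apply hs_sum)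
open Pool.Agent.Q218.UD
open Pool.Agent.Q218.AD (Phi phi_meas phi_le W_tsum Cw small_rpow hs_inner)

variable {d : ℕ} {V : Zd d → ℝ}

/-- the restriction -/
noncomputable def rI (I : Finset (Zd d)) (u : Zd d → ℂ) (z : Zd d) : ℂ := if z ∈ I then u z else 0

/-- the commutator with the restriction -/
noncomputable def Kr (I : Finset (Zd d)) (u : Zd d → ℂ) (w : Zd d) : ℂ :=
  S (rI I u) w - rI I (S u) w

theorem rI_summ (I : Finset (Zd d)) (u : Zd d → ℂ) : Summable fun z => ‖rI I u z‖ ^ 2 := by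
  refine summable_of_ne_finset_zero (s := I) fun z hz => ?_
  unfold rI
  rw [if_neg hz]
  simp

theorem rI_tsum (I : Finset (Zd d)) (g u : Zd d → ℂ) :
    ∑' z, (starRingEnd ℂ) (g z) * rI I u z = ∑ z ∈ I, (starRingEnd ℂ) (g z) * u z := by
  rw [tsum_eq_sum (s := I)]
  · refine Finset.sum_congr rfl fun z hz => ?_
    unfold rI
    rw [if_pos hz]
  · intro z hz
    unfold rI
    rw [if_neg hz, mul_zero]

/-- the coefficient of the restricted evolution -/
noncomputable def cI (I : Finset (Zd d)) (g : Zd d → ℂ) (E : ℝ) (φ : ℝ → Zd d → ℂ) (s : ℝ) : ℂ :=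
  Complex.exp (Complex.I * E * s) * ∑ z ∈ I, (starRingEnd ℂ) (g z) * φ s z

theorem S_summ (u : Zd d → ℂ) (hu : Summable fun x => ‖u x‖ ^ 2) :
    Summable fun x => ‖S u x‖ ^ 2 := by
  obtain ⟨C, -, h⟩ := S_l2 d
  exact (h u hu).1

theorem Kr_summ (I : Finset (Zd d)) (u : Zd d → ℂ) :
    Summable fun w => ‖Kr I u w‖ ^ 2 := by
  have h1 := S_summ _ (rI_summ I u)
  have h2 := rI_summ I (S u)
  refine Summable.of_nonneg_of_le (fun x => sq_nonneg _) (fun x => ?_)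
    ((h1.mul_left 2).add (h2.mul_left 2))
  unfold Kr
  have h3 := norm_sub_le (S (rI I u) x) (rI I (S u) x)
  have h4 := pow_le_pow_left₀ (norm_nonneg _) h3 2
  nlinarith [sq_nonneg (‖S (rI I u) x‖ - ‖rI I (S u) x‖)]

theorem cI_deriv {y : Zd d} {φ : ℝ → Zd d → ℂ} (h : Sol d V y φ) (I : Finset (Zd d))
    (g : Zd d → ℂ) (hg : Summable fun x => ‖g x‖ ^ 2) (E : ℝ)
    (he : ∀ x ∈ I, -S g x + (V x : ℂ) * g x = (E : ℂ) * g x) (s : ℝ) :
    HasDerivAt (cI I g E φ) (-Complex.I * Complex.exp (Complex.I * E * s) *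
      ∑' w, (starRingEnd ℂ) (g w) * Kr I (φ s) w) s := by
  have h1 : HasDerivAt (fun s : ℝ => Complex.exp (Complex.I * E * s))
      (Complex.exp (Complex.I * E * s) * (Complex.I * E)) s := by
    have h2 : HasDerivAt (fun z : ℂ => Complex.I * E * z) (Complex.I * E) (s : ℂ) := by
      simpa using (hasDerivAt_id (s : ℂ)).const_mul (Complex.I * E)
    exact h2.cexp.comp_ofReal
  have h2 : HasDerivAt (fun s => ∑ z ∈ I, (starRingEnd ℂ) (g z) * φ s z)
      (∑ z ∈ I, (starRingEnd ℂ) (g z) * (-Complex.I * (-S (φ s) z + (V z : ℂ) * φ s z))) s :=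
    HasDerivAt.fun_sum fun z _ => (h.ode s z).const_mul _
  refine (h1.mul h2).congr_deriv ?_
  have hs1 : Summable fun w => (starRingEnd ℂ) (g w) * S (rI I (φ s)) w :=
    summ_mul g _ hg (S_summ _ (rI_summ I (φ s)))
  have hs2 : Summable fun w => (starRingEnd ℂ) (g w) * rI I (S (φ s)) w :=
    summ_mul g _ hg (rI_summ I _)
  have h3 : ∑' w, (starRingEnd ℂ) (g w) * Kr I (φ s) w =
      ∑ z ∈ I, ((starRingEnd ℂ) (S g z) * φ s z - (starRingEnd ℂ) (g z) * S (φ s) z) := by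
    unfold Kr
    simp only [mul_sub]
    rw [hs1.tsum_sub hs2, (Pool.Agent.W788.LD.Spec.symm g (rI I (φ s)) hg (rI_summ I _)).2.2,
      rI_tsum, rI_tsum, Finset.sum_sub_distrib]
  rw [h3, Finset.mul_sum, Finset.mul_sum, Finset.mul_sum, ← Finset.sum_add_distrib]
  refine Finset.sum_congr rfl fun z hz => ?_
  have h4 : (starRingEnd ℂ) (S g z) = (V z : ℂ) * (starRingEnd ℂ) (g z) -
      (E : ℂ) * (starRingEnd ℂ) (g z) := by
    have h5 := congrArg (starRingEnd ℂ) (he z hz)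
    simp only [map_add, map_neg, map_mul, Complex.conj_ofReal] at h5
    linear_combination -h5
  rw [h4]
  ring

theorem Kr_term (I : Finset (Zd d)) (A : Set (Zd d)) (u : Zd d → ℂ) (w z : Zd d)
    (h : ¬ (w ∈ I ↔ z ∈ I) → z ∈ A) :
    ‖rI I u z - (if w ∈ I then u z else 0)‖ ^ 2 ≤ A.indicator (fun z => ‖u z‖ ^ 2) z := by
  have h0 : 0 ≤ A.indicator (fun z => ‖u z‖ ^ 2) z :=
    Set.indicator_nonneg (fun _ _ => sq_nonneg _) z
  unfold rI
  by_cases h1 : w ∈ I <;> by_cases h2 : z ∈ I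
  · rw [if_pos h1, if_pos h2, sub_self, norm_zero]
    simpa using h0
  · have h3 : z ∈ A := h (by tauto)
    rw [if_neg h2, if_pos h1, Set.indicator_of_mem h3, zero_sub, norm_neg]
  · have h3 : z ∈ A := h (by tauto)
    rw [if_pos h2, if_neg h1, Set.indicator_of_mem h3, sub_zero]
  · rw [if_neg h1, if_neg h2, sub_self, norm_zero]
    simpa using h0

theorem Kr_exp (I : Finset (Zd d)) (u : Zd d → ℂ) (w : Zd d) :
    Kr I u w = ∑ i : Fin d, ((rI I u (w + Pi.single i 1) -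
        (if w ∈ I then u (w + Pi.single i 1) else 0)) + (rI I u (w - Pi.single i 1) -
        (if w ∈ I then u (w - Pi.single i 1) else 0))) := by
  have h2 : rI I (S u) w = ∑ i : Fin d, ((if w ∈ I then u (w + Pi.single i 1) else 0) +
      (if w ∈ I then u (w - Pi.single i 1) else 0)) := by
    unfold rI S
    by_cases hw : w ∈ I
    · simp only [if_pos hw]
    · simp only [if_neg hw, add_zero, Finset.sum_const_zero]
  unfold Kr
  rw [h2]
  unfold S
  rw [← Finset.sum_sub_distrib]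
  exact Finset.sum_congr rfl fun i _ => by ring

theorem sq_help (a b p q : ℝ) (h1 : a ^ 2 ≤ p) (h2 : b ^ 2 ≤ q) : (a + b) ^ 2 ≤ 2 * (p + q) := by
  nlinarith [sq_nonneg (a - b)]

theorem Kr_pt (I : Finset (Zd d)) (A : Set (Zd d)) (hA : ∀ w : Zd d, ∀ i : Fin d,
    (¬ (w ∈ I ↔ w + Pi.single i 1 ∈ I) → w + Pi.single i 1 ∈ A) ∧
    (¬ (w ∈ I ↔ w - Pi.single i 1 ∈ I) → w - Pi.single i 1 ∈ A)) (u : Zd d → ℂ)
    (p : Zd d → ℝ) (hp : p = fun z => A.indicator (fun z => ‖u z‖ ^ 2) z) (w : Zd d) :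
    ‖Kr I u w‖ ^ 2 ≤ 2 * d * ∑ i : Fin d, (p (w + Pi.single i 1) + p (w - Pi.single i 1)) := by
  obtain ⟨P, hP⟩ : ∃ P : Fin d → ℝ, P = fun i => ‖rI I u (w + Pi.single i 1) -
    (if w ∈ I then u (w + Pi.single i 1) else 0)‖ := ⟨_, rfl⟩
  obtain ⟨M, hM⟩ : ∃ M : Fin d → ℝ, M = fun i => ‖rI I u (w - Pi.single i 1) -
    (if w ∈ I then u (w - Pi.single i 1) else 0)‖ := ⟨_, rfl⟩
  have h2 : ‖Kr I u w‖ ≤ ∑ i, (P i + M i) := by
    rw [Kr_exp, hP, hM]
    exact (norm_sum_le _ _).trans (Finset.sum_le_sum fun i _ => norm_add_le _ _)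
  have h3 : (∑ i, (P i + M i)) ^ 2 ≤ d * ∑ i, (P i + M i) ^ 2 := by
    have := sq_sum_le_card_mul_sum_sq (s := (Finset.univ : Finset (Fin d)))
      (f := fun i => P i + M i)
    rwa [Finset.card_univ, Fintype.card_fin] at this
  have h4 : ∀ i, (P i + M i) ^ 2 ≤ 2 * (p (w + Pi.single i 1) + p (w - Pi.single i 1)) := by
    intro i
    have h7 : P i ^ 2 ≤ p (w + Pi.single i 1) := by
      rw [hP, hp]
      exact Kr_term I A u w (w + Pi.single i 1) (hA w i).1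
    have h8 : M i ^ 2 ≤ p (w - Pi.single i 1) := by
      rw [hM, hp]
      exact Kr_term I A u w (w - Pi.single i 1) (hA w i).2
    exact sq_help _ _ _ _ h7 h8
  have h5 : ∑ i, (P i + M i) ^ 2 ≤ ∑ i, 2 * (p (w + Pi.single i 1) + p (w - Pi.single i 1)) :=
    Finset.sum_le_sum fun i _ => h4 i
  rw [← Finset.mul_sum] at h5
  calc ‖Kr I u w‖ ^ 2 ≤ (∑ i, (P i + M i)) ^ 2 := pow_le_pow_left₀ (norm_nonneg _) h2 2
    _ ≤ d * ∑ i, (P i + M i) ^ 2 := h3
    _ ≤ d * (2 * ∑ i, (p (w + Pi.single i 1) + p (w - Pi.single i 1))) :=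
        mul_le_mul_of_nonneg_left h5 (Nat.cast_nonneg _)
    _ = _ := by ring

theorem sh_p (p : Zd d → ℝ) (hps : Summable p) (e : Zd d) :
    (Summable fun w => p (w + e)) ∧ ∑' w, p (w + e) = ∑' z, p z :=
  ⟨(Equiv.addRight e).summable_iff.2 hps, (Equiv.addRight e).tsum_eq p⟩

theorem sh_m (p : Zd d → ℝ) (hps : Summable p) (e : Zd d) :
    (Summable fun w => p (w - e)) ∧ ∑' w, p (w - e) = ∑' z, p z := by
  have h := sh_p p hps (-e)
  simp only [← sub_eq_add_neg] at h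
  exact h

theorem sh_s (p : Zd d → ℝ) (hps : Summable p) :
    (Summable fun w : Zd d => ∑ i : Fin d, (p (w + Pi.single i 1) + p (w - Pi.single i 1))) ∧
    ∑' w : Zd d, ∑ i : Fin d, (p (w + Pi.single i 1) + p (w - Pi.single i 1)) = 2 * d * ∑' z, p z := by
  have h1 : ∀ i : Fin d, Summable fun w : Zd d =>
      (p (w + Pi.single i 1) + p (w - Pi.single i 1)) := fun i => (sh_p p hps _).1.add (sh_m p hps _).1
  refine ⟨summable_sum fun i _ => h1 i, ?_⟩
  rw [Summable.tsum_finsetSum fun i _ => h1 i]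
  have h5 : ∀ i : Fin d, ∑' w : Zd d, (p (w + Pi.single i 1) + p (w - Pi.single i 1)) =
      2 * ∑' z, p z := by
    intro i
    rw [(sh_p p hps _).1.tsum_add (sh_m p hps _).1, (sh_p p hps _).2, (sh_m p hps _).2]
    ring
  rw [Finset.sum_congr rfl fun i _ => h5 i, Finset.sum_const, Finset.card_univ, Fintype.card_fin,
    nsmul_eq_mul]
  ring

/-- the size of the commutator -/
theorem Kr_sq (I : Finset (Zd d)) (A : Set (Zd d)) (hA : ∀ w : Zd d, ∀ i : Fin d,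
    (¬ (w ∈ I ↔ w + Pi.single i 1 ∈ I) → w + Pi.single i 1 ∈ A) ∧
    (¬ (w ∈ I ↔ w - Pi.single i 1 ∈ I) → w - Pi.single i 1 ∈ A)) (u : Zd d → ℂ)
    (hu : Summable fun x => ‖u x‖ ^ 2) :
    ∑' w, ‖Kr I u w‖ ^ 2 ≤ (2 * d) ^ 2 * ∑' z, A.indicator (fun z => ‖u z‖ ^ 2) z := by
  obtain ⟨p, hp⟩ : ∃ p : Zd d → ℝ, p = A.indicator (fun z => ‖u z‖ ^ 2) := ⟨_, rfl⟩
  have hps : Summable p := by
    rw [hp]
    exact hu.indicator A
  have h1 := Kr_pt I A hA u p hp
  obtain ⟨h2, h3⟩ := sh_s p hps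
  have h4 := (Kr_summ I u).tsum_le_tsum h1 (h2.mul_left (2 * (d : ℝ)))
  rw [tsum_mul_left, h3] at h4
  rw [← hp]
  refine h4.trans (le_of_eq ?_)
  ring

end Pool.Agent.Q218.AT
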