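import Pool.Agent.Q218.AT.Vol

/-! Functions which satisfy the eigenvalue equation only in the interior of a box: the mass near the
diagonal. -/

set_option autoImplicit false
set_option linter.unusedSectionVars false

open scoped BigOperators Topology InnerProductSpace
open MeasureTheory Filter Set

namespace Pool.Agent.Q218.AT

open Pool.Agent.W788.LD.Spec (S summ_mul summ_shift shiftsum)
open Pool.Agent.H4R2.LO (Zd dd bx)
open Pool.Agent.H4R2.LO.Em (dd_norm mem_bx card_bx dd_comm)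
open Pool.Agent.TH794.QD (Sol HS hmk hmk_apply hs_sum)
open Pool.Agent.Q218.UD
open Pool.Agent.Q218.AD (Phi phi_meas phi_le W_tsum Cw small_rpow hs_inner)

variable {d : ℕ} {V : Zd d → ℝ}

theorem sq_help2 (a b : ℝ) : (a + b) ^ 2 ≤ 2 * a ^ 2 + 2 * b ^ 2 := by
  nlinarith [sq_nonneg (a - b)]

theorem cs_sum {ι : Type*} (F : Finset ι) (p q : ι → ℝ) (P Q : ℝ)
    (hP : 0 ≤ P) (hQ : 0 ≤ Q) (h1 : ∑ j ∈ F, p j ^ 2 ≤ P ^ 2) (h2 : ∑ j ∈ F, q j ^ 2 ≤ Q ^ 2) :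
    ∑ j ∈ F, p j * q j ≤ P * Q := by
  have h3 := Finset.sum_mul_sq_le_sq_mul_sq F p q
  have h4 : (∑ j ∈ F, p j ^ 2) * ∑ j ∈ F, q j ^ 2 ≤ P ^ 2 * Q ^ 2 :=
    mul_le_mul h1 h2 (Finset.sum_nonneg fun j _ => sq_nonneg _) (sq_nonneg _)
  refine le_of_sq_le_sq ?_ (mul_nonneg hP hQ)
  rw [mul_pow]
  exact h3.trans h4

/-- the mean value theorem -/
theorem mv {ι : Type*} (f : ι → HS d) (hf : Orthonormal ℂ f) (F : Finset ι) (c : ι → ℝ → ℂ)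
    (E : ι → ℝ) (k : ℝ → HS d) (hc : ∀ j, ∀ s : ℝ, HasDerivAt (c j)
      (-Complex.I * Complex.exp (Complex.I * E j * s) * ⟪f j, k s⟫_ℂ) s)
    (M T : ℝ) (hM0 : 0 ≤ M) (hM : ∀ s ∈ Set.Icc (0 : ℝ) T, ‖k s‖ ≤ M) (t : ℝ)
    (ht : t ∈ Set.Icc (0 : ℝ) T) :
    ∑ j ∈ F, ‖c j t - c j 0‖ ^ 2 ≤ (M * t) ^ 2 := by
  have hS0 : 0 ≤ ∑ j ∈ F, ‖c j t - c j 0‖ ^ 2 := Finset.sum_nonneg fun j _ => sq_nonneg _
  obtain ⟨N, hN⟩ : ∃ N, N = Real.sqrt (∑ j ∈ F, ‖c j t - c j 0‖ ^ 2) := ⟨_, rfl⟩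
  have hN0 : 0 ≤ N := by rw [hN]; exact Real.sqrt_nonneg _
  have hN2 : ∑ j ∈ F, ‖c j t - c j 0‖ ^ 2 = N ^ 2 := by rw [hN, Real.sq_sqrt hS0]
  obtain ⟨g, hg⟩ : ∃ g : ℝ → ℂ, g = fun s => ∑ j ∈ F,
    (starRingEnd ℂ) (c j t - c j 0) * c j s := ⟨_, rfl⟩
  obtain ⟨g', hg'⟩ : ∃ g' : ℝ → ℂ, g' = fun s : ℝ => ∑ j ∈ F, (starRingEnd ℂ) (c j t - c j 0) *
    (-Complex.I * Complex.exp (Complex.I * E j * s) * ⟪f j, k s⟫_ℂ) := ⟨_, rfl⟩
  have hgd : ∀ s, HasDerivAt g (g' s) s := by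
    intro s
    rw [hg, hg']
    exact HasDerivAt.fun_sum fun j _ => (hc j s).const_mul _
  have hb : ∀ s ∈ Set.Ico (0 : ℝ) t, ‖g' s‖ ≤ N * M := by
    intro s hs
    have h1 : ‖g' s‖ ≤ ∑ j ∈ F, ‖c j t - c j 0‖ * ‖⟪f j, k s⟫_ℂ‖ := by
      rw [hg']
      refine (norm_sum_le _ _).trans (Finset.sum_le_sum fun j _ => le_of_eq ?_)
      have h2 : Complex.I * (E j : ℂ) * (s : ℂ) = ((E j * s : ℝ) : ℂ) * Complex.I := by
        push_cast
        ring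
      rw [norm_mul, norm_mul, norm_mul, norm_neg, Complex.norm_I, Complex.norm_conj, h2,
        Complex.norm_exp_ofReal_mul_I, one_mul, one_mul]
    refine h1.trans (cs_sum F _ _ N M hN0 hM0 hN2.le ?_)
    refine (hf.sum_inner_products_le (k s)).trans ?_
    exact pow_le_pow_left₀ (norm_nonneg _) (hM s ⟨hs.1, hs.2.le.trans ht.2⟩) 2
  have h2 := norm_image_sub_le_of_norm_deriv_le_segment' (f := g) (f' := g') (C := N * M)
    (fun s _ => (hgd s).hasDerivWithinAt) hb t ⟨ht.1, le_rfl⟩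
  have h3 : g t - g 0 = ((N ^ 2 : ℝ) : ℂ) := by
    rw [hg]
    simp only
    rw [← Finset.sum_sub_distrib, ← hN2]
    push_cast
    refine Finset.sum_congr rfl fun j _ => ?_
    rw [← mul_sub, Complex.conj_mul']
  rw [h3, Complex.norm_real, Real.norm_of_nonneg (sq_nonneg _), sub_zero] at h2
  rw [hN2]
  rcases hN0.eq_or_lt with h4 | h4
  · rw [← h4]
    simp only [ne_eq, OfNat.ofNat_ne_zero, not_false_eq_true, zero_pow]
    positivity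
  · have h5 : N * N ≤ N * (M * t) := by
      calc N * N = N ^ 2 := (sq N).symm
        _ ≤ N * M * t := h2
        _ = _ := by ring
    exact pow_le_pow_left₀ hN0 (le_of_mul_le_mul_left h5 h4) 2

/-- squares of close vectors -/
theorem cs_diff {ι : Type*} (F : Finset ι) (α β : ι → ℂ) (δ2 : ℝ)
    (h1 : ∑ j ∈ F, ‖α j - β j‖ ^ 2 ≤ δ2) (h2 : ∑ j ∈ F, ‖α j‖ ^ 2 ≤ 1)
    (h3 : ∑ j ∈ F, ‖β j‖ ^ 2 ≤ 1) : ∑ j ∈ F, |‖α j‖ ^ 2 - ‖β j‖ ^ 2| ≤ 2 * Real.sqrt δ2 := by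
  have hδ : 0 ≤ δ2 := le_trans (Finset.sum_nonneg fun j _ => sq_nonneg _) h1
  have h4 : ∀ j, |‖α j‖ ^ 2 - ‖β j‖ ^ 2| ≤ ‖α j - β j‖ * (‖α j‖ + ‖β j‖) := by
    intro j
    have h5 : ‖α j‖ ^ 2 - ‖β j‖ ^ 2 = (‖α j‖ - ‖β j‖) * (‖α j‖ + ‖β j‖) := by ring
    rw [h5, abs_mul, abs_of_nonneg (by positivity : 0 ≤ ‖α j‖ + ‖β j‖)]
    exact mul_le_mul_of_nonneg_right (abs_norm_sub_norm_le _ _) (by positivity)
  refine (Finset.sum_le_sum fun j _ => h4 j).trans ?_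
  rw [mul_comm]
  refine cs_sum F _ _ (Real.sqrt δ2) 2 (Real.sqrt_nonneg _) (by norm_num) ?_ ?_
  · rw [Real.sq_sqrt hδ]
    exact h1
  · have h5 : ∀ j ∈ F, (‖α j‖ + ‖β j‖) ^ 2 ≤ 2 * ‖α j‖ ^ 2 + 2 * ‖β j‖ ^ 2 := fun j _ => by
      nlinarith [sq_nonneg (‖α j‖ - ‖β j‖)]
    refine (Finset.sum_le_sum h5).trans ?_
    rw [Finset.sum_add_distrib, ← Finset.mul_sum, ← Finset.mul_sum]
    linarith

variable {ψ : Zd d → ℝ → Zd d → ℂ}

theorem uu_sq (hψ : ∀ a, Sol d V a (ψ a)) (a : Zd d) (t : ℝ) : ‖uu hψ a t‖ ^ 2 = 1 := by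
  have h1 := hs_sum (uu hψ a t)
  exact h1.unique ((hψ a).norm t)

theorem uu_one (hψ : ∀ a, Sol d V a (ψ a)) (a : Zd d) (t : ℝ) : ‖uu hψ a t‖ = 1 :=
  (pow_eq_one_iff_of_nonneg (norm_nonneg _) two_ne_zero).1 (uu_sq hψ a t)

theorem uu_ortho (hd : 1 ≤ d) (hψ : ∀ a, Sol d V a (ψ a)) (t : ℝ) :
    Orthonormal ℂ fun a => uu hψ a t := by
  refine ⟨fun a => uu_one hψ a t, fun x y hxy => ?_⟩
  simp only
  rw [uu_inner hd hψ, sub_self, (hψ y).init, if_neg hxy]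

/-- the restriction of the evolution -/
noncomputable def uI (ψ : Zd d → ℝ → Zd d → ℂ) (I : Finset (Zd d)) (a : Zd d) (t : ℝ) : HS d :=
  hmk (rI I (ψ a t)) (rI_summ I _)

/-- the commutator -/
noncomputable def uK (ψ : Zd d → ℝ → Zd d → ℂ) (I : Finset (Zd d)) (a : Zd d) (t : ℝ) : HS d :=
  hmk (Kr I (ψ a t)) (Kr_summ I _)

theorem uI_inner (I : Finset (Zd d)) (a : Zd d) (t : ℝ) (g : HS d) :
    ⟪g, uI ψ I a t⟫_ℂ = ∑ z ∈ I, (starRingEnd ℂ) (g z) * ψ a t z := by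
  rw [← rI_tsum]
  exact (hs_inner g (uI ψ I a t)).tsum_eq.symm

theorem uK_inner (I : Finset (Zd d)) (a : Zd d) (t : ℝ) (g : HS d) :
    ⟪g, uK ψ I a t⟫_ℂ = ∑' w, (starRingEnd ℂ) (g w) * Kr I (ψ a t) w :=
  (hs_inner g (uK ψ I a t)).tsum_eq.symm

theorem rest_sq (hψ : ∀ a, Sol d V a (ψ a)) (I : Finset (Zd d)) (A : Set (Zd d))
    (hA : ∀ z, z ∉ I → z ∈ A) (a : Zd d) (t : ℝ) :
    ‖uu hψ a t - uI ψ I a t‖ ^ 2 ≤ ∑' z, A.indicator (fun z => ‖ψ a t z‖ ^ 2) z := by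
  have h1 := hs_sum (uu hψ a t - uI ψ I a t)
  rw [← h1.tsum_eq]
  refine h1.summable.tsum_le_tsum (fun z => ?_) (((hψ a).norm t).summable.indicator A)
  have h2 : (uu hψ a t - uI ψ I a t) z = ψ a t z - rI I (ψ a t) z := rfl
  rw [h2]
  unfold rI
  by_cases hz : z ∈ I
  · rw [if_pos hz, sub_self, norm_zero]
    have := Set.indicator_nonneg (s := A) (f := fun z => ‖ψ a t z‖ ^ 2)
      (fun _ _ => sq_nonneg _) z
    simpa using this
  · rw [if_neg hz, Set.indicator_of_mem (hA z hz), sub_zero]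

/-- one starting point in the interior -/
theorem deep (hψ : ∀ a, Sol d V a (ψ a)) (I : Finset (Zd d)) (A : Set (Zd d))
    (hA1 : ∀ w : Zd d, ∀ i : Fin d,
    (¬ (w ∈ I ↔ w + Pi.single i 1 ∈ I) → w + Pi.single i 1 ∈ A) ∧
    (¬ (w ∈ I ↔ w - Pi.single i 1 ∈ I) → w - Pi.single i 1 ∈ A))
    (hA2 : ∀ z, z ∉ I → z ∈ A) (a : Zd d) (ha : a ∈ I) (T εo : ℝ) (hεo : 0 ≤ εo)
    (hout : ∀ t ∈ Set.Icc (0 : ℝ) T, ∑' z, A.indicator (fun z => ‖ψ a t z‖ ^ 2) z ≤ εo)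
    {ι : Type*} (f : ι → HS d) (hf : Orthonormal ℂ f) (E : ι → ℝ)
    (he : ∀ j, ∀ x ∈ I, -S (fun y => f j y) x + (V x : ℂ) * f j x = (E j : ℂ) * f j x)
    (F : Finset ι) (t : ℝ) (ht : t ∈ Set.Icc (0 : ℝ) T) :
    ∑ j ∈ F, |‖⟪f j, uu hψ a t⟫_ℂ‖ ^ 2 - ‖f j a‖ ^ 2| ≤
      2 * Real.sqrt (2 * ((2 * d * T) ^ 2 + 1) * εo) := by
  have hT0 : 0 ≤ T := ht.1.trans ht.2
  -- the restricted evolution
  have hk : ∀ s ∈ Set.Icc (0 : ℝ) T, ‖uK ψ I a s‖ ≤ 2 * d * Real.sqrt εo := by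
    intro s hs
    refine le_of_sq_le_sq ?_ (by positivity)
    rw [mul_pow, Real.sq_sqrt hεo]
    have h1 := hs_sum (uK ψ I a s)
    rw [← h1.tsum_eq]
    refine (Kr_sq I A hA1 (ψ a s) ((hψ a).norm s).summable).trans ?_
    exact mul_le_mul_of_nonneg_left (hout s hs) (sq_nonneg _)
  have h1 := mv f hf F (fun j => cI I (fun y => f j y) (E j) (ψ a)) E (uK ψ I a)
    (fun j s => by
      rw [uK_inner]
      exact cI_deriv (hψ a) I (fun y => f j y) (hs_sum (f j)).summable (E j) (he j) s)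
    (2 * d * Real.sqrt εo) T (by positivity) hk t ht
  have h2 : (2 * d * Real.sqrt εo * t) ^ 2 ≤ (2 * d * T) ^ 2 * εo := by
    have h3 : (2 * d * Real.sqrt εo * t) ^ 2 = (2 * d * t) ^ 2 * εo := by
      have := Real.sq_sqrt hεo
      calc (2 * d * Real.sqrt εo * t) ^ 2 = (2 * d * t) ^ 2 * (Real.sqrt εo) ^ 2 := by ring
        _ = _ := by rw [this]
    rw [h3]
    refine mul_le_mul_of_nonneg_right ?_ hεo
    refine pow_le_pow_left₀ (by have := ht.1; positivity) ?_ 2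
    exact mul_le_mul_of_nonneg_left ht.2 (by positivity)
  -- the rest
  have h3 := hf.sum_inner_products_le (uu hψ a t - uI ψ I a t) (s := F)
  have h4 := (rest_sq hψ I A hA2 a t).trans (hout t ht)
  obtain ⟨w, hw⟩ : ∃ w : ι → ℂ, w = fun j => Complex.exp (Complex.I * E j * t) := ⟨_, rfl⟩
  have hw1 : ∀ j, ‖w j‖ = 1 := by
    intro j
    rw [hw]
    simp only
    have h2 : Complex.I * (E j : ℂ) * (t : ℂ) = ((E j * t : ℝ) : ℂ) * Complex.I := by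
      push_cast
      ring
    rw [h2, Complex.norm_exp_ofReal_mul_I]
  have h5 : ∀ j, cI I (fun y => f j y) (E j) (ψ a) t = w j * ⟪f j, uI ψ I a t⟫_ℂ := by
    intro j
    rw [uI_inner, hw]
    rfl
  have h6 : ∀ j, cI I (fun y => f j y) (E j) (ψ a) 0 = (starRingEnd ℂ) (f j a) := by
    intro j
    unfold cI
    rw [Complex.ofReal_zero, mul_zero, Complex.exp_zero, one_mul,
      Finset.sum_eq_single_of_mem a ha]
    · rw [(hψ a).init, if_pos rfl, mul_one]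
    · intro z _ hz
      rw [(hψ a).init, if_neg hz, mul_zero]
  have key := cs_diff F (fun j => w j * ⟪f j, uu hψ a t⟫_ℂ) (fun j => (starRingEnd ℂ) (f j a))
    (2 * ((2 * d * T) ^ 2 + 1) * εo) ?_ ?_ ?_
  · simp only [norm_mul, hw1, one_mul, Complex.norm_conj] at key
    exact key
  · have h7 : ∀ j ∈ F, ‖w j * ⟪f j, uu hψ a t⟫_ℂ - (starRingEnd ℂ) (f j a)‖ ^ 2 ≤
        2 * ‖cI I (fun y => f j y) (E j) (ψ a) t - cI I (fun y => f j y) (E j) (ψ a) 0‖ ^ 2 +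
        2 * ‖⟪f j, uu hψ a t - uI ψ I a t⟫_ℂ‖ ^ 2 := by
      intro j _
      have h8 : w j * ⟪f j, uu hψ a t⟫_ℂ - (starRingEnd ℂ) (f j a) =
          (cI I (fun y => f j y) (E j) (ψ a) t - cI I (fun y => f j y) (E j) (ψ a) 0) +
          w j * ⟪f j, uu hψ a t - uI ψ I a t⟫_ℂ := by
        rw [h5, h6, inner_sub_right]
        ring
      rw [h8]
      have h9 := norm_add_le (cI I (fun y => f j y) (E j) (ψ a) t -
        cI I (fun y => f j y) (E j) (ψ a) 0) (w j * ⟪f j, uu hψ a t - uI ψ I a t⟫_ℂ)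
      rw [norm_mul (w j), hw1, one_mul] at h9
      have h10 := pow_le_pow_left₀ (norm_nonneg _) h9 2
      refine h10.trans (sq_help2 _ _)
    refine (Finset.sum_le_sum h7).trans ?_
    rw [Finset.sum_add_distrib, ← Finset.mul_sum, ← Finset.mul_sum]
    linarith
  · simp only [norm_mul, hw1, one_mul]
    have h7 := hf.sum_inner_products_le (uu hψ a t) (s := F)
    rw [uu_sq] at h7
    exact h7
  · simp only [Complex.norm_conj]
    have h7 := hf.sum_inner_products_le (dl a) (s := F)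
    have h8 : ∀ j, ‖⟪f j, dl a⟫_ℂ‖ = ‖f j a‖ := fun j => by
      rw [norm_inner_symm, dl_inner]
    have h9 : ‖dl a‖ ^ 2 = 1 := (hs_sum (dl a)).unique (dl_sum a)
    simp only [h8] at h7
    rw [h9] at h7
    exact h7

end Pool.Agent.Q218.AT
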