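import Pool.Agent.Q218.AT.Vol2

/-! Functions which satisfy the eigenvalue equation only in the interior of a box: the conclusion. -/

set_option autoImplicit false
set_option linter.unusedSectionVars false

open scoped BigOperators Topology InnerProductSpace
open MeasureTheory Filter Set

namespace Pool.Agent.Q218.AT

open Pool.Agent.W788.LD.Spec (S summ_mul summ_shift shiftsum)
open Pool.Agent.H4R2.LO (Zd dd bx)
open Pool.Agent.H4R2.LO.Em (dd_norm mem_bx card_bx dd_comm)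
open Pool.Agent.TH794.QD (Sol HS hmk hmk_apply hs_sum)
open Pool.Agent.Q218.UD
open Pool.Agent.Q218.AD (Phi phi_meas phi_le W_tsum Cw small_rpow hs_inner)

variable {d : ℕ} {V : Zd d → ℝ} {ψ : Zd d → ℝ → Zd d → ℂ}

/-- the difference of the weights -/
noncomputable def Dj (hψ : ∀ a, Sol d V a (ψ a)) (Λ : Finset (Zd d)) (g : HS d) (t : ℝ) : ℝ :=
  ∑ x ∈ Λ, |‖⟪g, uu hψ x t⟫_ℂ‖ ^ 2 - ‖g x‖ ^ 2|

theorem ab_le (a b : ℝ) (ha : 0 ≤ a) (hb : 0 ≤ b) : |a - b| ≤ a + b := by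
  rw [abs_le]
  constructor <;> linarith

theorem gx_le (Λ : Finset (Zd d)) (g : HS d) (hg : ‖g‖ = 1) : ∑ x ∈ Λ, ‖g x‖ ^ 2 ≤ 1 := by
  have h1 := hs_sum g
  rw [hg, one_pow] at h1
  exact (h1.summable.sum_le_tsum Λ fun x _ => sq_nonneg _).trans (le_of_eq h1.tsum_eq)

theorem gu_le (hd : 1 ≤ d) (hψ : ∀ a, Sol d V a (ψ a)) (Λ : Finset (Zd d)) (g : HS d)
    (hg : ‖g‖ = 1) (t : ℝ) : ∑ x ∈ Λ, ‖⟪g, uu hψ x t⟫_ℂ‖ ^ 2 ≤ 1 := by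
  have h1 := (uu_ortho hd hψ t).sum_inner_products_le g (s := Λ)
  rw [hg, one_pow] at h1
  refine le_trans (Finset.sum_le_sum fun x _ => le_of_eq ?_) h1
  rw [norm_inner_symm]

theorem Dj_le (hd : 1 ≤ d) (hψ : ∀ a, Sol d V a (ψ a)) (Λ : Finset (Zd d)) (g : HS d)
    (hg : ‖g‖ = 1) (t : ℝ) : 0 ≤ Dj hψ Λ g t ∧ Dj hψ Λ g t ≤ 2 := by
  unfold Dj
  refine ⟨Finset.sum_nonneg fun x _ => abs_nonneg _, ?_⟩
  have h1 : ∀ x ∈ Λ, |‖⟪g, uu hψ x t⟫_ℂ‖ ^ 2 - ‖g x‖ ^ 2| ≤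
      ‖⟪g, uu hψ x t⟫_ℂ‖ ^ 2 + ‖g x‖ ^ 2 := by
    intro x _
    exact ab_le _ _ (sq_nonneg _) (sq_nonneg _)
  refine (Finset.sum_le_sum h1).trans ?_
  rw [Finset.sum_add_distrib]
  linarith [gx_le Λ g hg, gu_le hd hψ Λ g hg t]

theorem gu_cont (hd : 1 ≤ d) (hψ : ∀ a, Sol d V a (ψ a)) (g : HS d) (x : Zd d) :
    Continuous fun t => ‖⟪g, uu hψ x t⟫_ℂ‖ ^ 2 := by
  have h1 : ∀ t, ‖⟪g, uu hψ x t⟫_ℂ‖ ^ 2 = (⟪vv g, vv (uu hψ x t)⟫_ℂ).re := fun t => by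
    rw [vv_inner, Complex.ofReal_re]
  simp only [h1]
  exact Complex.continuous_re.comp (continuous_const.inner (vv_cont hd hψ x))

theorem Dj_cont (hd : 1 ≤ d) (hψ : ∀ a, Sol d V a (ψ a)) (Λ : Finset (Zd d)) (g : HS d) :
    Continuous (Dj hψ Λ g) := by
  unfold Dj
  exact continuous_finsetSum _ fun x _ => ((gu_cont hd hψ g x).sub continuous_const).abs

/-- the sum over the family -/
theorem Dj_sum (hψ : ∀ a, Sol d V a (ψ a)) (Λ Λ' : Finset (Zd d)) (hΛ : Λ' ⊆ Λ)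
    {ι : Type*} (f : ι → HS d) (hf : Orthonormal ℂ f) (F : Finset ι) (t δ : ℝ) (hδ : 0 ≤ δ)
    (hdeep : ∀ a ∈ Λ', ∑ j ∈ F, |‖⟪f j, uu hψ a t⟫_ℂ‖ ^ 2 - ‖f j a‖ ^ 2| ≤ δ) :
    ∑ j ∈ F, Dj hψ Λ (f j) t ≤ δ * Λ.card + 2 * ((Λ \ Λ').card : ℝ) := by
  unfold Dj
  rw [Finset.sum_comm, ← Finset.sum_sdiff hΛ]
  have h1 : ∑ x ∈ Λ \ Λ', ∑ j ∈ F, |‖⟪f j, uu hψ x t⟫_ℂ‖ ^ 2 - ‖f j x‖ ^ 2| ≤
      2 * ((Λ \ Λ').card : ℝ) := by
    have h2 : ∀ x ∈ Λ \ Λ', ∑ j ∈ F, |‖⟪f j, uu hψ x t⟫_ℂ‖ ^ 2 - ‖f j x‖ ^ 2| ≤ 2 := by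
      intro x _
      have h3 : ∀ j ∈ F, |‖⟪f j, uu hψ x t⟫_ℂ‖ ^ 2 - ‖f j x‖ ^ 2| ≤
          ‖⟪f j, uu hψ x t⟫_ℂ‖ ^ 2 + ‖f j x‖ ^ 2 := by
        intro j _
        exact ab_le _ _ (sq_nonneg _) (sq_nonneg _)
      refine (Finset.sum_le_sum h3).trans ?_
      rw [Finset.sum_add_distrib]
      have h4 := hf.sum_inner_products_le (uu hψ x t) (s := F)
      rw [uu_sq] at h4
      have h7 := hf.sum_inner_products_le (dl x) (s := F)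
      have h8 : ∀ j, ‖⟪f j, dl x⟫_ℂ‖ = ‖f j x‖ := fun j => by
        rw [norm_inner_symm, dl_inner]
      have h9 : ‖dl x‖ ^ 2 = 1 := (hs_sum (dl x)).unique (dl_sum x)
      simp only [h8] at h7
      rw [h9] at h7
      linarith
    refine (Finset.sum_le_sum h2).trans (le_of_eq ?_)
    rw [Finset.sum_const, nsmul_eq_mul, mul_comm]
  have h2 : ∑ x ∈ Λ', ∑ j ∈ F, |‖⟪f j, uu hψ x t⟫_ℂ‖ ^ 2 - ‖f j x‖ ^ 2| ≤ δ * Λ.card := by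
    refine (Finset.sum_le_sum hdeep).trans ?_
    rw [Finset.sum_const, nsmul_eq_mul, mul_comm]
    refine mul_le_mul_of_nonneg_left ?_ hδ
    exact_mod_cast Finset.card_le_card hΛ
  linarith

/-- **the Bessel inequality for approximate eigenfunctions** -/
theorem Ob_app (hd : 1 ≤ d) (hψ : ∀ a, Sol d V a (ψ a)) (Λ : Finset (Zd d)) (c : Zd d → ℂ)
    (hc : ∀ x, ‖c x‖ ≤ 1) {ι : Type*} (f : ι → HS d) (hf : Orthonormal ℂ f) (T B : ℝ)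
    (hT : 0 ≤ T) (F : Finset ι) (hB : ∀ t ∈ Set.Icc (0 : ℝ) T, ∑ j ∈ F, Dj hψ Λ (f j) t ≤ B) :
    ∑ j ∈ F, ‖∑ x ∈ Λ, c x * ((‖f j x‖ ^ 2 : ℝ) : ℂ)‖ ^ 2 ≤
      2 * (∫ u in (0 : ℝ)..1, 2 * (1 - u) * (Sc ψ Λ c (u * T)).re) + 4 * B := by
  have hOc : Continuous fun s => Ob hψ Λ c (s * T) := (Ob_cont hd hψ Λ c).comp (by fun_prop)
  have hDc : ∀ j, Continuous fun s => Dj hψ Λ (f j) (s * T) := fun j =>
    (Dj_cont hd hψ Λ (f j)).comp (by fun_prop)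
  have h1 : ∀ j, ⟪vv (f j), Bm (Ob hψ Λ c) T⟫_ℂ =
      ∫ s in (0 : ℝ)..1, ⟪vv (f j), Ob hψ Λ c (s * T)⟫_ℂ := by
    intro j
    unfold Bm
    exact inner_int _ hOc 0 1 zero_le_one _
  have h2 : ∀ j t, ‖⟪vv (f j), Ob hψ Λ c t⟫_ℂ - ∑ x ∈ Λ, c x * ((‖f j x‖ ^ 2 : ℝ) : ℂ)‖ ≤
      Dj hψ Λ (f j) t := by
    intro j t
    unfold Ob Dj
    rw [inner_sum, ← Finset.sum_sub_distrib]
    refine (norm_sum_le _ _).trans (Finset.sum_le_sum fun x _ => ?_)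
    rw [inner_smul_right, vv_inner, ← mul_sub, norm_mul, ← Complex.ofReal_sub, Complex.norm_real,
      Real.norm_eq_abs]
    exact mul_le_of_le_one_left (abs_nonneg _) (hc x)
  have h3 : ∀ j, ‖∑ x ∈ Λ, c x * ((‖f j x‖ ^ 2 : ℝ) : ℂ)‖ ≤ ‖⟪vv (f j), Bm (Ob hψ Λ c) T⟫_ℂ‖ +
      ∫ s in (0 : ℝ)..1, Dj hψ Λ (f j) (s * T) := by
    intro j
    obtain ⟨q, hq⟩ : ∃ q, q = ∑ x ∈ Λ, c x * ((‖f j x‖ ^ 2 : ℝ) : ℂ) := ⟨_, rfl⟩
    have hPc : Continuous fun s => ⟪vv (f j), Ob hψ Λ c (s * T)⟫_ℂ := continuous_const.inner hOc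
    have h4 : ‖(∫ s in (0 : ℝ)..1, ⟪vv (f j), Ob hψ Λ c (s * T)⟫_ℂ) - q‖ ≤
        ∫ s in (0 : ℝ)..1, Dj hψ Λ (f j) (s * T) := by
      have h5 : (∫ s in (0 : ℝ)..1, ⟪vv (f j), Ob hψ Λ c (s * T)⟫_ℂ) - q =
          ∫ s in (0 : ℝ)..1, (⟪vv (f j), Ob hψ Λ c (s * T)⟫_ℂ - q) := by
        rw [intervalIntegral.integral_sub (hPc.intervalIntegrable _ _)
          (continuous_const.intervalIntegrable _ _)]
        simp
      rw [h5]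
      refine intervalIntegral.norm_integral_le_of_norm_le zero_le_one
        (Filter.Eventually.of_forall fun s _ => ?_) ((hDc j).intervalIntegrable _ _)
      rw [hq]
      exact h2 j (s * T)
    rw [h1, ← hq]
    have h5 := norm_sub_rev (∫ s in (0 : ℝ)..1, ⟪vv (f j), Ob hψ Λ c (s * T)⟫_ℂ) q
    have h6 := norm_le_norm_sub_add q (∫ s in (0 : ℝ)..1, ⟪vv (f j), Ob hψ Λ c (s * T)⟫_ℂ)
    linarith
  have h4 : ∀ j, 0 ≤ ∫ s in (0 : ℝ)..1, Dj hψ Λ (f j) (s * T) := fun j =>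
    intervalIntegral.integral_nonneg zero_le_one fun s _ => (Dj_le hd hψ Λ (f j) (hf.1 j) _).1
  have h5 : ∀ j, ∫ s in (0 : ℝ)..1, Dj hψ Λ (f j) (s * T) ≤ 2 := by
    intro j
    have h6 := intervalIntegral.integral_mono_on (a := 0) (b := 1) zero_le_one
      ((hDc j).intervalIntegrable _ _) (continuous_const.intervalIntegrable (μ := volume) 0 1)
      (fun s _ => (Dj_le hd hψ Λ (f j) (hf.1 j) (s * T)).2)
    refine h6.trans (le_of_eq ?_)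
    simp
  have h6 : ∀ j ∈ F, ‖∑ x ∈ Λ, c x * ((‖f j x‖ ^ 2 : ℝ) : ℂ)‖ ^ 2 ≤
      2 * ‖⟪vv (f j), Bm (Ob hψ Λ c) T⟫_ℂ‖ ^ 2 +
        4 * ∫ s in (0 : ℝ)..1, Dj hψ Λ (f j) (s * T) := by
    intro j _
    have h7 := pow_le_pow_left₀ (norm_nonneg _) (h3 j) 2
    have h8 := sq_help2 ‖⟪vv (f j), Bm (Ob hψ Λ c) T⟫_ℂ‖
      (∫ s in (0 : ℝ)..1, Dj hψ Λ (f j) (s * T))
    have h9 : (∫ s in (0 : ℝ)..1, Dj hψ Λ (f j) (s * T)) ^ 2 ≤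
        2 * ∫ s in (0 : ℝ)..1, Dj hψ Λ (f j) (s * T) := by
      rw [sq]
      exact mul_le_mul_of_nonneg_right (h5 j) (h4 j)
    linarith
  refine (Finset.sum_le_sum h6).trans ?_
  rw [Finset.sum_add_distrib, ← Finset.mul_sum, ← Finset.mul_sum]
  have h7 := (vv_ortho f hf).sum_inner_products_le (Bm (Ob hψ Λ c) T) (s := F)
  rw [Ob_sq hd hψ] at h7
  have h8 : ∑ j ∈ F, ∫ s in (0 : ℝ)..1, Dj hψ Λ (f j) (s * T) ≤ B := by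
    rw [← intervalIntegral.integral_finsetSum fun j _ => (hDc j).intervalIntegrable _ _]
    have h9 := intervalIntegral.integral_mono_on (a := 0) (b := 1) zero_le_one
      ((continuous_finsetSum F fun j _ => hDc j).intervalIntegrable _ _)
      (continuous_const.intervalIntegrable (μ := volume) 0 1)
      (fun s hs => hB (s * T) ⟨mul_nonneg hs.1 hT, mul_le_of_le_one_left hT hs.2⟩)
    refine h9.trans (le_of_eq ?_)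
    simp
  linarith

/-- **approximate eigenfunctions: the mass near the diagonal** -/
theorem eigA (hd : 1 ≤ d) (hψ : ∀ a, Sol d V a (ψ a)) (Λ : Finset (Zd d)) (θ0 : ℝ)
    (hθ0 : 0 ≤ θ0) (i0 : Fin d) (N : ℕ) (hN : 1 ≤ N) (R T ε1 B1 : ℝ) (hR : θ0 * R * N ≤ 1)
    (hT : 0 ≤ T) (hε1 : 0 ≤ ε1) (hB1 : 0 ≤ B1)
    (hyp : ∀ k ∈ Finset.range N, ∀ l ∈ Finset.range N, k ≠ l →
      ∫ u in (0 : ℝ)..1, 2 * (1 - u) * (Sc ψ Λ (ckl θ0 i0 k l) (u * T)).re ≤ ε1 * Λ.card)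
    {ι : Type*} (f : ι → HS d) (hf : Orthonormal ℂ f) (F : Finset ι)
    (hB : ∀ t ∈ Set.Icc (0 : ℝ) T, ∑ j ∈ F, Dj hψ Λ (f j) t ≤ B1 * Λ.card) :
    ∑ j ∈ F, ∑ x ∈ Λ, ∑ y ∈ Λ, (if ‖x - y‖ ≤ R then ‖f j x‖ ^ 2 * ‖f j y‖ ^ 2 else 0) ≤
      (4 / N + 4 * (2 * ε1 + 4 * B1)) * Λ.card := by
  have hN0 : (0 : ℝ) < N := by exact_mod_cast hN
  have hcard : (0 : ℝ) ≤ (Λ.card : ℝ) := Nat.cast_nonneg _
  have h1 : (N : ℝ) ^ 2 / 4 * ∑ j ∈ F, ∑ x ∈ Λ, ∑ y ∈ Λ,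
      (if ‖x - y‖ ≤ R then ‖f j x‖ ^ 2 * ‖f j y‖ ^ 2 else 0) ≤
      ∑ j ∈ F, ∑ k ∈ Finset.range N, ∑ l ∈ Finset.range N,
        ‖∑ x ∈ Λ, ckl θ0 i0 k l x * ((‖f j x‖ ^ 2 : ℝ) : ℂ)‖ ^ 2 := by
    rw [Finset.mul_sum]
    refine Finset.sum_le_sum fun j _ => ?_
    refine (fej_sum θ0 hθ0 i0 N R hR Λ (fun x y => ‖f j x‖ ^ 2 * ‖f j y‖ ^ 2)
        fun x y => by positivity).trans (le_of_eq ?_)
    refine Finset.sum_congr rfl fun k _ => Finset.sum_congr rfl fun l _ => ?_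
    have h2 : ∑ x ∈ Λ, ∑ y ∈ Λ, (starRingEnd ℂ) (ckl θ0 i0 k l x) * ckl θ0 i0 k l y *
        ((‖f j x‖ ^ 2 * ‖f j y‖ ^ 2 : ℝ) : ℂ) =
        ((‖∑ x ∈ Λ, ckl θ0 i0 k l x * ((‖f j x‖ ^ 2 : ℝ) : ℂ)‖ ^ 2 : ℝ) : ℂ) := by
      rw [← Complex.normSq_eq_norm_sq, Complex.normSq_eq_conj_mul_self, map_sum,
        Finset.sum_mul_sum]
      refine Finset.sum_congr rfl fun x _ => Finset.sum_congr rfl fun y _ => ?_
      rw [map_mul, Complex.conj_ofReal]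
      push_cast
      ring
    rw [h2, Complex.ofReal_re]
  have h2 : ∀ k ∈ Finset.range N, ∀ l ∈ Finset.range N, ∑ j ∈ F,
      ‖∑ x ∈ Λ, ckl θ0 i0 k l x * ((‖f j x‖ ^ 2 : ℝ) : ℂ)‖ ^ 2 ≤
      (if l = k then (Λ.card : ℝ) else 0) + (2 * ε1 + 4 * B1) * Λ.card := by
    intro k hk l hl
    by_cases hlk : l = k
    · rw [if_pos hlk, hlk]
      have h3 : ∀ j ∈ F, ‖∑ x ∈ Λ, ckl θ0 i0 k k x * ((‖f j x‖ ^ 2 : ℝ) : ℂ)‖ ^ 2 ≤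
          ∑ x ∈ Λ, ‖f j x‖ ^ 2 := by
        intro j _
        have h4 := gx_le Λ (f j) (hf.1 j)
        have h5 : ‖∑ x ∈ Λ, ckl θ0 i0 k k x * ((‖f j x‖ ^ 2 : ℝ) : ℂ)‖ ≤
            ∑ x ∈ Λ, ‖f j x‖ ^ 2 := by
          refine (norm_sum_le _ _).trans (Finset.sum_le_sum fun x _ => le_of_eq ?_)
          rw [norm_mul, ckl_norm, one_mul, Complex.norm_real, Real.norm_of_nonneg (sq_nonneg _)]
        have h6 := pow_le_pow_left₀ (norm_nonneg _) h5 2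
        refine h6.trans ?_
        rw [sq]
        exact mul_le_of_le_one_left (Finset.sum_nonneg fun x _ => sq_nonneg _) h4
      have h4 : ∑ j ∈ F, ∑ x ∈ Λ, ‖f j x‖ ^ 2 ≤ (Λ.card : ℝ) := by
        rw [Finset.sum_comm]
        have h5 : ∀ x ∈ Λ, ∑ j ∈ F, ‖f j x‖ ^ 2 ≤ (1 : ℝ) := by
          intro x _
          have h7 := hf.sum_inner_products_le (dl x) (s := F)
          have h8 : ∀ j, ‖⟪f j, dl x⟫_ℂ‖ = ‖f j x‖ := fun j => by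
            rw [norm_inner_symm, dl_inner]
          have h9 : ‖dl x‖ ^ 2 = 1 := (hs_sum (dl x)).unique (dl_sum x)
          simp only [h8] at h7
          rw [h9] at h7
          exact h7
        refine (Finset.sum_le_sum h5).trans (le_of_eq ?_)
        rw [Finset.sum_const, nsmul_eq_mul, mul_one]
      have h5 : 0 ≤ (2 * ε1 + 4 * B1) * (Λ.card : ℝ) := by positivity
      linarith [Finset.sum_le_sum h3]
    · rw [if_neg hlk, zero_add]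
      have h3 := Ob_app hd hψ Λ (ckl θ0 i0 k l) (fun x => (ckl_norm θ0 i0 k l x).le) f hf T
        (B1 * Λ.card) hT F hB
      have h4 := hyp k hk l hl fun e => hlk e.symm
      linarith
  have h3 : ∑ j ∈ F, ∑ k ∈ Finset.range N, ∑ l ∈ Finset.range N,
      ‖∑ x ∈ Λ, ckl θ0 i0 k l x * ((‖f j x‖ ^ 2 : ℝ) : ℂ)‖ ^ 2 ≤
      (N + (N : ℝ) ^ 2 * (2 * ε1 + 4 * B1)) * Λ.card := by
    rw [Finset.sum_comm]
    have h4 : ∀ k ∈ Finset.range N, ∑ j ∈ F, ∑ l ∈ Finset.range N,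
        ‖∑ x ∈ Λ, ckl θ0 i0 k l x * ((‖f j x‖ ^ 2 : ℝ) : ℂ)‖ ^ 2 ≤
        (1 + N * (2 * ε1 + 4 * B1)) * Λ.card := by
      intro k hk
      rw [Finset.sum_comm]
      refine (Finset.sum_le_sum fun l hl => h2 k hk l hl).trans (le_of_eq ?_)
      rw [Finset.sum_add_distrib, Finset.sum_ite_eq' (Finset.range N) k fun _ => (Λ.card : ℝ),
        if_pos hk, Finset.sum_const, Finset.card_range, nsmul_eq_mul]
      ring
    refine (Finset.sum_le_sum h4).trans (le_of_eq ?_)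
    rw [Finset.sum_const, Finset.card_range, nsmul_eq_mul]
    ring
  have h5 := h1.trans h3
  have h6 : 0 < (N : ℝ) ^ 2 / 4 := by positivity
  have h7 : (N + (N : ℝ) ^ 2 * (2 * ε1 + 4 * B1)) * Λ.card =
      (N : ℝ) ^ 2 / 4 * ((4 / N + 4 * (2 * ε1 + 4 * B1)) * Λ.card) := by
    field_simp
  rw [h7] at h5
  exact le_of_mul_le_mul_left h5 h6

end Pool.Agent.Q218.AT
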