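import Pool.Agent.Q218.AT.Vol3

/-! All later times, and the functions which satisfy the eigenvalue equation in the interior of a
box: the final form. -/

set_option autoImplicit false
set_option linter.unusedSectionVars false

open scoped BigOperators Topology InnerProductSpace
open MeasureTheory Filter Set

namespace Pool.Agent.Q218.AT

open Pool.Agent.W788.LD.Spec (S summ_mul summ_shift shiftsum)
open Pool.Agent.H4R2.LO (Zd dd bx)
open Pool.Agent.H4R2.LO.Em (dd_norm mem_bx card_bx dd_comm)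
open Pool.Agent.TH794.QD (Sol HS hmk hmk_apply hs_sum)
open Pool.Agent.Q218.UD
open Pool.Agent.Q218.AD (Phi phi_meas phi_le W_tsum Cw small_rpow hs_inner)

variable {d : ℕ}

theorem vol_num (d : ℕ) (ε : ℝ) (hε : 0 < ε) : ∃ T2 : ℝ, ∀ T : ℝ, T2 ≤ T →
    2 * Real.sqrt (2 * ((2 * d * T) ^ 2 + 1) * (Cw d * 2 ^ (d + 1) * Real.exp (-(T / 2)))) ≤ ε := by
  have h1 : Tendsto (fun T : ℝ => 2 * Real.sqrt (2 * ((2 * d * T) ^ 2 + 1) *
      (Cw d * 2 ^ (d + 1) * Real.exp (-(T / 2))))) atTop (𝓝 0) := by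
    have h2 : Tendsto (fun T : ℝ => T / 2) atTop atTop :=
      tendsto_id.atTop_div_const (by norm_num)
    have h3 := (Real.tendsto_pow_mul_exp_neg_atTop_nhds_zero 2).comp h2
    have h4 := (Real.tendsto_pow_mul_exp_neg_atTop_nhds_zero 0).comp h2
    have h5 := (h3.const_mul (2 * (4 * (d : ℝ)) ^ 2 * (Cw d * 2 ^ (d + 1)))).add
      (h4.const_mul (2 * (Cw d * 2 ^ (d + 1))))
    rw [mul_zero, mul_zero, add_zero] at h5
    have h6 := ((Real.continuous_sqrt.tendsto 0).comp h5).const_mul 2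
    rw [Real.sqrt_zero, mul_zero] at h6
    refine h6.congr fun T => ?_
    simp only [Function.comp_apply]
    congr 2
    ring
  obtain ⟨T2, hT2⟩ := (h1.eventually_le_const hε).exists_forall_of_atTop
  exact ⟨T2, fun T hT => hT2 T hT⟩

theorem e_norm (i : Fin d) : ‖(Pi.single i 1 : Zd d)‖ = 1 := by
  rw [Pi.norm_single]
  simp

/-- the geometry of the boundary of a box -/
theorem geo (b : Zd d) (L : ℕ) (hL : 1 ≤ L) :
    (∀ w : Zd d, ∀ i : Fin d,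
      (¬ (w ∈ bx b (L - 1) ↔ w + Pi.single i 1 ∈ bx b (L - 1)) →
        w + Pi.single i 1 ∈ {z : Zd d | (L : ℝ) - 2 ≤ ‖z - b‖}) ∧
      (¬ (w ∈ bx b (L - 1) ↔ w - Pi.single i 1 ∈ bx b (L - 1)) →
        w - Pi.single i 1 ∈ {z : Zd d | (L : ℝ) - 2 ≤ ‖z - b‖})) ∧
    ∀ z : Zd d, z ∉ bx b (L - 1) → z ∈ {z : Zd d | (L : ℝ) - 2 ≤ ‖z - b‖} := by
  have hc : ((L - 1 : ℕ) : ℝ) = L - 1 := by push_cast [Nat.cast_sub hL]; rfl
  have key : ∀ w z : Zd d, ‖w - z‖ ≤ 1 → ¬ (w ∈ bx b (L - 1) ↔ z ∈ bx b (L - 1)) →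
      (L : ℝ) - 2 ≤ ‖z - b‖ := by
    intro w z h1 h2
    by_contra h3
    rw [not_le] at h3
    apply h2
    rw [mem_bx', mem_bx', hc]
    have h4 := norm_sub_le_norm_sub_add_norm_sub w z b
    exact ⟨fun _ => by linarith, fun _ => by linarith⟩
  refine ⟨fun w i => ⟨fun h => ?_, fun h => ?_⟩, fun z hz => ?_⟩
  · refine key w _ ?_ h
    rw [sub_add_cancel_left, norm_neg, e_norm]
  · refine key w _ ?_ h
    rw [sub_sub_cancel, e_norm]
  · rw [mem_bx', hc, not_le] at hz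
    show (L : ℝ) - 2 ≤ ‖z - b‖
    linarith

theorem bx_sub (b : Zd d) (L m : ℕ) : bx b (L - m) ⊆ bx b L := by
  intro z hz
  rw [mem_bx'] at hz ⊢
  refine hz.trans ?_
  exact_mod_cast Nat.sub_le L m

theorem bx_sdiff (b : Zd d) (L m : ℕ) (hm : m ≤ L) :
    ((bx b L \ bx b (L - m)).card : ℝ) ≤ d * (2 * m / (2 * L + 1)) * (bx b L).card := by
  refine le_trans (le_of_eq ?_) (bdry b L m hm)
  congr 2
  ext z
  rw [Finset.mem_sdiff, Finset.mem_filter, mem_bx' b z (L - m)]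

/-- **approximate eigenfunctions** -/
theorem vol (hd : 1 ≤ d) (G0 G1 : ℝ → ℝ) (hF : FreeD d G0 G1) (ε Vm : ℝ)
    (hε : 0 < ε) (hVm : 0 < Vm) :
    ∃ K ε' l0 : ℝ, 0 ≤ K ∧ 0 < ε' ∧ 0 < l0 ∧ ∀ lam : ℝ, 0 < lam → lam ≤ l0 →
    ∀ V : ℝ, 0 < V → V ≤ Vm ^ 2 → ∀ (W : Zd d → ℝ) (ψ : Zd d → ℝ → Zd d → ℂ),
    (∀ a, Sol d W a (ψ a)) → ∀ (b : Zd d) (L : ℕ), lam ^ (-3 : ℝ) ≤ L →
    Dfs G0 G1 K ε' lam V ψ (bx b L) →
    ∀ (J : Type) (f : J → HS d), Orthonormal ℂ f → ∀ (E : J → ℝ),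
      (∀ j x, ‖x - b‖ < L → -S (fun y => f j y) x + (W x : ℂ) * f j x = (E j : ℂ) * f j x) →
      ∀ s : Finset J, ∑ j ∈ s, ∑ x ∈ bx b L, ∑ y ∈ bx b L,
        (if ‖x - y‖ ≤ 2 * lam ^ (-(2011 / 1000) : ℝ) then ‖f j x‖ ^ 2 * ‖f j y‖ ^ 2 else 0) ≤
        ε * (bx b L).card := by
  obtain ⟨ε1, hε1⟩ : ∃ ε1, ε1 = min ε 1 / 8 := ⟨_, rfl⟩
  have hε10 : 0 < ε1 := by rw [hε1]; positivity
  have hε1e : ε1 ≤ ε / 8 := by
    rw [hε1]
    have := min_le_left ε 1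
    linarith
  have hε11 : ε1 ≤ 1 / 8 := by
    rw [hε1]
    have := min_le_right ε 1
    linarith
  obtain ⟨N, hN1, hN4, K, ε', l1, hK, hε', hl1, hc⟩ :=
    corr hd ⟨0, by omega⟩ G0 G1 hF ε1 Vm hε10 hVm
  obtain ⟨T2, hT2⟩ := vol_num d (ε / 64) (by positivity)
  obtain ⟨l2, hl2, hs2⟩ := small_rpow (2024 / 1000) (1 / (max T2 1)) (by norm_num) (by positivity)
  refine ⟨K, ε', min l1 (min l2 1), hK, hε', by positivity, ?_⟩
  intro lam hlam hlam0 V hV0 hVb W ψ hψ b L hL hdif J f hf E he F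
  have b1 : lam ≤ l1 := hlam0.trans (min_le_left _ _)
  have b2 : lam ≤ l2 := hlam0.trans ((min_le_right _ _).trans (min_le_left _ _))
  have b3 : lam ≤ 1 := hlam0.trans ((min_le_right _ _).trans (min_le_right _ _))
  obtain ⟨T, hT⟩ : ∃ T, T = lam ^ (-(2024 / 1000) : ℝ) := ⟨_, rfl⟩
  have hT0 : 0 < T := by rw [hT]; positivity
  obtain ⟨θ0, hθ0, hθR, m, hmL, hmT, hm1, hcor⟩ := hc lam hlam b1 V hV0 hVb W ψ hψ b L hL hdif T
    (by rw [hT]; linarith [Real.rpow_pos_of_pos hlam (-(2024 / 1000) : ℝ)]) hT.le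
  have hd1 : (1 : ℝ) ≤ d := by exact_mod_cast hd
  have hCw : 0 ≤ Cw d := by unfold Cw; positivity
  obtain ⟨εo, hεo⟩ : ∃ εo, εo = Cw d * 2 ^ (d + 1) * Real.exp (-(T / 2)) := ⟨_, rfl⟩
  have hεo0 : 0 ≤ εo := by rw [hεo]; positivity
  rw [← hεo] at hm1
  have hT2' : T2 ≤ T := by
    have h1 := hs2 lam hlam b2
    have h2 : lam ^ (2024 / 1000 : ℝ) = T⁻¹ := by
      rw [hT, Real.rpow_neg hlam.le, inv_inv]
    rw [h2, one_div] at h1
    have h3 : max T2 1 ≤ T := (inv_le_inv₀ hT0 (by positivity)).1 h1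
    exact (le_max_left _ _).trans h3
  have hδ := hT2 T hT2'
  rw [← hεo] at hδ
  obtain ⟨δ, hδd⟩ : ∃ δ, δ = 2 * Real.sqrt (2 * ((2 * d * T) ^ 2 + 1) * εo) := ⟨_, rfl⟩
  have hδ0 : 0 ≤ δ := by rw [hδd]; positivity
  rw [← hδd] at hδ
  -- the boundary layer
  have hL0 : (0 : ℝ) < 2 * L + 1 := by positivity
  have hm0 : (0 : ℝ) ≤ m := Nat.cast_nonneg m
  have hmpos : (1 : ℝ) ≤ m := by
    have h1 : (0 : ℝ) < m := lt_of_lt_of_le (by positivity) hmT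
    have h2 : 0 < m := by exact_mod_cast h1
    exact_mod_cast h2
  have hz : (d : ℝ) * (2 * m / (2 * L + 1)) ≤ ε1 / 32 := by linarith
  have hz2 : 2 * (m : ℝ) / (2 * L + 1) ≤ 1 / 256 := by
    have h1 : 2 * (m : ℝ) / (2 * L + 1) ≤ d * (2 * m / (2 * L + 1)) :=
      le_mul_of_one_le_left (by positivity) hd1
    linarith
  have hmL3 : m + 2 ≤ L := by
    rw [div_le_iff₀ hL0] at hz2
    have h1 : ((m + 2 : ℕ) : ℝ) ≤ L := by
      push_cast
      linarith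
    exact_mod_cast h1
  have hL1 : 1 ≤ L := by omega
  have hm2 : ((m + 2 : ℕ) : ℝ) ≤ 3 * m := by
    push_cast
    linarith
  have hbd : ((bx b L \ bx b (L - (m + 2))).card : ℝ) ≤ 3 * ε1 / 32 * (bx b L).card := by
    refine (bx_sdiff b L (m + 2) hmL3).trans ?_
    refine mul_le_mul_of_nonneg_right ?_ (Nat.cast_nonneg _)
    calc (d : ℝ) * (2 * ((m + 2 : ℕ) : ℝ) / (2 * L + 1)) ≤ d * (2 * (3 * m) / (2 * L + 1)) := by
          gcongr
      _ = 3 * (d * (2 * m / (2 * L + 1))) := by ring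
      _ ≤ 3 * (ε1 / 32) := by linarith
      _ = 3 * ε1 / 32 := by ring
  obtain ⟨g1, g2⟩ := geo b L hL1
  have hcL : ((L - 1 : ℕ) : ℝ) = L - 1 := by push_cast [Nat.cast_sub hL1]; rfl
  have hcm : ((L - (m + 2) : ℕ) : ℝ) = L - (m + 2) := by
    push_cast [Nat.cast_sub hmL3]
    rfl
  have hD : ∀ t ∈ Set.Icc (0 : ℝ) T, ∑ j ∈ F, Dj hψ (bx b L) (f j) t ≤
      (δ + 3 * ε1 / 16) * (bx b L).card := by
    intro t ht
    have h1 := Dj_sum hψ (bx b L) (bx b (L - (m + 2))) (bx_sub b L (m + 2)) f hf F t δ hδ0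
      (fun a ha => by
        rw [mem_bx', hcm] at ha
        rw [hδd]
        refine deep hψ (bx b (L - 1)) {z : Zd d | (L : ℝ) - 2 ≤ ‖z - b‖} g1 g2 a ?_ T εo hεo0 ?_
          f hf E ?_ F t ht
        · rw [mem_bx', hcL]
          linarith
        · intro r hr
          rw [hεo]
          refine out_small hd (hψ a) T hT0 m hmT r ?_ _ fun z hz => ?_
          · rw [abs_of_nonneg hr.1]
            exact hr.2
          · have h2 : (L : ℝ) - 2 ≤ ‖z - b‖ := hz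
            have h3 := norm_sub_le_norm_sub_add_norm_sub z a b
            linarith
        · intro j x hx
          rw [mem_bx', hcL] at hx
          exact he j x (by linarith))
    refine h1.trans ?_
    linarith
  have key := eigA hd hψ (bx b L) θ0 hθ0 ⟨0, by omega⟩ N hN1
    (2 * lam ^ (-(2011 / 1000) : ℝ)) T (ε1 / 16) (δ + 3 * ε1 / 16) hθR hT0.le (by positivity)
    (by positivity) hcor f hf F hD
  refine key.trans (mul_le_mul_of_nonneg_right ?_ (Nat.cast_nonneg _))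
  linarith

end Pool.Agent.Q218.AT
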